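import Pool.Agent.Helper16.RobDefs

open MeasureTheory Set Metric Filter
open scoped RealInnerProductSpace ENNReal ContDiff Topology

namespace Pool.Agent.Helper16.Rob

/-- If the open half-space `⟪n, v⟫ < 0` lies in the closed half-space `⟪a, v⟫ ≤ 0`, then `a` is
a nonnegative multiple of `n`. -/
lemma parallel_of_halfspace {a n : E3} (hn : n ≠ 0)
    (h : ∀ v : E3, ⟪n, v⟫ < 0 → ⟪a, v⟫ ≤ 0) : ∃ μ : ℝ, 0 ≤ μ ∧ a = μ • n := by
  have hnn : 0 < ⟪n, n⟫ := by
    rw [real_inner_self_eq_norm_sq]; positivity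
  set μ : ℝ := ⟪a, n⟫ / ⟪n, n⟫ with hμ
  have ha : 0 ≤ ⟪a, n⟫ := by
    have := h (-n) (by rw [inner_neg_right]; linarith)
    rw [inner_neg_right] at this; linarith
  refine ⟨μ, by positivity, ?_⟩
  set w : E3 := a - μ • n with hw
  have hnw : ⟪n, w⟫ = 0 := by
    rw [hw, inner_sub_right, inner_smul_right, real_inner_comm a n, hμ]
    field_simp
    ring
  have haw : ⟪a, w⟫ = ⟪w, w⟫ := by
    have : a = w + μ • n := by rw [hw]; abel
    conv_lhs => rw [this]
    rw [inner_add_left, inner_smul_left, hnw]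
    simp
  have hle : ⟪a, w⟫ ≤ 0 := by
    by_contra hpos
    push Not at hpos
    rcases eq_or_lt_of_le ha with h0 | h0
    · have := h (w - n) (by rw [inner_sub_right, hnw]; linarith)
      rw [inner_sub_right] at this
      linarith
    · set ε : ℝ := ⟪a, w⟫ / (2 * ⟪a, n⟫) with hε
      have hεpos : 0 < ε := by positivity
      have := h (w - ε • n) (by
        rw [inner_sub_right, hnw, inner_smul_right]
        have := mul_pos hεpos hnn
        linarith)
      rw [inner_sub_right, inner_smul_right] at this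
      have h2 : ε * ⟪a, n⟫ = ⟪a, w⟫ / 2 := by
        rw [hε]; field_simp
      linarith
  have hww : w = 0 := by
    rw [haw, real_inner_self_eq_norm_sq] at hle
    have : ‖w‖ = 0 := by
      have h1 := norm_nonneg w
      nlinarith [sq_nonneg ‖w‖]
    exact norm_eq_zero.mp this
  rw [hw, sub_eq_zero] at hww
  exact hww

/-- A convex set with nonempty interior has a supporting hyperplane at each point outside its
interior. -/
lemma exists_support {K : Set E3} (hK : Convex ℝ K) (hne : (interior K).Nonempty) {q : E3}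
    (hq : q ∉ interior K) : ∃ a : E3, a ≠ 0 ∧ ∀ x ∈ K, ⟪a, x⟫ ≤ ⟪a, q⟫ := by
  obtain ⟨f, hf⟩ := geometric_hahn_banach_open_point hK.interior isOpen_interior hq
  set a : E3 := (InnerProductSpace.toDual ℝ E3).symm f with ha
  have hfa : ∀ x, f x = ⟪a, x⟫ := fun x => by
    rw [ha, InnerProductSpace.toDual_symm_apply]
  refine ⟨a, ?_, ?_⟩
  · rintro h0
    obtain ⟨x, hx⟩ := hne
    have := hf x hx
    rw [hfa, hfa, h0] at this
    simp at this
  · have hcl : K ⊆ closure (interior K) := by
      rw [hK.closure_interior_eq_closure_of_nonempty_interior hne]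
      exact subset_closure
    have hclosed : IsClosed {x : E3 | ⟪a, x⟫ ≤ ⟪a, q⟫} :=
      isClosed_le (by fun_prop) continuous_const
    have : closure (interior K) ⊆ {x : E3 | ⟪a, x⟫ ≤ ⟪a, q⟫} := by
      apply closure_minimal _ hclosed
      intro x hx
      have := hf x hx
      rw [hfa, hfa] at this
      exact this.le
    intro x hx
    exact this (hcl hx)

/-- The support inequality at a local maximum of the distance from `G`. -/
lemma support_of_localMax {K : Set E3} (hK : Convex ℝ K) {q G : E3} (hq : q ∈ K)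
    (h : ∀ᶠ x in 𝓝[K] q, ‖x - G‖ ≤ ‖q - G‖) {x : E3} (hx : x ∈ K) (hxq : x ≠ q) :
    ⟪q - G, x - q⟫ < 0 := by
  by_contra hcon
  push Not at hcon
  have hpath : Tendsto (fun t : ℝ => q + t • (x - q)) (𝓝[>] 0) (𝓝[K] q) := by
    apply tendsto_nhdsWithin_iff.mpr
    constructor
    · have : Tendsto (fun t : ℝ => q + t • (x - q)) (𝓝 0) (𝓝 (q + (0:ℝ) • (x - q))) :=
        (Continuous.tendsto (by fun_prop) 0)
      simp only [zero_smul, add_zero] at this
      exact this.mono_left nhdsWithin_le_nhds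
    · have : ∀ᶠ t : ℝ in 𝓝[>] 0, t < 1 := by
        filter_upwards [Ioo_mem_nhdsGT (show (0:ℝ) < 1 by norm_num)] with t ht using ht.2
      filter_upwards [this, self_mem_nhdsWithin] with t ht1 ht0
      have ht0' : (0:ℝ) < t := ht0
      have := hK hq hx (show 0 ≤ 1 - t by linarith) ht0'.le (by ring)
      convert this using 1
      rw [sub_smul, one_smul, smul_sub]; abel
  have := (hpath.eventually h).and self_mem_nhdsWithin
  obtain ⟨t, ht, ht0⟩ := this.exists
  have ht0' : (0:ℝ) < t := ht0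
  have h1 : ‖q + t • (x - q) - G‖ ^ 2 ≤ ‖q - G‖ ^ 2 := by
    apply pow_le_pow_left₀ (norm_nonneg _) ht
  have h2 : q + t • (x - q) - G = (q - G) + t • (x - q) := by abel
  rw [h2, norm_add_sq_real, inner_smul_right, norm_smul, mul_pow] at h1
  have h3 : 0 < ‖x - q‖ ^ 2 := by
    have : x - q ≠ 0 := sub_ne_zero.mpr hxq
    positivity
  have h4 : 0 < ‖t‖ ^ 2 * ‖x - q‖ ^ 2 := by
    have : ‖t‖ = t := by rw [Real.norm_eq_abs, abs_of_pos ht0']
    rw [this]; positivity
  have h5 : 0 ≤ t * ⟪q - G, x - q⟫ := mul_nonneg ht0'.le hcon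
  linarith

/-- A local maximum of the distance is not an interior point. -/
lemma notMem_interior_of_localMax {K : Set E3} (hK : Convex ℝ K) {q G : E3} (hq : q ∈ K)
    (h : ∀ᶠ x in 𝓝[K] q, ‖x - G‖ ≤ ‖q - G‖) : q ∉ interior K := by
  intro hint
  obtain ⟨v, hv⟩ := exists_ne (0 : E3)
  have hpath : ∀ w : E3, ∀ᶠ t : ℝ in 𝓝 0, q + t • w ∈ K := by
    intro w
    have h1 : Tendsto (fun t : ℝ => q + t • w) (𝓝 0) (𝓝 (q + (0:ℝ) • w)) :=
      (Continuous.tendsto (by fun_prop) 0)
    simp only [zero_smul, add_zero] at h1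
    exact h1.eventually (mem_interior_iff_mem_nhds.mp hint)
  have h1 := (hpath v).and (hpath (-v))
  have h2 : ∀ᶠ t : ℝ in 𝓝[>] 0, (q + t • v ∈ K ∧ q + t • (-v) ∈ K) ∧ 0 < t :=
    (h1.filter_mono nhdsWithin_le_nhds).and self_mem_nhdsWithin
  obtain ⟨t, ⟨ht1, ht2⟩, ht0⟩ := h2.exists
  have hne1 : q + t • v ≠ q := by
    intro h'
    have : t • v = 0 := by simpa using h'
    rcases smul_eq_zero.mp this with h0 | h0
    · exact ht0.ne' h0
    · exact hv h0
  have hne2 : q + t • (-v) ≠ q := by
    intro h'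
    have : t • (-v) = 0 := by simpa using h'
    rcases smul_eq_zero.mp this with h0 | h0
    · exact ht0.ne' h0
    · exact hv (neg_eq_zero.mp h0)
  have e1 := support_of_localMax hK hq h ht1 hne1
  have e2 := support_of_localMax hK hq h ht2 hne2
  simp only [add_sub_cancel_left, inner_smul_right, inner_neg_right] at e1 e2
  linarith

end Pool.Agent.Helper16.Rob
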