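import Pool.Agent.Helper16.RobVol

open MeasureTheory Set Metric Filter
open scoped RealInnerProductSpace ENNReal ContDiff Topology

namespace Pool.Agent.Helper16.Rob

lemma inner_E3 (x y : E3) : ⟪x, y⟫ = x 0 * y 0 + x 1 * y 1 + x 2 * y 2 := by
  simp [PiLp.inner_apply, Fin.sum_univ_three]; ring

lemma inner_E3_sum (x y : E3) : ⟪x, y⟫ = ∑ i, x i * y i := by
  rw [inner_E3, Fin.sum_univ_three]

/-- The competitor bodies. -/
def bodyK (d : ℝ) : Set E3 :=
  {x | (∀ i, |x i| ≤ d) ∧ ∀ i j, i ≠ j → 3 * |x i| + 2 * |x j| ≤ 5}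

lemma bodyK_one : bodyK 1 = cube := by
  ext x
  simp only [bodyK, cube, mem_ofPred_eq, and_iff_left_iff_imp]
  intro h i j _
  have := h i; have := h j; linarith

lemma cube_subset_bodyK {d : ℝ} (hd : 1 ≤ d) : cube ⊆ bodyK d := by
  intro x hx
  refine ⟨fun i => (hx i).trans hd, fun i j _ => ?_⟩
  have := hx i; have := hx j; linarith

lemma isClosed_bodyK (d : ℝ) : IsClosed (bodyK d) := by
  have : bodyK d = (⋂ i, {x : E3 | |x i| ≤ d}) ∩
      ⋂ i, ⋂ j, ⋂ (_ : i ≠ j), {x : E3 | 3 * |x i| + 2 * |x j| ≤ 5} := by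
    ext x; simp [bodyK]
  rw [this]
  apply IsClosed.inter
  · exact isClosed_iInter fun i => isClosed_le (by fun_prop) continuous_const
  · exact isClosed_iInter fun i => isClosed_iInter fun j => isClosed_iInter fun _ =>
      isClosed_le (by fun_prop) continuous_const

lemma isCompact_of_bounded_coord {K : Set E3} (hK : IsClosed K) {d : ℝ}
    (hd : ∀ x ∈ K, ∀ i, |x i| ≤ d) : IsCompact K := by
  apply Metric.isCompact_of_isClosed_isBounded hK
  rw [isBounded_iff_forall_norm_le]
  refine ⟨3 * |d|, fun x hx => ?_⟩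
  have h0 : ∀ i, |x i| ≤ |d| := fun i => (hd x hx i).trans (le_abs_self d)
  have h1 : ‖x‖ ^ 2 ≤ (3 * |d|) ^ 2 := by
    rw [← real_inner_self_eq_norm_sq, inner_E3]
    have e : ∀ i, x i * x i ≤ |d| ^ 2 := fun i => by
      have h2 := h0 i
      have : x i * x i = |x i| ^ 2 := by rw [sq_abs]; ring
      rw [this]
      exact pow_le_pow_left₀ (abs_nonneg _) h2 2
    have := e 0; have := e 1; have := e 2
    nlinarith [sq_nonneg d, sq_abs d]
  exact le_of_sq_le_sq h1 (by positivity)

lemma isCompact_bodyK (d : ℝ) : IsCompact (bodyK d) :=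
  isCompact_of_bounded_coord (isClosed_bodyK d) (d := d) (fun _ hx => hx.1)

lemma convex_bodyK (d : ℝ) : Convex ℝ (bodyK d) := by
  intro x hx y hy a b ha hb hab
  have habs : ∀ i, |(a • x + b • y) i| ≤ a * |x i| + b * |y i| := by
    intro i
    simp only [PiLp.add_apply, PiLp.smul_apply, smul_eq_mul]
    calc |a * x i + b * y i| ≤ |a * x i| + |b * y i| := abs_add_le _ _
      _ = a * |x i| + b * |y i| := by rw [abs_mul, abs_mul, abs_of_nonneg ha, abs_of_nonneg hb]
  refine ⟨fun i => ?_, fun i j hij => ?_⟩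
  · have h1 := hx.1 i
    have h2 := hy.1 i
    calc _ ≤ a * |x i| + b * |y i| := habs i
      _ ≤ a * d + b * d := by gcongr
      _ = d := by rw [← add_mul, hab, one_mul]
  · have h1 := hx.2 i j hij
    have h2 := hy.2 i j hij
    calc _ ≤ 3 * (a * |x i| + b * |y i|) + 2 * (a * |x j| + b * |y j|) := by
          have := habs i; have := habs j; linarith
      _ = a * (3 * |x i| + 2 * |x j|) + b * (3 * |y i| + 2 * |y j|) := by ring
      _ ≤ a * 5 + b * 5 := by gcongr
      _ = 5 := by rw [← add_mul, hab, one_mul]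

lemma ball_subset_cube : ball (0 : E3) 1 ⊆ cube := by
  intro x hx i
  rw [mem_ball_zero_iff] at hx
  have := PiLp.norm_apply_le x i
  rw [Real.norm_eq_abs] at this
  linarith

lemma zero_mem_interior_cube : (0 : E3) ∈ interior cube :=
  interior_maximal ball_subset_cube isOpen_ball (mem_ball_self one_pos)

lemma isConvexBody_bodyK {d : ℝ} (hd : 1 ≤ d) : IsConvexBody (bodyK d) :=
  ⟨convex_bodyK d, isCompact_bodyK d,
    ⟨0, interior_mono (cube_subset_bodyK hd) zero_mem_interior_cube⟩⟩

lemma centroid_bodyK (d : ℝ) : centroid (bodyK d) = 0 := by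
  have : ∫ x in bodyK d, x = 0 := by
    apply integral_symm_zero
    intro x
    simp [bodyK]
  rw [centroid, this, smul_zero]

/-- The polytope property. -/
lemma isPolytope_bodyK (d : ℝ) : IsPolytope (bodyK d) := by
  -- the finite index set of the half-spaces
  let e : Fin 3 → E3 := fun i => EuclideanSpace.single i 1
  let sg : Bool → ℝ := fun b => if b then 1 else -1
  let s1 : Set (E3 × ℝ) := Set.range (fun p : Fin 3 × Bool => (sg p.2 • e p.1, d))
  let s2 : Set (E3 × ℝ) := Set.range (fun p : {p : Fin 3 × Fin 3 // p.1 ≠ p.2} × Bool × Bool =>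
    ((3 * sg p.2.1) • e p.1.1.1 + (2 * sg p.2.2) • e p.1.1.2, (5:ℝ)))
  have hin : ∀ (c : ℝ) (i : Fin 3) (x : E3), ⟪c • e i, x⟫ = c * x i := by
    intro c i x
    rw [inner_smul_left, EuclideanSpace.inner_single_left]
    simp
  have habs : ∀ (t c : ℝ), |t| ≤ c ↔ ∀ b : Bool, sg b * t ≤ c := by
    intro t c
    rw [abs_le]
    simp only [sg, Bool.forall_bool]
    constructor
    · rintro ⟨h1, h2⟩; constructor <;> simp <;> linarith
    · rintro ⟨h1, h2⟩; simp at h1 h2; constructor <;> linarith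
  have habs2 : ∀ (t u : ℝ), 3 * |t| + 2 * |u| ≤ 5 ↔
      ∀ b b' : Bool, 3 * sg b * t + 2 * sg b' * u ≤ 5 := by
    intro t u
    simp only [sg, Bool.forall_bool]
    constructor
    · intro h
      have := le_abs_self t; have := neg_abs_le t
      have := le_abs_self u; have := neg_abs_le u
      simp
      refine ⟨⟨?_, ?_⟩, ?_, ?_⟩ <;> linarith
    · simp
      intro h1 h2 h3 h4
      rcases abs_cases t with ⟨h, _⟩ | ⟨h, _⟩ <;> rcases abs_cases u with ⟨h', _⟩ | ⟨h', _⟩ <;>
        rw [h, h'] <;> linarith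
  refine ⟨s1 ∪ s2, (Set.finite_range _).union (Set.finite_range _), ?_⟩
  ext x
  simp only [bodyK, mem_ofPred_eq, mem_union, s1, s2]
  constructor
  · rintro ⟨h1, h2⟩ p (⟨q, rfl⟩ | ⟨q, rfl⟩)
    · simp only
      rw [hin]
      exact (habs _ _).mp (h1 q.1) q.2
    · simp only
      rw [inner_add_left, hin, hin]
      exact (habs2 _ _).mp (h2 _ _ q.1.2) _ _
  · intro h
    constructor
    · intro i
      rw [habs]
      intro b
      have := h (sg b • e i, d) (Or.inl ⟨(i, b), rfl⟩)
      rwa [hin] at this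
    · intro i j hij
      rw [habs2]
      intro b b'
      have := h ((3 * sg b) • e i + (2 * sg b') • e j, 5)
        (Or.inr ⟨(⟨(i, j), hij⟩, b, b'), rfl⟩)
      rwa [inner_add_left, hin, hin] at this

end Pool.Agent.Helper16.Rob
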