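import Pool.Agent.Helper16.RobBodyK

open MeasureTheory Set Metric Filter
open scoped RealInnerProductSpace ENNReal ContDiff Topology

namespace Pool.Agent.Helper16.Rob

lemma fin3_cases : ∀ (i j k : Fin 3), i ≠ j → i ≠ k → j ≠ k → ∀ l, l = i ∨ l = j ∨ l = k := by
  decide

lemma fin3_sum (g : Fin 3 → ℝ) (i j k : Fin 3) (hij : i ≠ j) (hik : i ≠ k) (hjk : j ≠ k) :
    g 0 + g 1 + g 2 = g i + g j + g k := by
  fin_cases i <;> fin_cases j <;> fin_cases k <;>
    first
      | exact absurd rfl hij
      | exact absurd rfl hik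
      | exact absurd rfl hjk
      | (simp only [Fin.zero_eta, Fin.mk_one, Fin.reduceFinMk]; done)
      | (simp only [Fin.zero_eta, Fin.mk_one, Fin.reduceFinMk]; ring)

lemma supp_abs {d : ℝ} {q : E3} (hq : ∀ x ∈ bodyK d, ⟪q, x - q⟫ ≤ 0) (y : Fin 3 → ℝ)
    (hy0 : ∀ i, 0 ≤ y i) (hyd : ∀ i, y i ≤ d)
    (hy : ∀ i j, i ≠ j → 3 * y i + 2 * y j ≤ 5) :
    |q 0| * y 0 + |q 1| * y 1 + |q 2| * y 2 ≤ |q 0| ^ 2 + |q 1| ^ 2 + |q 2| ^ 2 := by
  set x : E3 := WithLp.toLp 2 (fun i => if 0 ≤ q i then y i else - y i) with hx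
  have hxi : ∀ i, x i = if 0 ≤ q i then y i else - y i := fun i => rfl
  have habs : ∀ i, |x i| = y i := by
    intro i
    rw [hxi]
    split_ifs
    · exact abs_of_nonneg (hy0 i)
    · rw [abs_neg]; exact abs_of_nonneg (hy0 i)
  have hmem : x ∈ bodyK d := by
    refine ⟨fun i => by rw [habs]; exact hyd i, fun i j hij => by rw [habs, habs]; exact hy i j hij⟩
  have h1 := hq x hmem
  have hprod : ∀ i, q i * x i = |q i| * y i := by
    intro i
    rw [hxi]
    split_ifs with h
    · rw [abs_of_nonneg h]
    · rw [abs_of_neg (not_le.mp h)]; ring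
  rw [inner_sub_right, inner_E3, inner_E3, hprod, hprod, hprod] at h1
  rw [sq_abs, sq_abs, sq_abs]
  linarith

lemma sorted_classify {a b c d : ℝ} (hd2 : d ≤ 23 / 20) (hba : b ≤ a) (hcb : c ≤ b)
    (hc : 0 ≤ c) (had : a ≤ d) (h32 : 3 * a + 2 * b ≤ 5) (hbd : a = d ∨ 3 * a + 2 * b = 5)
    (T1 : a + b + c ≤ a ^ 2 + b ^ 2 + c ^ 2)
    (T2 : a = d → d * a + (5 - 3 * d) / 2 * b ≤ a ^ 2 + b ^ 2) :
    (a = d ∧ b = 0 ∧ c = 0) ∨ (a = 1 ∧ b = 1 ∧ (c = 0 ∨ c = 1)) := by
  have main : 3 * a + 2 * b = 5 → (a = 1 ∧ b = 1 ∧ (c = 0 ∨ c = 1)) := by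
    intro h
    have hb1 : b ≤ 1 := by linarith
    have hb2 : 31 / 40 ≤ b := by linarith
    have ha : a = (5 - 2 * b) / 3 := by linarith
    have h1 : (1 - b) * (13 * b - 10) / 9 + c * (1 - c) ≤ 0 := by
      rw [ha] at T1; nlinarith
    have h2 : 0 ≤ (1 - b) * (13 * b - 10) := by
      apply mul_nonneg <;> linarith
    have h3 : 0 ≤ c * (1 - c) := by
      apply mul_nonneg <;> linarith
    have h4 : (1 - b) * (13 * b - 10) = 0 := by linarith
    have h5 : c * (1 - c) = 0 := by linarith
    have hb : b = 1 := by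
      rcases mul_eq_zero.mp h4 with h | h <;> linarith
    refine ⟨by rw [ha, hb]; norm_num, hb, ?_⟩
    rcases mul_eq_zero.mp h5 with h | h
    · left; exact h
    · right; linarith
  rcases hbd with h | h
  · have t := T2 h
    set s : ℝ := (5 - 3 * d) / 2 with hs
    have h1 : b * (s - b) ≤ 0 := by rw [h] at t; nlinarith
    have hb0 : 0 ≤ b := hc.trans hcb
    have hbs : b ≤ s := by rw [h] at h32; linarith
    rcases mul_eq_zero.mp (le_antisymm h1 (mul_nonneg hb0 (by linarith))) with h2 | h2
    · left; exact ⟨h, h2, by linarith⟩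
    · right; apply main; rw [h]; linarith
  · right; exact main h

/-- The types of equilibrium points. -/
def typeA (d : ℝ) (q : E3) : Prop := ∃ i, |q i| = d ∧ ∀ j, j ≠ i → q j = 0
def typeB (q : E3) : Prop := ∃ k, q k = 0 ∧ ∀ j, j ≠ k → |q j| = 1
def typeC (q : E3) : Prop := ∀ i, |q i| = 1

lemma frontier_bodyK {d : ℝ} {q : E3} (hq : q ∈ frontier (bodyK d)) :
    (∃ i, |q i| = d) ∨ ∃ i j, i ≠ j ∧ 3 * |q i| + 2 * |q j| = 5 := by
  by_contra hcon
  push Not at hcon
  obtain ⟨h1, h2⟩ := hcon
  have hqK : q ∈ bodyK d := (isClosed_bodyK d).frontier_subset hq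
  have hopen : IsOpen ((⋂ i, {x : E3 | |x i| < d}) ∩
      ⋂ i, ⋂ j, ⋂ (_ : i ≠ j), {x : E3 | 3 * |x i| + 2 * |x j| < 5}) := by
    apply IsOpen.inter
    · exact isOpen_iInter_of_finite fun i => isOpen_lt (by fun_prop) continuous_const
    · exact isOpen_iInter_of_finite fun i => isOpen_iInter_of_finite fun j =>
        isOpen_iInter_of_finite fun _ => isOpen_lt (by fun_prop) continuous_const
  apply hq.2
  refine interior_maximal ?_ hopen ?_
  · rintro x ⟨hx1, hx2⟩
    simp only [mem_iInter, mem_ofPred_eq] at hx1 hx2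
    exact ⟨fun i => (hx1 i).le, fun i j hij => (hx2 i j hij).le⟩
  · simp only [mem_inter_iff, mem_iInter, mem_ofPred_eq]
    exact ⟨fun i => lt_of_le_of_ne (hqK.1 i) (h1 i),
      fun i j hij => lt_of_le_of_ne (hqK.2 i j hij) (h2 i j hij)⟩

lemma classify {d : ℝ} (hd1 : 1 ≤ d) (hd2 : d ≤ 23 / 20) {q : E3}
    (hq : IsEquilibrium (bodyK d) q) : typeA d q ∨ typeB q ∨ typeC q := by
  obtain ⟨hfr, hsupp⟩ := hq
  rw [centroid_bodyK, sub_zero] at hsupp
  have hqK : q ∈ bodyK d := (isClosed_bodyK d).frontier_subset hfr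
  have hbd := frontier_bodyK hfr
  have S := supp_abs hsupp
  -- the test points
  have T1 := S (fun _ => 1) (fun _ => zero_le_one) (fun _ => hd1) (fun i j _ => by norm_num)
  set s : ℝ := (5 - 3 * d) / 2 with hs
  have hs0 : 0 ≤ s := by rw [hs]; linarith
  have hsd : s ≤ d := by rw [hs]; linarith
  -- sorted version
  have key : ∀ i j k : Fin 3, i ≠ j → i ≠ k → j ≠ k → |q j| ≤ |q i| → |q k| ≤ |q j| →
      (|q i| = d ∧ |q j| = 0 ∧ |q k| = 0) ∨
      (|q i| = 1 ∧ |q j| = 1 ∧ (|q k| = 0 ∨ |q k| = 1)) := by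
    intro i j k hij hik hjk h1 h2
    have hall := fin3_cases i j k hij hik hjk
    have hsum : ∀ g : Fin 3 → ℝ, g 0 + g 1 + g 2 = g i + g j + g k :=
      fun g => fin3_sum g i j k hij hik hjk
    apply sorted_classify hd2 h1 h2 (abs_nonneg _) (hqK.1 i) (hqK.2 i j hij)
    · rcases hbd with ⟨l, hl⟩ | ⟨l, m, hlm, hl⟩
      · left
        have : |q l| ≤ |q i| := by
          rcases hall l with rfl | rfl | rfl
          · exact le_refl _
          · exact h1
          · exact h2.trans h1
        exact le_antisymm (hqK.1 i) (hl ▸ this)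
      · right
        have e1 := hqK.2 i j hij
        have hj := h1
        rcases hall l with rfl | rfl | rfl <;> rcases hall m with rfl | rfl | rfl <;>
          first
            | exact absurd rfl hlm
            | linarith
    · have := T1
      simp only [mul_one] at this
      have e := hsum (fun l => |q l|)
      have e2 := hsum (fun l => |q l| ^ 2)
      simp only at e e2
      linarith
    · intro hid
      have hjs : |q j| ≤ s := by
        have := hqK.2 i j hij
        rw [hid] at this; rw [hs]; linarith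
      have t := S (fun l => if l = i then d else if l = j then s else |q k|)
        (fun l => by split_ifs; exacts [by linarith, hs0, abs_nonneg _])
        (fun l => by split_ifs; exacts [le_refl _, hsd, hqK.1 k])
        (fun l m hlm => by
          have e1 : |q k| ≤ s := h2.trans hjs
          have e0 := abs_nonneg (q k)
          rcases hall l with rfl | rfl | rfl <;> rcases hall m with rfl | rfl | rfl <;>
          first
            | exact absurd rfl hlm
            | (simp only [hij, hij.symm, hik.symm, hjk.symm, if_true, if_false]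
               rw [hs] at *
               linarith))
      have e := hsum (fun l => |q l| * (if l = i then d else if l = j then s else |q k|))
      have e2 := hsum (fun l => |q l| ^ 2)
      simp only [if_true, hij.symm, hik.symm, hjk.symm, if_false] at e e2
      simp only at t
      rw [e, e2] at t
      have e3 : |q k| * |q k| = |q k| ^ 2 := by ring
      have e4 : |q j| * s = (5 - 3 * d) / 2 * |q j| := by rw [hs]; ring
      rw [e3, e4] at t
      linarith
  have conv : ∀ i j k : Fin 3, i ≠ j → i ≠ k → j ≠ k →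
      ((|q i| = d ∧ |q j| = 0 ∧ |q k| = 0) ∨
      (|q i| = 1 ∧ |q j| = 1 ∧ (|q k| = 0 ∨ |q k| = 1))) →
      typeA d q ∨ typeB q ∨ typeC q := by
    intro i j k hij hik hjk h
    have hall := fin3_cases i j k hij hik hjk
    rcases h with ⟨h1, h2, h3⟩ | ⟨h1, h2, h3 | h3⟩
    · left
      refine ⟨i, h1, fun l hl => ?_⟩
      rcases hall l with rfl | rfl | rfl
      · exact absurd rfl hl
      · exact abs_eq_zero.mp h2
      · exact abs_eq_zero.mp h3
    · right; left
      refine ⟨k, abs_eq_zero.mp h3, fun l hl => ?_⟩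
      rcases hall l with rfl | rfl | rfl
      · exact h1
      · exact h2
      · exact absurd rfl hl
    · right; right
      intro l
      rcases hall l with rfl | rfl | rfl
      · exact h1
      · exact h2
      · exact h3
  rcases le_total |q 0| |q 1| with h01 | h01 <;> rcases le_total |q 1| |q 2| with h12 | h12 <;>
    rcases le_total |q 0| |q 2| with h02 | h02
  · exact conv 2 1 0 (by decide) (by decide) (by decide) (key 2 1 0 (by decide) (by decide)
      (by decide) h12 h01)
  · exact conv 2 1 0 (by decide) (by decide) (by decide) (key 2 1 0 (by decide) (by decide)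
      (by decide) h12 h01)
  · exact conv 1 2 0 (by decide) (by decide) (by decide) (key 1 2 0 (by decide) (by decide)
      (by decide) h12 h02)
  · exact conv 1 0 2 (by decide) (by decide) (by decide) (key 1 0 2 (by decide) (by decide)
      (by decide) h01 h02)
  · exact conv 2 0 1 (by decide) (by decide) (by decide) (key 2 0 1 (by decide) (by decide)
      (by decide) h02 h01)
  · exact conv 0 2 1 (by decide) (by decide) (by decide) (key 0 2 1 (by decide) (by decide)
      (by decide) h02 h12)
  · exact conv 0 1 2 (by decide) (by decide) (by decide) (key 0 1 2 (by decide) (by decide)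
      (by decide) h01 h12)
  · exact conv 0 1 2 (by decide) (by decide) (by decide) (key 0 1 2 (by decide) (by decide)
      (by decide) h01 h12)

end Pool.Agent.Helper16.Rob
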