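import Pool.Agent.Helper16.RobBodyK2

open MeasureTheory Set Metric Filter
open scoped RealInnerProductSpace ENNReal ContDiff Topology

set_option linter.unusedSectionVars false
set_option linter.unusedVariables false

namespace Pool.Agent.Helper16.Rob

lemma mem_intrinsicInterior_of {A : Set E3} {q : E3} (hq : q ∈ A)
    (h : ∀ᶠ x in 𝓝 q, x ∈ affineSpan ℝ A → x ∈ A) : q ∈ intrinsicInterior ℝ A := by
  rw [mem_intrinsicInterior]
  refine ⟨⟨q, subset_affineSpan ℝ A hq⟩, ?_, rfl⟩
  rw [mem_interior_iff_mem_nhds]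
  have ht : Tendsto (Subtype.val : affineSpan ℝ A → E3) (𝓝 ⟨q, subset_affineSpan ℝ A hq⟩)
      (𝓝 q) := continuous_subtype_val.continuousAt
  filter_upwards [ht.eventually h] with y hy
  exact hy y.2

lemma abs_sub_lt_of_ball {x q : E3} {r : ℝ} (hx : x ∈ ball q r) (i : Fin 3) :
    |x i - q i| < r := by
  rw [mem_ball, dist_eq_norm] at hx
  have := PiLp.norm_apply_le (x - q) i
  rw [Real.norm_eq_abs, PiLp.sub_apply] at this
  linarith

lemma mem_frontier_of_support {K : Set E3} {q : E3} (hq : q ∈ K) (hq0 : q ≠ 0)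
    (h : ∀ x ∈ K, ⟪q, x - q⟫ ≤ 0) : q ∈ frontier K := by
  refine ⟨subset_closure hq, fun hint => ?_⟩
  have h1 : Tendsto (fun t : ℝ => q + t • q) (𝓝[>] 0) (𝓝 q) := by
    have : Tendsto (fun t : ℝ => q + t • q) (𝓝 0) (𝓝 (q + (0:ℝ) • q)) :=
      (Continuous.tendsto (by fun_prop) 0)
    simp only [zero_smul, add_zero] at this
    exact this.mono_left nhdsWithin_le_nhds
  obtain ⟨t, ht, ht0⟩ := ((h1.eventually (mem_interior_iff_mem_nhds.mp hint)).and
    self_mem_nhdsWithin).exists
  have ht0' : (0:ℝ) < t := ht0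
  have := h _ ht
  rw [add_sub_cancel_left, inner_smul_right, real_inner_self_eq_norm_sq] at this
  have h2 : 0 < ‖q‖ ^ 2 := by positivity
  have := mul_pos ht0' h2
  linarith

section types

variable {d : ℝ} (hd1 : 1 ≤ d) (hd2 : d ≤ 23 / 20) {q : E3}

include hd1 hd2

lemma pair_sum_le {x : E3} (hx : x ∈ bodyK d) {i j : Fin 3} (hij : i ≠ j) :
    |x i| + |x j| ≤ 2 := by
  have h1 := hx.2 i j hij
  have h2 := hx.2 j i hij.symm
  linarith

lemma mul_le_abs_mul (a b : ℝ) : a * b ≤ |a| * |b| := by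
  rw [← abs_mul]; exact le_abs_self _

lemma typeA_mem (hq : typeA d q) : q ∈ bodyK d := by
  obtain ⟨i, hi, hj⟩ := hq
  have hle : ∀ l, |q l| ≤ d := by
    intro l
    rcases eq_or_ne l i with rfl | h
    · exact hi.le
    · rw [hj l h]; simp; linarith
  refine ⟨hle, fun a b hab => ?_⟩
  rcases eq_or_ne a i with rfl | ha
  · rw [hj b hab.symm, hi]; simp; linarith
  · rw [hj a ha]; have := hle b; simp; linarith

lemma typeA_inner (hq : typeA d q) : ∃ i, |q i| = d ∧ (∀ j, j ≠ i → q j = 0) ∧
    ∀ x : E3, ⟪q, x - q⟫ = q i * (x i - q i) := by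
  obtain ⟨i, hi, hj⟩ := hq
  refine ⟨i, hi, hj, fun x => ?_⟩
  rw [inner_E3_sum]
  rw [Finset.sum_eq_single i]
  · rfl
  · intro j _ hji
    rw [hj j hji, zero_mul]
  · intro h; exact absurd (Finset.mem_univ _) h

lemma typeA_equilibrium (hq : typeA d q) : IsEquilibrium (bodyK d) q := by
  have hmem := typeA_mem hd1 hd2 hq
  obtain ⟨i, hi, hj, hin⟩ := typeA_inner hd1 hd2 hq
  have hq0 : q ≠ 0 := by
    rintro rfl
    simp at hi
    linarith
  have hs : ∀ x ∈ bodyK d, ⟪q, x - q⟫ ≤ 0 := by
    intro x hx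
    rw [hin]
    have h1 := hx.1 i
    have h2 := mul_le_abs_mul hd1 hd2 (q i) (x i)
    have h3 : q i * q i = d * d := by rw [← abs_mul_abs_self, hi]
    rw [hi] at h2
    have : d * |x i| ≤ d * d := by
      apply mul_le_mul_of_nonneg_left h1; linarith
    nlinarith
  refine ⟨mem_frontier_of_support hmem hq0 hs, ?_⟩
  rw [centroid_bodyK, sub_zero]
  exact hs

lemma typeA_plane (hq : typeA d q) : ∀ᶠ x in 𝓝 q, ⟪q, x - q⟫ = 0 → x ∈ bodyK d := by
  obtain ⟨i, hi, hj, hin⟩ := typeA_inner hd1 hd2 hq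
  filter_upwards [ball_mem_nhds q (show (0:ℝ) < 1 / 4 by norm_num)] with x hx h0
  rw [hin] at h0
  have hqi : q i ≠ 0 := by
    intro h; rw [h] at hi; simp at hi; linarith
  have hxi : x i = q i := by
    rcases mul_eq_zero.mp h0 with h | h
    · exact absurd h hqi
    · linarith
  have hxj : ∀ j, j ≠ i → |x j| ≤ 1 / 4 := by
    intro j hji
    have := abs_sub_lt_of_ball hx j
    rw [hj j hji, sub_zero] at this
    exact this.le
  have hle : ∀ l, |x l| ≤ d := by
    intro l
    rcases eq_or_ne l i with rfl | h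
    · rw [hxi]; exact hi.le
    · have := hxj l h; linarith
  refine ⟨hle, fun a b hab => ?_⟩
  rcases eq_or_ne a i with rfl | ha
  · have := hxj b hab.symm; rw [hxi, hi]; linarith
  · have := hxj a ha; have := hle b; linarith

lemma typeA_dim (hq : typeA d q) : contactDim (bodyK d) q = 2 := by
  have heq := typeA_equilibrium hd1 hd2 hq
  have hmem := typeA_mem hd1 hd2 hq
  have hq0 : q ≠ centroid (bodyK d) := by
    rw [centroid_bodyK]
    obtain ⟨i, hi, -⟩ := hq
    rintro rfl
    simp at hi
    linarith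
  apply contactDim_of_plane hq0 hmem
  rw [centroid_bodyK, sub_zero]
  exact typeA_plane hd1 hd2 hq

lemma typeA_nondeg (hq : typeA d q) :
    q ∈ intrinsicInterior ℝ (contactFace (bodyK d) q) := by
  have hmem := typeA_mem hd1 hd2 hq
  have hqA : q ∈ contactFace (bodyK d) q := ⟨hmem, by simp⟩
  apply mem_intrinsicInterior_of hqA
  have hspan : affineSpan ℝ (contactFace (bodyK d) q) ≤ AffineSubspace.mk' q (ℝ ∙ q)ᗮ := by
    rw [affineSpan_le]
    intro x hx
    have := hx.2
    rw [centroid_bodyK, sub_zero] at this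
    rw [SetLike.mem_coe, AffineSubspace.mem_mk', vsub_eq_sub,
      Submodule.mem_orthogonal_singleton_iff_inner_right]
    exact this
  filter_upwards [typeA_plane hd1 hd2 hq] with x hx hxs
  have h1 := hspan hxs
  rw [AffineSubspace.mem_mk', vsub_eq_sub,
      Submodule.mem_orthogonal_singleton_iff_inner_right] at h1
  refine ⟨hx h1, ?_⟩
  rw [centroid_bodyK, sub_zero]
  exact h1

lemma typeC_mem (hq : typeC q) : q ∈ bodyK d := by
  apply cube_subset_bodyK hd1
  intro i
  exact (hq i).le

lemma typeC_self (hq : typeC q) (i : Fin 3) : q i * q i = 1 := by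
  rw [← abs_mul_abs_self, hq i, one_mul]

lemma typeC_support (hq : typeC q) {x : E3} (hx : x ∈ bodyK d) :
    ⟪q, x - q⟫ ≤ (|x 0| + |x 1| + |x 2|) - 3 := by
  rw [inner_E3]
  simp only [PiLp.sub_apply]
  have e : ∀ i, q i * (x i - q i) ≤ |x i| - 1 := by
    intro i
    have h1 := mul_le_abs_mul hd1 hd2 (q i) (x i)
    rw [hq i, one_mul] at h1
    have := typeC_self hd1 hd2 hq i
    nlinarith
  have := e 0; have := e 1; have := e 2
  linarith

lemma typeC_equilibrium (hq : typeC q) : IsEquilibrium (bodyK d) q := by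
  have hmem := typeC_mem hd1 hd2 hq
  have hq0 : q ≠ 0 := by
    rintro rfl
    have := hq 0
    simp at this
  have hs : ∀ x ∈ bodyK d, ⟪q, x - q⟫ ≤ 0 := by
    intro x hx
    have h1 := typeC_support hd1 hd2 hq hx
    have h2 := pair_sum_le hd1 hd2 hx (show (0 : Fin 3) ≠ 1 by decide)
    have h3 := pair_sum_le hd1 hd2 hx (show (0 : Fin 3) ≠ 2 by decide)
    have h4 := pair_sum_le hd1 hd2 hx (show (1 : Fin 3) ≠ 2 by decide)
    linarith
  refine ⟨mem_frontier_of_support hmem hq0 hs, ?_⟩
  rw [centroid_bodyK, sub_zero]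
  exact hs

lemma typeC_face (hq : typeC q) : contactFace (bodyK d) q = {q} := by
  ext x
  simp only [contactFace, mem_ofPred_eq, mem_singleton_iff]
  constructor
  · rintro ⟨hx, h0⟩
    rw [centroid_bodyK, sub_zero] at h0
    have h1 := typeC_support hd1 hd2 hq hx
    have h2 := pair_sum_le hd1 hd2 hx (show (0 : Fin 3) ≠ 1 by decide)
    have h3 := pair_sum_le hd1 hd2 hx (show (0 : Fin 3) ≠ 2 by decide)
    have h4 := pair_sum_le hd1 hd2 hx (show (1 : Fin 3) ≠ 2 by decide)
    have habs : ∀ i, |x i| = 1 := by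
      intro i
      fin_cases i <;> simp <;> linarith
    have hle : ∀ i, q i * x i ≤ 1 := by
      intro i
      have := mul_le_abs_mul hd1 hd2 (q i) (x i)
      rwa [hq i, habs i, one_mul] at this
    rw [inner_E3] at h0
    simp only [PiLp.sub_apply] at h0
    have c0 := typeC_self hd1 hd2 hq 0
    have c1 := typeC_self hd1 hd2 hq 1
    have c2 := typeC_self hd1 hd2 hq 2
    have l0 := hle 0
    have l1 := hle 1
    have l2 := hle 2
    have heq : ∀ i, q i * x i = 1 := by
      intro i
      fin_cases i <;> simp <;> linarith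
    ext i
    have h5 : q i * (x i - q i) = 0 := by
      have := heq i; have := typeC_self hd1 hd2 hq i; linarith
    rcases mul_eq_zero.mp h5 with h | h
    · have := hq i; rw [h] at this; simp at this
    · linarith
  · rintro rfl
    exact ⟨typeC_mem hd1 hd2 hq, by simp⟩

lemma typeC_dim (hq : typeC q) : contactDim (bodyK d) q = 0 := by
  rw [contactDim, typeC_face hd1 hd2 hq, vectorSpan_singleton]
  simp

lemma typeC_nondeg (hq : typeC q) :
    q ∈ intrinsicInterior ℝ (contactFace (bodyK d) q) := by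
  rw [typeC_face hd1 hd2 hq, intrinsicInterior_singleton]
  rfl

lemma typeB_data (hq : typeB q) : ∃ i j k : Fin 3, i ≠ j ∧ i ≠ k ∧ j ≠ k ∧
    |q i| = 1 ∧ |q j| = 1 ∧ q k = 0 ∧ (∀ x : E3, ⟪q, x - q⟫ = (q i * x i + q j * x j) - 2) := by
  obtain ⟨k, hk, hj⟩ := hq
  obtain ⟨i, j, hij, hik, hjk⟩ : ∃ i j : Fin 3, i ≠ j ∧ i ≠ k ∧ j ≠ k := by
    clear hk hj; revert k; decide
  refine ⟨i, j, k, hij, hik, hjk, hj i hik, hj j hjk, hk, fun x => ?_⟩
  rw [inner_E3]
  have e := fin3_sum (fun l => q l * (x - q) l) i j k hij hik hjk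
  simp only at e
  rw [e, hk, zero_mul, add_zero]
  simp only [PiLp.sub_apply]
  have h1 : q i * q i = 1 := by rw [← abs_mul_abs_self, hj i hik, one_mul]
  have h2 : q j * q j = 1 := by rw [← abs_mul_abs_self, hj j hjk, one_mul]
  linarith

lemma typeB_mem (hq : typeB q) : q ∈ bodyK d := by
  apply cube_subset_bodyK hd1
  obtain ⟨i, j, k, hij, hik, hjk, hi, hj, hk, -⟩ := typeB_data hd1 hd2 hq
  intro l
  rcases fin3_cases i j k hij hik hjk l with rfl | rfl | rfl
  · exact hi.le
  · exact hj.le
  · rw [hk]; simp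

/-- The contact face at a point of type B. -/
lemma typeB_face (hq : typeB q) : ∃ k : Fin 3, ∀ x : E3, (x ∈ contactFace (bodyK d) q ↔
    (∀ l, l ≠ k → x l = q l) ∧ |x k| ≤ 1) ∧ q k = 0 := by
  obtain ⟨i, j, k, hij, hik, hjk, hi, hj, hk, hin⟩ := typeB_data hd1 hd2 hq
  refine ⟨k, fun x => ⟨?_, hk⟩⟩
  simp only [contactFace, mem_ofPred_eq]
  rw [centroid_bodyK, sub_zero, hin]
  have hi2 : q i * q i = 1 := by rw [← abs_mul_abs_self, hi, one_mul]
  have hj2 : q j * q j = 1 := by rw [← abs_mul_abs_self, hj, one_mul]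
  constructor
  · rintro ⟨hx, h0⟩
    have h1 := mul_le_abs_mul hd1 hd2 (q i) (x i)
    have h2 := mul_le_abs_mul hd1 hd2 (q j) (x j)
    rw [hi, one_mul] at h1
    rw [hj, one_mul] at h2
    have h3 := hx.2 i j hij
    have h4 := hx.2 j i hij.symm
    have h5 : |x i| = 1 := by linarith
    have h6 : |x j| = 1 := by linarith
    have h7 : q i * x i = 1 := by linarith
    have h8 : q j * x j = 1 := by linarith
    have h9 : x i = q i := by
      have : q i * (x i - q i) = 0 := by linarith
      rcases mul_eq_zero.mp this with h | h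
      · rw [h] at hi; simp at hi
      · linarith
    have h10 : x j = q j := by
      have : q j * (x j - q j) = 0 := by linarith
      rcases mul_eq_zero.mp this with h | h
      · rw [h] at hj; simp at hj
      · linarith
    refine ⟨fun l hl => ?_, ?_⟩
    · rcases fin3_cases i j k hij hik hjk l with rfl | rfl | rfl
      · exact h9
      · exact h10
      · exact absurd rfl hl
    · have := hx.2 i k hik
      rw [h5] at this
      linarith
  · rintro ⟨h1, h2⟩
    have h3 := h1 i hik
    have h4 := h1 j hjk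
    refine ⟨?_, ?_⟩
    · apply cube_subset_bodyK hd1
      intro l
      rcases fin3_cases i j k hij hik hjk l with rfl | rfl | rfl
      · rw [h3]; exact hi.le
      · rw [h4]; exact hj.le
      · exact h2
    · rw [h3, h4]; linarith

lemma typeB_dim (hq : typeB q) : contactDim (bodyK d) q = 1 := by
  obtain ⟨k, hk⟩ := typeB_face hd1 hd2 hq
  have hface := fun x => (hk x).1
  have hk0 := (hk 0).2
  have : vectorSpan ℝ (contactFace (bodyK d) q) = ℝ ∙ (EuclideanSpace.single k (1:ℝ) : E3) := by
    apply le_antisymm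
    · rw [vectorSpan_def, Submodule.span_le]
      rintro _ ⟨x, hx, y, hy, rfl⟩
      rw [hface] at hx hy
      rw [SetLike.mem_coe, Submodule.mem_span_singleton]
      refine ⟨x k - y k, ?_⟩
      ext l
      simp only [vsub_eq_sub, PiLp.sub_apply, PiLp.smul_apply, smul_eq_mul,
        PiLp.single_apply]
      split_ifs with h
      · subst h; ring
      · rw [hx.1 l h, hy.1 l h]; ring
    · rw [Submodule.span_singleton_le_iff_mem]
      have h1 : q + EuclideanSpace.single k (1:ℝ) ∈ contactFace (bodyK d) q := by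
        rw [hface]
        refine ⟨fun l hl => ?_, ?_⟩
        · simp [hl]
        · simp [hk0]
      have h2 : q ∈ contactFace (bodyK d) q := by
        rw [hface]
        exact ⟨fun _ _ => rfl, by rw [hk0]; simp⟩
      have := vsub_mem_vectorSpan ℝ h1 h2
      simpa using this
  rw [contactDim, this]
  exact finrank_span_singleton (by
    intro h
    have := congrArg (fun x : E3 => x k) h
    simp at this)

lemma typeB_nondeg (hq : typeB q) :
    q ∈ intrinsicInterior ℝ (contactFace (bodyK d) q) := by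
  obtain ⟨k, hk⟩ := typeB_face hd1 hd2 hq
  have hface := fun x => (hk x).1
  have hk0 := (hk 0).2
  have hqA : q ∈ contactFace (bodyK d) q := by
    rw [hface]
    exact ⟨fun _ _ => rfl, by rw [hk0]; simp⟩
  apply mem_intrinsicInterior_of hqA
  have hspan : affineSpan ℝ (contactFace (bodyK d) q) ≤
      AffineSubspace.mk' q (ℝ ∙ (EuclideanSpace.single k (1:ℝ) : E3)) := by
    rw [affineSpan_le]
    intro x hx
    rw [hface] at hx
    rw [SetLike.mem_coe, AffineSubspace.mem_mk', vsub_eq_sub, Submodule.mem_span_singleton]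
    refine ⟨x k - q k, ?_⟩
    ext l
    simp only [PiLp.sub_apply, PiLp.smul_apply, smul_eq_mul, PiLp.single_apply]
    split_ifs with h
    · subst h; ring
    · rw [hx.1 l h]; ring
  filter_upwards [ball_mem_nhds q (show (0:ℝ) < 1 by norm_num)] with x hx hxs
  have h1 := hspan hxs
  rw [AffineSubspace.mem_mk', vsub_eq_sub, Submodule.mem_span_singleton] at h1
  obtain ⟨c, hc⟩ := h1
  rw [hface]
  refine ⟨fun l hl => ?_, ?_⟩
  · have := congrArg (fun y : E3 => y l) hc
    simp only [PiLp.sub_apply, PiLp.smul_apply, smul_eq_mul, PiLp.single_apply,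
      hl, if_false, mul_zero] at this
    linarith
  · have := abs_sub_lt_of_ball hx k
    rw [hk0, sub_zero] at this
    exact this.le

end types

end Pool.Agent.Helper16.Rob
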