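import Pool.Agent.Helper16.RobBodyK3

open MeasureTheory Set Metric Filter
open scoped RealInnerProductSpace ENNReal ContDiff Topology

namespace Pool.Agent.Helper16.Rob

/-- The sign of a Boolean. -/
def sg (b : Bool) : ℝ := if b then 1 else -1

lemma abs_sg (b : Bool) : |sg b| = 1 := by
  cases b <;> simp [sg]

lemma sg_mul_self (b : Bool) : sg b * sg b = 1 := by
  cases b <;> simp [sg]

lemma sg_injective : Function.Injective sg := by
  intro a b h
  cases a <;> cases b <;> simp [sg] at h ⊢ <;> norm_num at h

lemma encard_range_fintype {ι : Type*} [Fintype ι] (q : ι → E3) (hq : Function.Injective q) :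
    (Set.range q).encard = (Fintype.card ι : ℕ∞) := by
  rw [← Set.image_univ, hq.encard_image, Set.encard_univ]
  simp

lemma typeA_encard {d : ℝ} (hd1 : 1 ≤ d) : {q : E3 | typeA d q}.encard = 6 := by
  let f : Fin 3 × Bool → E3 := fun p => EuclideanSpace.single p.1 (sg p.2 * d)
  have hinj : Function.Injective f := by
    rintro ⟨i, b⟩ ⟨j, c⟩ h
    have hsgd : ∀ b, sg b * d ≠ 0 := fun b => by
      have := abs_sg b
      intro h0
      rcases mul_eq_zero.mp h0 with h' | h'
      · rw [h'] at this; simp at this
      · linarith
    have hij : i = j := by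
      by_contra hne
      have := congrArg (fun x : E3 => x i) h
      simp only [f, PiLp.single_apply, if_true, if_neg hne] at this
      exact hsgd b this
    subst hij
    have := congrArg (fun x : E3 => x i) h
    simp only [f, PiLp.single_apply, if_true] at this
    have h2 : sg b = sg c := by
      have hd0 : d ≠ 0 := by linarith
      exact mul_right_cancel₀ hd0 this
    rw [sg_injective h2]
  have hrange : {q : E3 | typeA d q} = Set.range f := by
    ext q
    simp only [mem_ofPred_eq, mem_range]
    constructor
    · rintro ⟨i, hi, hj⟩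
      refine ⟨(i, decide (0 ≤ q i)), ?_⟩
      ext j
      simp only [f, PiLp.single_apply]
      split_ifs with h
      · subst h
        by_cases h0 : 0 ≤ q j
        · rw [abs_of_nonneg h0] at hi; rw [decide_eq_true h0]; simp [sg, hi]
        · rw [abs_of_neg (not_le.mp h0)] at hi; simp [sg, h0]; linarith
      · exact (hj j h).symm
    · rintro ⟨⟨i, b⟩, rfl⟩
      refine ⟨i, ?_, fun j hj => ?_⟩
      · simp only [f, PiLp.single_apply, if_true]
        rw [abs_mul, abs_sg, one_mul, abs_of_nonneg (by linarith)]
      · simp only [f, PiLp.single_apply, if_neg hj]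
  rw [hrange, encard_range_fintype f hinj]
  simp

lemma typeC_encard : {q : E3 | typeC q}.encard = 8 := by
  let f : (Fin 3 → Bool) → E3 := fun p => WithLp.toLp 2 (fun i => sg (p i))
  have hf : ∀ p i, f p i = sg (p i) := fun p i => rfl
  have hinj : Function.Injective f := by
    intro p p' h
    ext i
    have := congrArg (fun x : E3 => x i) h
    simp only [hf] at this
    rw [sg_injective this]
  have hrange : {q : E3 | typeC q} = Set.range f := by
    ext q
    simp only [mem_ofPred_eq, mem_range]
    constructor
    · intro hq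
      refine ⟨fun i => decide (0 ≤ q i), ?_⟩
      ext i
      rw [hf]
      have hi := hq i
      by_cases h0 : 0 ≤ q i
      · rw [abs_of_nonneg h0] at hi; simp [sg, hi]
      · rw [abs_of_neg (not_le.mp h0)] at hi; simp [sg, h0]; linarith
    · rintro ⟨p, rfl⟩ i
      rw [hf, abs_sg]
  rw [hrange, encard_range_fintype f hinj]
  simp

theorem inClass_bodyK {d : ℝ} (hd1 : 1 ≤ d) (hd2 : d ≤ 23 / 20) : InClass 6 8 (bodyK d) := by
  refine ⟨isConvexBody_bodyK hd1, Or.inl ⟨isPolytope_bodyK d, ?_, ?_, ?_⟩⟩
  · intro q hq
    rcases classify hd1 hd2 hq with h | h | h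
    · exact typeA_nondeg hd1 hd2 h
    · exact typeB_nondeg hd1 hd2 h
    · exact typeC_nondeg hd1 hd2 h
  · have : {q | IsEquilibrium (bodyK d) q ∧ contactDim (bodyK d) q = 2}
        = {q : E3 | typeA d q} := by
      ext q
      simp only [mem_ofPred_eq]
      constructor
      · rintro ⟨h1, h2⟩
        rcases classify hd1 hd2 h1 with h | h | h
        · exact h
        · rw [typeB_dim hd1 hd2 h] at h2; omega
        · rw [typeC_dim hd1 hd2 h] at h2; omega
      · intro h
        exact ⟨typeA_equilibrium hd1 hd2 h, typeA_dim hd1 hd2 h⟩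
    rw [this, typeA_encard hd1]; rfl
  · have : {q | IsEquilibrium (bodyK d) q ∧ contactDim (bodyK d) q = 0}
        = {q : E3 | typeC q} := by
      ext q
      simp only [mem_ofPred_eq]
      constructor
      · rintro ⟨h1, h2⟩
        rcases classify hd1 hd2 h1 with h | h | h
        · rw [typeA_dim hd1 hd2 h] at h2; omega
        · rw [typeB_dim hd1 hd2 h] at h2; omega
        · exact h
      · intro h
        exact ⟨typeC_equilibrium hd1 hd2 h, typeC_dim hd1 hd2 h⟩
    rw [this, typeC_encard]; rfl

end Pool.Agent.Helper16.Rob
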