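import Pool.Agent.Helper16.RobLocal

open MeasureTheory Set Metric Filter
open scoped RealInnerProductSpace ENNReal ContDiff Topology

namespace Pool.Agent.Helper16.Rob

lemma eventually_mem_dir {K : Set E3} {q G : E3}
    (hmin : ∀ᶠ x in 𝓝 q, ‖x - G‖ < ‖q - G‖ → x ∈ K) {v : E3} (hv : ⟪q - G, v⟫ < 0) :
    ∀ᶠ t : ℝ in 𝓝[>] 0, q + t • v ∈ K := by
  have h1 : Tendsto (fun t : ℝ => q + t • v) (𝓝[>] 0) (𝓝 q) := by
    have : Tendsto (fun t : ℝ => q + t • v) (𝓝 0) (𝓝 (q + (0:ℝ) • v)) :=
      (Continuous.tendsto (by fun_prop) 0)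
    simp only [zero_smul, add_zero] at this
    exact this.mono_left nhdsWithin_le_nhds
  have h2 := eventually_sign_path (-(‖v‖ ^ 2)) 0 (show 0 < -(2 * ⟪q - G, v⟫) by linarith)
  filter_upwards [h1.eventually hmin, h2, self_mem_nhdsWithin] with t ht1 ht2 ht0
  have ht0' : (0:ℝ) < t := ht0
  apply ht1
  apply lt_of_pow_lt_pow_left₀ 2 (norm_nonneg _)
  have h3 : q + t • v - G = (q - G) + t • v := by abel
  rw [h3, norm_add_sq_real, inner_smul_right, norm_smul, mul_pow, Real.norm_eq_abs, sq_abs]
  have h4 : 0 < t * (-(2 * ⟪q - G, v⟫) + t * (-(‖v‖ ^ 2)) + t ^ 2 * 0) := by positivity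
  nlinarith

lemma isEquilibrium_of_localMin {K : Set E3} (hK : IsConvexBody K) {q : E3}
    (hqG : q ≠ centroid K) (hq : q ∈ frontier K)
    (hmin : ∀ᶠ x in 𝓝 q, ‖x - centroid K‖ < ‖q - centroid K‖ → x ∈ K) :
    IsEquilibrium K q := by
  refine ⟨hq, ?_⟩
  obtain ⟨a, ha0, ha⟩ := exists_support hK.1 hK.2.2 hq.2
  have hn : q - centroid K ≠ 0 := sub_ne_zero.mpr hqG
  obtain ⟨μ, hμ, hμa⟩ := parallel_of_halfspace hn (a := a) (by
    intro v hv
    obtain ⟨t, ht, ht0⟩ := ((eventually_mem_dir hmin hv).and self_mem_nhdsWithin).exists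
    have ht0' : (0:ℝ) < t := ht0
    have := ha _ ht
    rw [inner_add_right, inner_smul_right] at this
    by_contra hcon
    push Not at hcon
    have := mul_pos ht0' hcon
    linarith)
  have hμpos : 0 < μ := by
    rcases eq_or_lt_of_le hμ with h | h
    · exfalso; apply ha0; rw [hμa, ← h, zero_smul]
    · exact h
  intro x hx
  have h1 := ha x hx
  rw [hμa, inner_smul_left, inner_smul_left] at h1
  simp only [conj_trivial] at h1
  have h2 := le_of_mul_le_mul_left h1 hμpos
  rw [inner_sub_right]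
  linarith

lemma isEquilibrium_of_localMax {K : Set E3} (hK : IsConvexBody K) {q : E3} (hq : q ∈ K)
    (hmax : ∀ᶠ x in 𝓝[K] q, ‖x - centroid K‖ ≤ ‖q - centroid K‖) :
    IsEquilibrium K q := by
  refine ⟨⟨subset_closure hq, notMem_interior_of_localMax hK.1 hq hmax⟩, ?_⟩
  intro x hx
  rcases eq_or_ne x q with h | h
  · rw [h]; simp
  · exact (support_of_localMax hK.1 hq hmax hx h).le

lemma contactFace_of_localMax {K : Set E3} (hK : IsConvexBody K) {q : E3} (hq : q ∈ K)
    (hmax : ∀ᶠ x in 𝓝[K] q, ‖x - centroid K‖ ≤ ‖q - centroid K‖) :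
    contactFace K q = {q} := by
  ext x
  simp only [contactFace, mem_ofPred_eq, mem_singleton_iff]
  constructor
  · rintro ⟨hx, h0⟩
    by_contra hne
    exact (support_of_localMax hK.1 hq hmax hx hne).ne h0
  · rintro rfl
    exact ⟨hq, by simp⟩

lemma contactDim_of_localMax {K : Set E3} (hK : IsConvexBody K) {q : E3} (hq : q ∈ K)
    (hmax : ∀ᶠ x in 𝓝[K] q, ‖x - centroid K‖ ≤ ‖q - centroid K‖) :
    contactDim K q = 0 := by
  rw [contactDim, contactFace_of_localMax hK hq hmax, vectorSpan_singleton]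
  simp

lemma polytope_plane_of_localMin {K : Set E3} (hP : IsPolytope K) {q G : E3}
    (hqG : q ≠ G) (hq : q ∈ K)
    (hmin : ∀ᶠ x in 𝓝 q, ‖x - G‖ < ‖q - G‖ → x ∈ K) :
    ∀ᶠ x in 𝓝 q, ⟪q - G, x - q⟫ = 0 → x ∈ K := by
  obtain ⟨s, hs, hKs⟩ := hP
  have key : ∀ p ∈ s, ∀ᶠ x in 𝓝 q, ⟪q - G, x - q⟫ = 0 → ⟪p.1, x⟫ ≤ p.2 := by
    intro p hp
    have hqp : ⟪p.1, q⟫ ≤ p.2 := by
      rw [hKs] at hq; exact hq p hp
    rcases eq_or_lt_of_le hqp with h | h
    · have hn : q - G ≠ 0 := sub_ne_zero.mpr hqG
      obtain ⟨μ, hμ, hμa⟩ := parallel_of_halfspace hn (a := p.1) (by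
        intro v hv
        obtain ⟨t, ht, ht0⟩ := ((eventually_mem_dir hmin hv).and self_mem_nhdsWithin).exists
        have ht0' : (0:ℝ) < t := ht0
        rw [hKs] at ht
        have := ht p hp
        rw [inner_add_right, inner_smul_right, h] at this
        by_contra hcon
        push Not at hcon
        have := mul_pos ht0' hcon
        linarith)
      refine Eventually.of_forall fun x hx => ?_
      have h1 : ⟪p.1, x - q⟫ = 0 := by
        rw [hμa, inner_smul_left, hx, mul_zero]
      rw [inner_sub_right] at h1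
      linarith
    · have hc : ContinuousAt (fun x : E3 => ⟪p.1, x⟫) q :=
        (by fun_prop : Continuous (fun x : E3 => ⟪p.1, x⟫)).continuousAt
      filter_upwards [hc.eventually (gt_mem_nhds h)] with x hx _ using hx.le
  have := (eventually_all_finite hs).mpr key
  filter_upwards [this] with x hx h0
  rw [hKs]
  intro p hp
  exact hx p hp h0

lemma finrank_orth {n : E3} (hn : n ≠ 0) : Module.finrank ℝ (ℝ ∙ n)ᗮ = 2 := by
  have : Fact (Module.finrank ℝ E3 = 2 + 1) := ⟨by simp⟩
  exact Submodule.finrank_orthogonal_span_singleton hn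

lemma contactDim_of_plane {K : Set E3} {q : E3} (hqG : q ≠ centroid K) (hq : q ∈ K)
    (h : ∀ᶠ x in 𝓝 q, ⟪q - centroid K, x - q⟫ = 0 → x ∈ K) :
    contactDim K q = 2 := by
  have hn : q - centroid K ≠ 0 := sub_ne_zero.mpr hqG
  have : vectorSpan ℝ (contactFace K q) = (ℝ ∙ (q - centroid K))ᗮ := by
    apply le_antisymm
    · rw [vectorSpan_def, Submodule.span_le]
      rintro _ ⟨x, hx, y, hy, rfl⟩
      rw [SetLike.mem_coe, Submodule.mem_orthogonal_singleton_iff_inner_right]
      have h1 := hx.2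
      have h2 := hy.2
      simp only [vsub_eq_sub]
      rw [inner_sub_right] at h1 h2 ⊢
      linarith
    · intro v hv
      rw [Submodule.mem_orthogonal_singleton_iff_inner_right] at hv
      have h1 : Tendsto (fun t : ℝ => q + t • v) (𝓝[>] 0) (𝓝 q) := by
        have : Tendsto (fun t : ℝ => q + t • v) (𝓝 0) (𝓝 (q + (0:ℝ) • v)) :=
          (Continuous.tendsto (by fun_prop) 0)
        simp only [zero_smul, add_zero] at this
        exact this.mono_left nhdsWithin_le_nhds
      obtain ⟨t, ht, ht0⟩ := ((h1.eventually h).and self_mem_nhdsWithin).exists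
      have ht0' : (0:ℝ) < t := ht0
      have h2 : ⟪q - centroid K, q + t • v - q⟫ = 0 := by
        rw [add_sub_cancel_left, inner_smul_right, hv, mul_zero]
      have h3 : q + t • v ∈ contactFace K q := ⟨ht h2, h2⟩
      have h4 : q ∈ contactFace K q := ⟨hq, by simp⟩
      have h5 := vsub_mem_vectorSpan ℝ h3 h4
      simp only [vsub_eq_sub, add_sub_cancel_left] at h5
      have := (vectorSpan ℝ (contactFace K q)).smul_mem t⁻¹ h5
      rwa [smul_smul, inv_mul_cancel₀ ht0'.ne', one_smul] at this
  rw [contactDim, this, finrank_orth hn]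

lemma hess_add {K : Set E3} {f : E3 → ℝ} {q : E3} (u v w : E3) :
    hess K f q u (v + w) = hess K f q u v + hess K f q u w := by
  simp only [hess, inner_add_right, map_add]; ring

lemma hess_smul {K : Set E3} {f : E3 → ℝ} {q : E3} (c : ℝ) (u v : E3) :
    hess K f q u (c • v) = c * hess K f q u v := by
  simp only [hess, inner_smul_right, map_smul, smul_eq_mul]; ring

lemma hess_symm {K : Set E3} {f : E3 → ℝ} (hf : ContDiff ℝ ∞ f) {q : E3} (u v : E3) :
    hess K f q u v = hess K f q v u := by
  have h1 : IsSymmSndFDerivAt ℝ f q := by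
    apply ContDiffAt.isSymmSndFDerivAt (n := ∞) hf.contDiffAt
    simp only [minSmoothness_of_isRCLikeNormedField]
    have h2 : ((2 : ℕ∞) : ℕ∞ω) ≤ ((⊤ : ℕ∞) : ℕ∞ω) := WithTop.coe_le_coe.mpr le_top
    exact h2
  have h2 := h1 u v
  simp only [hess]
  rw [h2, real_inner_comm]

lemma card_le_of_injective_mem {ι : Type*} [Fintype ι] {A : Set E3} {m : ℕ}
    (hA : A.encard = m) (q : ι → E3) (hinj : Function.Injective q) (hq : ∀ i, q i ∈ A) :
    Fintype.card ι ≤ m := by
  have h1 : (Set.range q).encard ≤ A.encard := Set.encard_le_encard (by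
    rintro _ ⟨i, rfl⟩; exact hq i)
  have h2 : (Set.range q).encard = (Fintype.card ι : ℕ∞) := by
    rw [← Set.image_univ, hinj.encard_image, Set.encard_univ]
    simp
  rw [h2, hA] at h1
  exact_mod_cast h1

lemma InClass.unstable_count {S U : ℕ} {K : Set E3} (h : InClass S U K)
    (hG : centroid K ∈ interior K) {ι : Type*} [Fintype ι] (q : ι → E3)
    (hinj : Function.Injective q) (hq : ∀ i, q i ∈ K)
    (hmax : ∀ i, ∀ᶠ x in 𝓝[K] (q i), ‖x - centroid K‖ ≤ ‖q i - centroid K‖) :
    Fintype.card ι ≤ U := by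
  obtain ⟨hbody, h | ⟨f, hf, hnd, -, hU⟩⟩ := h
  · apply card_le_of_injective_mem h.2.2.2 q hinj
    intro i
    exact ⟨isEquilibrium_of_localMax hbody (hq i) (hmax i),
      contactDim_of_localMax hbody (hq i) (hmax i)⟩
  · apply card_le_of_injective_mem hU q hinj
    intro i
    have heq := isEquilibrium_of_localMax hbody (hq i) (hmax i)
    refine ⟨heq, ?_⟩
    have hqG : q i ≠ centroid K := by
      intro h'; exact heq.1.2 (h' ▸ hG)
    have hf0 := hf.eq_zero_of_mem_frontier heq.1
    intro u hu hu0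
    have := definite_of_semidefinite (fun u v => -hess K f (q i) u v)
      (ℝ ∙ (q i - centroid K))ᗮ (fun u v w => by rw [hess_add]; ring)
      (fun c u v => by rw [hess_smul]; ring) (fun u v => by rw [hess_symm hf.1])
      (fun u hu => by
        rw [Submodule.mem_orthogonal_singleton_iff_inner_right] at hu
        have := hess_nonpos_of_localMax hf hqG hf0 heq.2 (hmax i) hu
        have h' : hess K f (q i) u u ≤ 0 := this
        linarith)
      (fun u hu h' => by
        rw [Submodule.mem_orthogonal_singleton_iff_inner_right] at hu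
        apply hnd (q i) heq u hu
        intro v hv
        have := h' v (by rw [Submodule.mem_orthogonal_singleton_iff_inner_right]; exact hv)
        linarith)
      (u := u) (by rw [Submodule.mem_orthogonal_singleton_iff_inner_right]; exact hu) hu0
    linarith

lemma InClass.stable_count {S U : ℕ} {K : Set E3} (h : InClass S U K)
    (hG : centroid K ∈ interior K) {ι : Type*} [Fintype ι] (q : ι → E3)
    (hinj : Function.Injective q) (hq : ∀ i, q i ∈ frontier K)
    (hmin : ∀ i, ∀ᶠ x in 𝓝 (q i), ‖x - centroid K‖ < ‖q i - centroid K‖ → x ∈ K) :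
    Fintype.card ι ≤ S := by
  obtain ⟨hbody, h | ⟨f, hf, hnd, hS, -⟩⟩ := h
  · apply card_le_of_injective_mem h.2.2.1 q hinj
    intro i
    have hqG : q i ≠ centroid K := by
      intro h'; exact (hq i).2 (h' ▸ hG)
    have hqK : q i ∈ K := hbody.2.1.isClosed.frontier_subset (hq i)
    exact ⟨isEquilibrium_of_localMin hbody hqG (hq i) (hmin i),
      contactDim_of_plane hqG hqK (polytope_plane_of_localMin h.1 hqG hqK (hmin i))⟩
  · apply card_le_of_injective_mem hS q hinj
    intro i
    have hqG : q i ≠ centroid K := by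
      intro h'; exact (hq i).2 (h' ▸ hG)
    have heq := isEquilibrium_of_localMin hbody hqG (hq i) (hmin i)
    refine ⟨heq, ?_⟩
    have hf0 := hf.eq_zero_of_mem_frontier heq.1
    intro u hu hu0
    exact definite_of_semidefinite (fun u v => hess K f (q i) u v)
      (ℝ ∙ (q i - centroid K))ᗮ (fun u v w => by rw [hess_add])
      (fun c u v => by rw [hess_smul]) (fun u v => by rw [hess_symm hf.1])
      (fun u hu => by
        rw [Submodule.mem_orthogonal_singleton_iff_inner_right] at hu
        exact hess_nonneg_of_localMin hf hqG hf0 heq.2 (hmin i) hu)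
      (fun u hu h' => by
        rw [Submodule.mem_orthogonal_singleton_iff_inner_right] at hu
        apply hnd (q i) heq u hu
        intro v hv
        exact h' v (by rw [Submodule.mem_orthogonal_singleton_iff_inner_right]; exact hv))
      (u := u) (by rw [Submodule.mem_orthogonal_singleton_iff_inner_right]; exact hu) hu0

end Pool.Agent.Helper16.Rob
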