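import Mathlib

open MeasureTheory Set Metric Filter
open scoped RealInnerProductSpace ENNReal ContDiff Topology

namespace Pool.Agent.Helper16.Rob

/-- Euclidean 3-space. -/
abbrev E3 := EuclideanSpace ℝ (Fin 3)

/-- The centre of gravity of the homogeneous body `K`. -/
noncomputable def centroid (K : Set E3) : E3 :=
  (volume K).toReal⁻¹ • ∫ x in K, x

/-- Convex bodies: compact convex sets with nonempty interior. -/
def IsConvexBody (K : Set E3) : Prop :=
  Convex ℝ K ∧ IsCompact K ∧ (interior K).Nonempty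

/-- `q` is an equilibrium point of `K`: it is a boundary point and the plane through `q`
orthogonal to `q - G` supports `K`. -/
def IsEquilibrium (K : Set E3) (q : E3) : Prop :=
  q ∈ frontier K ∧ ∀ x ∈ K, ⟪q - centroid K, x - q⟫ ≤ 0

/-- Intersections of finitely many closed half-spaces (for convex bodies: convex polytopes). -/
def IsPolytope (K : Set E3) : Prop :=
  ∃ s : Set (E3 × ℝ), s.Finite ∧ K = {x | ∀ p ∈ s, ⟪p.1, x⟫ ≤ p.2}

/-- The face in which the plane through `q` orthogonal to `q - G` meets `K`. -/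
def contactFace (K : Set E3) (q : E3) : Set E3 :=
  {x ∈ K | ⟪q - centroid K, x - q⟫ = 0}

/-- The dimension of the contact face. -/
noncomputable def contactDim (K : Set E3) (q : E3) : ℕ :=
  Module.finrank ℝ (vectorSpan ℝ (contactFace K q))

/-- `f` is a smooth defining function of `K`: `K` is the regular sublevel set `f ≤ 0` of the
`C^∞` function `f`. -/
def IsSmoothDefining (K : Set E3) (f : E3 → ℝ) : Prop :=
  ContDiff ℝ ∞ f ∧ K = {x | f x ≤ 0} ∧ ∀ x, f x = 0 → fderiv ℝ f x ≠ 0

/-- The Hessian at the critical point `q` of `z ↦ |z - G|^2 / 2` on the surface `f = 0`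
(to be evaluated at tangent vectors `u, v`), by the Lagrange multiplier formula. -/
noncomputable def hess (K : Set E3) (f : E3 → ℝ) (q u v : E3) : ℝ :=
  ⟪u, v⟫ - ‖q - centroid K‖ / ‖fderiv ℝ f q‖ * fderiv ℝ (fderiv ℝ f) q u v

/-- The equilibrium class `{S, U}`: bodies that are polytopes or have `C^∞` boundary, with
nondegenerate equilibria, `S` stable and `U` unstable ones. -/
def InClass (S U : ℕ) (K : Set E3) : Prop :=
  IsConvexBody K ∧
  ((IsPolytope K ∧
      (∀ q, IsEquilibrium K q → q ∈ intrinsicInterior ℝ (contactFace K q)) ∧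
      {q | IsEquilibrium K q ∧ contactDim K q = 2}.encard = S ∧
      {q | IsEquilibrium K q ∧ contactDim K q = 0}.encard = U) ∨
   (∃ f : E3 → ℝ, IsSmoothDefining K f ∧
      (∀ q, IsEquilibrium K q → ∀ u, ⟪q - centroid K, u⟫ = 0 →
          (∀ v, ⟪q - centroid K, v⟫ = 0 → hess K f q u v = 0) → u = 0) ∧
      {q | IsEquilibrium K q ∧
        ∀ u, ⟪q - centroid K, u⟫ = 0 → u ≠ 0 → 0 < hess K f q u u}.encard = S ∧
      {q | IsEquilibrium K q ∧
        ∀ u, ⟪q - centroid K, u⟫ = 0 → u ≠ 0 → hess K f q u u < 0}.encard = U))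

/-- The number `N = S + H + U = 2 (S + U) - 2` of equilibria of a body of class `{S, U}`. -/
def numEq (S U : ℕ) : ℕ := 2 * (S + U) - 2

/-- The downward full robustness of a body `K`: the infimum of the relative volumes
`vol (K \ K') / vol K` over the bodies `K' ⊆ K` with fewer equilibria than `K`. -/
noncomputable def robustness (K : Set E3) : ℝ :=
  sInf {r | ∃ (S U S' U' : ℕ) (K' : Set E3), InClass S U K ∧ InClass S' U' K' ∧ K' ⊆ K ∧
    numEq S' U' < numEq S U ∧ r = (volume (K \ K')).toReal / (volume K).toReal}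

/-- The cube `[-1, 1]^3`. -/
def cube : Set E3 := {x | ∀ i, |x i| ≤ 1}

end Pool.Agent.Helper16.Rob
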