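import Pool.Agent.Helper16.RobLower

open MeasureTheory Set Metric Filter
open scoped RealInnerProductSpace ENNReal ContDiff Topology

set_option linter.unusedVariables false

namespace Pool.Agent.Helper16.Rob

lemma norm_sq_E3 (x : E3) : ‖x‖ ^ 2 = x 0 ^ 2 + x 1 ^ 2 + x 2 ^ 2 := by
  rw [← real_inner_self_eq_norm_sq, inner_E3]; ring

section lower

variable {K' : Set E3} (hbody : IsConvexBody K') (hsub : K' ⊆ bodyK (23 / 20))
  (hvol : (volume (bodyK (23 / 20) \ K')).toReal ≤ 1 / 200 * (volume (bodyK (23 / 20))).toReal)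

include hbody hsub hvol

lemma lower_vol : volume (bodyK (23 / 20) \ K') ≤ ENNReal.ofReal (12167 / 200000) := by
  have h1 : volume (bodyK (23 / 20) \ K') ≠ ⊤ :=
    (lt_of_le_of_lt (measure_mono sdiff_subset) (isCompact_bodyK _).measure_lt_top).ne
  rw [← ENNReal.ofReal_toReal h1]
  apply ENNReal.ofReal_le_ofReal
  have h2 : (volume (bodyK (23 / 20))).toReal ≤ 12167 / 1000 := by
    have := ENNReal.toReal_mono ENNReal.ofReal_ne_top volume_bodyK_le
    rwa [ENNReal.toReal_ofReal (by norm_num)] at this
  linarith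

lemma lower_centroid (i : Fin 3) : |centroid K' i| ≤ 29 / 5000 := by
  set V := (volume (bodyK (23 / 20))).toReal with hV
  have hVpos : 0 < V := volume_bodyK_pos
  have hK1fin : volume (bodyK (23 / 20)) ≠ ⊤ := (isCompact_bodyK _).measure_lt_top.ne
  have hK'm : MeasurableSet K' := hbody.2.1.measurableSet
  have h1 : volume (bodyK (23 / 20)) = volume K' + volume (bodyK (23 / 20) \ K') := by
    rw [← measure_inter_add_sdiff (bodyK (23 / 20)) hK'm,
      inter_eq_self_of_subset_right hsub]
  have hfin1 : volume K' ≠ ⊤ := hbody.2.1.measure_lt_top.ne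
  have hfin2 : volume (bodyK (23 / 20) \ K') ≠ ⊤ :=
    (lt_of_le_of_lt (measure_mono sdiff_subset) (isCompact_bodyK _).measure_lt_top).ne
  have h2 : V = (volume K').toReal + (volume (bodyK (23 / 20) \ K')).toReal := by
    rw [hV, h1, ENNReal.toReal_add hfin1 hfin2]
  have h0 : ∫ x in bodyK (23 / 20), x = 0 := by
    apply integral_symm_zero
    intro x
    simp [bodyK]
  have := centroid_bound (isCompact_bodyK _) hbody.2.1 hsub (d := 23 / 20)
    (v := 1 / 200 * V) (V := 199 / 200 * V) (fun x hx => hx.1) h0 hvol (by positivity)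
    (by linarith) (by norm_num) i
  refine this.trans ?_
  have : 23 / 20 * (1 / 200 * V) / (199 / 200 * V) = 23 / 20 / 199 := by
    field_simp
  rw [this]; norm_num

lemma lower_interior {p : E3} {t : ℝ} (ht : ∀ i, |p i| < 1)
    (h : 61 / 1000 < 4 * ((1 - |p 0|) * (1 - |p 1|) * (1 - |p 2|))) : p ∈ interior K' := by
  apply depth hbody (cube_subset_bodyK (show (1:ℝ) ≤ 23 / 20 by norm_num)) ht
  refine lt_of_le_of_lt (lower_vol hbody hsub hvol) ?_
  rw [ENNReal.ofReal_lt_ofReal_iff (by linarith)]
  linarith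

lemma lower_centroid_interior : centroid K' ∈ interior K' := by
  have h := lower_centroid hbody hsub hvol
  apply lower_interior (t := 0) hbody hsub hvol
  · intro i; have := h i; linarith
  · have h0 := h 0
    have h1 := h 1
    have h2 := h 2
    have e0 : (99 / 100 : ℝ) ≤ 1 - |centroid K' 0| := by linarith
    have e1 : (99 / 100 : ℝ) ≤ 1 - |centroid K' 1| := by linarith
    have e2 : (99 / 100 : ℝ) ≤ 1 - |centroid K' 2| := by linarith
    have e3 : (99 / 100 : ℝ) * (99 / 100) ≤ (1 - |centroid K' 0|) * (1 - |centroid K' 1|) :=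
      mul_le_mul e0 e1 (by norm_num) (by linarith)
    have e4 : (99 / 100 : ℝ) * (99 / 100) * (99 / 100) ≤
        (1 - |centroid K' 0|) * (1 - |centroid K' 1|) * (1 - |centroid K' 2|) :=
      mul_le_mul e3 e2 (by norm_num) (by nlinarith)
    linarith

/-- The local maximum in an octant. -/
lemma exists_max (σ : Fin 3 → Bool) : ∃ q ∈ K', (∀ i, 0 < sg (σ i) * q i) ∧
    ∀ᶠ x in 𝓝[K'] q, ‖x - centroid K'‖ ≤ ‖q - centroid K'‖ := by
  set g := centroid K' with hg
  have hgb := lower_centroid hbody hsub hvol
  rw [← hg] at hgb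
  -- a point of `K'` in the corner region
  obtain ⟨x, hxK', hx⟩ : ∃ x ∈ K', x ∈ cornerSet σ := by
    by_contra hcon
    push Not at hcon
    have : cornerSet σ ⊆ bodyK (23 / 20) \ K' := fun x hx => ⟨hx.1, fun h => hcon x h hx⟩
    have h1 := (volume_cornerSet σ).trans ((measure_mono this).trans
      (lower_vol hbody hsub hvol))
    rw [ENNReal.ofReal_le_ofReal_iff (by norm_num)] at h1
    norm_num at h1
  set M : Set E3 := K' ∩ {y | ∀ i, 0 ≤ sg (σ i) * y i} with hM
  have hMc : IsCompact M := by
    apply hbody.2.1.inter_right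
    have : {y : E3 | ∀ i, 0 ≤ sg (σ i) * y i} = ⋂ i, {y : E3 | 0 ≤ sg (σ i) * y i} := by
      ext y; simp
    rw [this]
    exact isClosed_iInter fun i => isClosed_le continuous_const (by fun_prop)
  have habs : ∀ (b : Bool) (t : ℝ), sg b * t ≤ |t| := by
    intro b t
    calc sg b * t ≤ |sg b * t| := le_abs_self _
      _ = |t| := by rw [abs_mul, abs_sg, one_mul]
  have habs2 : ∀ (b : Bool) (t : ℝ), |sg b * t| = |t| := by
    intro b t
    rw [abs_mul, abs_sg, one_mul]
  have hxM : x ∈ M := by
    refine ⟨hxK', ?_⟩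
    have h1 := hx.2
    have p01 := hx.1.2 0 1 (by decide)
    have p10 := hx.1.2 1 0 (by decide)
    have p02 := hx.1.2 0 2 (by decide)
    have p20 := hx.1.2 2 0 (by decide)
    have p12 := hx.1.2 1 2 (by decide)
    have p21 := hx.1.2 2 1 (by decide)
    have a0 := habs (σ 0) (x 0)
    have a1 := habs (σ 1) (x 1)
    have a2 := habs (σ 2) (x 2)
    intro i
    fin_cases i <;> simp only [Fin.zero_eta, Fin.mk_one, Fin.reduceFinMk] <;> linarith
  obtain ⟨q, hqM, hqmax⟩ := hMc.exists_isMaxOn ⟨x, hxM⟩
    (f := fun y => ‖y - g‖) (by fun_prop)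
  have hxq : ‖x - g‖ ≤ ‖q - g‖ := hqmax hxM
  have hqpos : ∀ i, 0 < sg (σ i) * q i := by
    intro i
    rcases eq_or_lt_of_le (hqM.2 i) with h | h
    · exfalso
      -- then `q` is on the barrier
      have hqi : q i = 0 := by
        rcases mul_eq_zero.mp h.symm with h' | h'
        · have := abs_sg (σ i); rw [h'] at this; simp at this
        · exact h'
      obtain ⟨j, k, hij, hik, hjk⟩ : ∃ j k : Fin 3, i ≠ j ∧ i ≠ k ∧ j ≠ k := by
        clear * -; revert i; decide
      have hqK := hsub hqM.1
      have hsq : ‖q - g‖ ^ 2 < ‖x - g‖ ^ 2 := by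
        rw [norm_sq_E3, norm_sq_E3]
        have e1 := fin3_sum (fun l => (q - g) l ^ 2) j k i hjk hij.symm hik.symm
        have e2 := fin3_sum (fun l => (x - g) l ^ 2) j k i hjk hij.symm hik.symm
        have e3 := fin3_sum (fun l => sg (σ l) * x l) j k i hjk hij.symm hik.symm
        simp only at e1 e2 e3
        rw [e1, e2]
        have hx2 := hx.2
        rw [e3] at hx2
        have c1 := hqK.2 j k hjk
        have c2 := hqK.2 k j hjk.symm
        have d1 := hqK.1 j
        have d2 := hqK.1 k
        rw [← habs2 (σ j) (q j), ← habs2 (σ k) (q k), abs_of_nonneg (hqM.2 j),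
          abs_of_nonneg (hqM.2 k)] at c1 c2
        rw [← habs2 (σ j) (q j), abs_of_nonneg (hqM.2 j)] at d1
        rw [← habs2 (σ k) (q k), abs_of_nonneg (hqM.2 k)] at d2
        have gj : |sg (σ j) * g j| ≤ 29 / 5000 := by rw [habs2]; exact hgb j
        have gk : |sg (σ k) * g k| ≤ 29 / 5000 := by rw [habs2]; exact hgb k
        have gi : |sg (σ i) * g i| ≤ 29 / 5000 := by rw [habs2]; exact hgb i
        have main := corner_real hx2 (hqM.2 j) (hqM.2 k) d1 d2 c1 c2 gj gk gi
        have hsq : ∀ (b : Bool) (s t : ℝ), (sg b * s - sg b * t) ^ 2 = (s - t) ^ 2 := by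
          intro b s t
          have : sg b * s - sg b * t = sg b * (s - t) := by ring
          rw [this, mul_pow]
          have : sg b ^ 2 = 1 := by rw [pow_two]; exact sg_mul_self b
          rw [this, one_mul]
        have h0 : (0 - sg (σ i) * g i) ^ 2 = (q i - g i) ^ 2 := by
          rw [← hsq (σ i) (q i) (g i), hqi, mul_zero]
        rw [h0, hsq, hsq, hsq, hsq, hsq] at main
        simpa only [PiLp.sub_apply] using main
      have := pow_le_pow_left₀ (norm_nonneg _) hxq 2
      linarith
    · exact h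
  refine ⟨q, hqM.1, hqpos, ?_⟩
  have hopen : IsOpen {y : E3 | ∀ i, 0 < sg (σ i) * y i} := by
    have : {y : E3 | ∀ i, 0 < sg (σ i) * y i} = ⋂ i, {y : E3 | 0 < sg (σ i) * y i} := by
      ext y; simp
    rw [this]
    exact isOpen_iInter_of_finite fun i => isOpen_lt continuous_const (by fun_prop)
  have h1 : ∀ᶠ y in 𝓝[K'] q, ∀ i, 0 < sg (σ i) * y i :=
    (hopen.eventually_mem hqpos).filter_mono nhdsWithin_le_nhds
  filter_upwards [h1, self_mem_nhdsWithin] with y hy hyK'
  exact hqmax ⟨hyK', fun i => (hy i).le⟩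

/-- The local minimum of the distance on the boundary in a face direction. -/
lemma exists_min (i : Fin 3) (b : Bool) : ∃ q ∈ frontier K',
    (∀ j, j ≠ i → |q j - centroid K' j| < sg b * (q i - centroid K' i)) ∧
    ∀ᶠ x in 𝓝 q, ‖x - centroid K'‖ < ‖q - centroid K'‖ → x ∈ K' := by
  set g := centroid K' with hg
  have hgb := lower_centroid hbody hsub hvol
  have hgint := lower_centroid_interior hbody hsub hvol
  rw [← hg] at hgb hgint
  have hK'cl : IsClosed K' := hbody.2.1.isClosed
  set F : Set E3 := frontier K' ∩ {y | ∀ j, j ≠ i → |y j - g j| ≤ sg b * (y i - g i)} with hF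
  have hFc : IsCompact F := by
    have h1 : IsCompact (frontier K') :=
      hbody.2.1.of_isClosed_subset isClosed_frontier hK'cl.frontier_subset
    apply h1.inter_right
    have : {y : E3 | ∀ j, j ≠ i → |y j - g j| ≤ sg b * (y i - g i)}
        = ⋂ j, ⋂ (_ : j ≠ i), {y : E3 | |y j - g j| ≤ sg b * (y i - g i)} := by
      ext y; simp
    rw [this]
    exact isClosed_iInter fun j => isClosed_iInter fun _ => isClosed_le (by fun_prop) (by fun_prop)
  -- the point on the ray
  set u : E3 := EuclideanSpace.single i (10 * sg b) with hu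
  have hui : u i = 10 * sg b := by simp [hu]
  have huj : ∀ j, j ≠ i → u j = 0 := fun j hj => by simp [hu, hj]
  have hfar : g + u ∉ K' := by
    intro h
    have h1 := (hsub h).1 i
    rw [PiLp.add_apply, hui] at h1
    have h2 := hgb i
    have h3 : |10 * sg b| = 10 := by rw [abs_mul, abs_sg]; norm_num
    have h4 : |10 * sg b| ≤ |g i + 10 * sg b| + |g i| := by
      calc |10 * sg b| = |(g i + 10 * sg b) - g i| := by ring_nf
        _ ≤ |g i + 10 * sg b| + |g i| := abs_sub _ _
    linarith
  obtain ⟨τ, hτ0, hτ1, hτ⟩ := seg_frontier hK'cl hgint hfar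
  rw [add_sub_cancel_left] at hτ
  set y : E3 := g + τ • u with hy
  have hyi : y i - g i = τ * (10 * sg b) := by
    rw [hy, PiLp.add_apply, PiLp.smul_apply, hui, smul_eq_mul]; ring
  have hyj : ∀ j, j ≠ i → y j - g j = 0 := by
    intro j hj
    rw [hy, PiLp.add_apply, PiLp.smul_apply, huj j hj, smul_eq_mul]; ring
  have hyF : y ∈ F := by
    refine ⟨hτ, fun j hj => ?_⟩
    rw [hyj j hj, hyi, abs_zero]
    have : sg b * (τ * (10 * sg b)) = 10 * τ * (sg b * sg b) := by ring
    rw [this, sg_mul_self]; positivity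
  have hynorm : ‖y - g‖ ≤ 5779 / 5000 := by
    have h1 : y - g = τ • u := by rw [hy]; abel
    have h2 : ‖u‖ = 10 := by
      rw [hu, PiLp.norm_single, Real.norm_eq_abs, abs_mul, abs_sg]; norm_num
    rw [h1, norm_smul, h2, Real.norm_eq_abs, abs_of_pos hτ0]
    have h3 := (hsub (hK'cl.frontier_subset hτ)).1 i
    have h4 : y i = g i + τ * (10 * sg b) := by linarith
    rw [h4] at h3
    have h5 := hgb i
    have h6 : |τ * (10 * sg b)| = τ * 10 := by
      rw [abs_mul, abs_mul, abs_sg, abs_of_pos hτ0]; norm_num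
    have h7 : |τ * (10 * sg b)| ≤ |g i + τ * (10 * sg b)| + |g i| := by
      calc |τ * (10 * sg b)| = |(g i + τ * (10 * sg b)) - g i| := by ring_nf
        _ ≤ |g i + τ * (10 * sg b)| + |g i| := abs_sub _ _
    linarith
  obtain ⟨q, hqF, hqmin⟩ := hFc.exists_isMinOn ⟨y, hyF⟩ (f := fun y => ‖y - g‖) (by fun_prop)
  have hqy : ‖q - g‖ ≤ ‖y - g‖ := hqmin hyF
  have hqnorm : ‖q - g‖ ≤ 5779 / 5000 := hqy.trans hynorm
  have hqzone : ∀ j, j ≠ i → |q j - g j| < sg b * (q i - g i) := by
    intro j hj
    rcases lt_or_eq_of_le (hqF.2 j hj) with h | h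
    · exact h
    · exfalso
      obtain ⟨k, hki, hkj⟩ : ∃ k : Fin 3, k ≠ i ∧ k ≠ j := by
        clear * -; revert i j; decide
      have hk := hqF.2 k hki
      set t := |q j - g j| with ht
      set z := |q k - g k| with hz
      have hzt : z ≤ t := by rw [← h] at hk; exact hk
      have hit : |q i - g i| = t := by
        have : |sg b * (q i - g i)| = |q i - g i| := by rw [abs_mul, abs_sg, one_mul]
        rw [← this, ← h, ht, abs_abs]
      have hsq : t ^ 2 + t ^ 2 + z ^ 2 ≤ (5779 / 5000) ^ 2 := by
        have h1 : ‖q - g‖ ^ 2 ≤ (5779 / 5000) ^ 2 := pow_le_pow_left₀ (norm_nonneg _) hqnorm 2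
        rw [norm_sq_E3] at h1
        have e1 := fin3_sum (fun l => (q - g) l ^ 2) i j k hj.symm hki.symm hkj.symm
        simp only [PiLp.sub_apply] at e1 h1
        rw [e1] at h1
        have e2 : (q i - g i) ^ 2 = t ^ 2 := by rw [← hit, sq_abs]
        have e3 : (q j - g j) ^ 2 = t ^ 2 := by rw [ht, sq_abs]
        have e4 : (q k - g k) ^ 2 = z ^ 2 := by rw [hz, sq_abs]
        rw [e2, e3, e4] at h1
        exact h1
      obtain ⟨hz1, hz2⟩ := zone_real (abs_nonneg _) hzt hsq
      have tri : ∀ l, |q l| ≤ |q l - g l| + 29 / 5000 := by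
        intro l
        have h1 := hgb l
        calc |q l| = |(q l - g l) + g l| := by ring_nf
          _ ≤ |q l - g l| + |g l| := abs_add_le _ _
          _ ≤ _ := by linarith
      have ti := tri i
      have tj := tri j
      have tk := tri k
      rw [hit] at ti
      rw [← ht] at tj
      rw [← hz] at tk
      have hall := fin3_cases i j k hj.symm hki.symm hkj.symm
      have hint : q ∈ interior K' := by
        apply lower_interior (t := 0) hbody hsub hvol
        · intro l
          rcases hall l with rfl | rfl | rfl <;> linarith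
        · have hprod : (1 - |q 0|) * (1 - |q 1|) * (1 - |q 2|)
              = (1 - |q i|) * (1 - |q j|) * (1 - |q k|) := by
            have : ∀ i j k : Fin 3, i ≠ j → i ≠ k → j ≠ k → ∀ f : Fin 3 → ℝ,
                f 0 * f 1 * f 2 = f i * f j * f k := by
              intro i j k hij hik hjk f
              fin_cases i <;> fin_cases j <;> fin_cases k <;>
                first
                  | exact absurd rfl hij
                  | exact absurd rfl hik
                  | exact absurd rfl hjk
                  | (simp only [Fin.zero_eta, Fin.mk_one, Fin.reduceFinMk]; done)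
                  | (simp only [Fin.zero_eta, Fin.mk_one, Fin.reduceFinMk]; ring)
            exact this i j k hj.symm hki.symm hkj.symm (fun l => 1 - |q l|)
          rw [hprod]
          refine lt_of_lt_of_le hz1 ?_
          have e1 : 1 - (t + 29 / 5000) ≤ 1 - |q i| := by linarith
          have e2 : 1 - (t + 29 / 5000) ≤ 1 - |q j| := by linarith
          have e3 : 1 - (z + 29 / 5000) ≤ 1 - |q k| := by linarith
          have p1 : 0 ≤ 1 - (t + 29 / 5000) := by linarith
          have p2 : 0 ≤ 1 - (z + 29 / 5000) := by linarith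
          have e4 := mul_le_mul e1 e2 p1 (by linarith)
          have e5 := mul_le_mul e4 e3 p2 (by
            apply mul_nonneg <;> linarith)
          linarith
      exact hqF.1.2 hint
  refine ⟨q, hqF.1, hqzone, ?_⟩
  have hopen : IsOpen {y : E3 | ∀ j, j ≠ i → |y j - g j| < sg b * (y i - g i)} := by
    have : {y : E3 | ∀ j, j ≠ i → |y j - g j| < sg b * (y i - g i)}
        = ⋂ j, ⋂ (_ : j ≠ i), {y : E3 | |y j - g j| < sg b * (y i - g i)} := by
      ext y; simp
    rw [this]
    exact isOpen_iInter_of_finite fun j => isOpen_iInter_of_finite fun _ =>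
      isOpen_lt (by fun_prop) (by fun_prop)
  filter_upwards [hopen.eventually_mem hqzone] with x hx hlt
  by_contra hxK'
  obtain ⟨s, hs0, hs1, hs⟩ := seg_frontier hK'cl hgint hxK'
  set w : E3 := g + s • (x - g) with hw
  have hwl : ∀ l, w l - g l = s * (x l - g l) := by
    intro l
    rw [hw, PiLp.add_apply, PiLp.smul_apply, PiLp.sub_apply, smul_eq_mul]; ring
  have hwF : w ∈ F := by
    refine ⟨hs, fun j hj => ?_⟩
    rw [hwl, hwl, abs_mul, abs_of_pos hs0]
    have := hx j hj
    calc s * |x j - g j| ≤ s * (sg b * (x i - g i)) := by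
          exact mul_le_mul_of_nonneg_left this.le hs0.le
      _ = _ := by ring
  have h1 : ‖q - g‖ ≤ ‖w - g‖ := hqmin hwF
  have h2 : ‖w - g‖ ≤ ‖x - g‖ := by
    have : w - g = s • (x - g) := by rw [hw]; abel
    rw [this, norm_smul, Real.norm_eq_abs, abs_of_pos hs0]
    calc s * ‖x - g‖ ≤ 1 * ‖x - g‖ := mul_le_mul_of_nonneg_right hs1 (norm_nonneg _)
      _ = _ := one_mul _
  linarith

end lower

/-- Bodies obtained from `bodyK (23/20)` by removing at most one two-hundredth of the volume
have at least `6` stable and `8` unstable equilibria. -/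
theorem lower_bound {S' U' : ℕ} {K' : Set E3} (hcl : InClass S' U' K')
    (hsub : K' ⊆ bodyK (23 / 20))
    (hvol : (volume (bodyK (23 / 20) \ K')).toReal ≤
      1 / 200 * (volume (bodyK (23 / 20))).toReal) : 6 ≤ S' ∧ 8 ≤ U' := by
  have hbody := hcl.1
  have hG := lower_centroid_interior hbody hsub hvol
  constructor
  · choose q hq1 hq2 hq3 using fun p : Fin 3 × Bool => exists_min hbody hsub hvol p.1 p.2
    have hinj : Function.Injective q := by
      rintro ⟨i, b⟩ ⟨j, c⟩ h
      have h1 := hq2 (i, b)
      have h2 := hq2 (j, c)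
      rw [← h] at h2
      simp only at h1 h2
      have habs : ∀ (b : Bool) (t : ℝ), sg b * t ≤ |t| := by
        intro b t
        calc sg b * t ≤ |sg b * t| := le_abs_self _
          _ = |t| := by rw [abs_mul, abs_sg, one_mul]
      have hij : i = j := by
        by_contra hne
        have e1 := h1 j (Ne.symm hne)
        have e2 := h2 i hne
        have e3 := habs b (q (i, b) i - centroid K' i)
        have e4 := habs c (q (i, b) j - centroid K' j)
        linarith
      subst hij
      obtain ⟨j, hj⟩ : ∃ j : Fin 3, j ≠ i := by clear * -; revert i; decide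
      have e1 := h1 j hj
      have e2 := h2 j hj
      have e3 := abs_nonneg (q (i, b) j - centroid K' j)
      cases b <;> cases c <;> simp only [sg] at e1 e2 <;> first | rfl | (exfalso; simp at e1 e2; linarith)
    have := hcl.stable_count hG q hinj hq1 hq3
    simpa using this
  · choose q hq1 hq2 hq3 using fun σ : Fin 3 → Bool => exists_max hbody hsub hvol σ
    have hinj : Function.Injective q := by
      intro σ σ' h
      ext i
      have h1 := hq2 σ i
      have h2 := hq2 σ' i
      rw [← h] at h2
      cases hb : σ i <;> cases hc : σ' i <;> rw [hb] at h1 <;> rw [hc] at h2 <;>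
        simp only [sg] at h1 h2 <;> first | rfl | (exfalso; simp at h1 h2; linarith)
    have := hcl.unstable_count hG q hinj hq1 hq3
    simpa using this

end Pool.Agent.Helper16.Rob
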