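import Pool.Agent.Helper16.RobQ7
import Pool.Agent.Helper16.RobLower2
import Pool.Agent.Helper16.RobBodyK4

open MeasureTheory Set Metric Filter
open scoped RealInnerProductSpace ENNReal ContDiff Topology

namespace Pool.Agent.Helper16.Rob

/-- The bodies `bodyK d` are not smooth. -/
lemma not_smooth_bodyK {d : ℝ} (hd1 : 1 ≤ d) (hd2 : d ≤ 23 / 20) {f : E3 → ℝ}
    (hf : IsSmoothDefining (bodyK d) f) : False := by
  set q : E3 := WithLp.toLp 2 (fun _ => (1:ℝ)) with hq
  have hqi : ∀ i, q i = 1 := fun i => rfl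
  have hC : typeC q := fun i => by rw [hqi, abs_one]
  have hfr : q ∈ frontier (bodyK d) := (typeC_equilibrium hd1 hd2 hC).1
  have h0 := hf.eq_zero_of_mem_frontier hfr
  set a : E3 := WithLp.toLp 2 ![3, 2, 0] with ha
  set b : E3 := WithLp.toLp 2 ![2, 3, 0] with hb
  have a0 : a 0 = 3 := rfl
  have a1 : a 1 = 2 := rfl
  have a2 : a 2 = 0 := rfl
  have b0 : b 0 = 2 := rfl
  have b1 : b 1 = 3 := rfl
  have b2 : b 2 = 0 := rfl
  have ea : q - (q - a) = a := by abel
  have eb : q - (q - b) = b := by abel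
  have hA := hf.normal (G := q - a) h0 (by
    rw [ea]
    intro x hx
    have h1 := hx.2 0 1 (by decide)
    have h2 := le_abs_self (x 0)
    have h3 := le_abs_self (x 1)
    rw [inner_E3]
    simp only [PiLp.sub_apply, hqi, a0, a1, a2]
    linarith) a
  have hA' := hf.normal (G := q - a) h0 (by
    rw [ea]
    intro x hx
    have h1 := hx.2 0 1 (by decide)
    have h2 := le_abs_self (x 0)
    have h3 := le_abs_self (x 1)
    rw [inner_E3]
    simp only [PiLp.sub_apply, hqi, a0, a1, a2]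
    linarith) b
  have hB := hf.normal (G := q - b) h0 (by
    rw [eb]
    intro x hx
    have h1 := hx.2 1 0 (by decide)
    have h2 := le_abs_self (x 0)
    have h3 := le_abs_self (x 1)
    rw [inner_E3]
    simp only [PiLp.sub_apply, hqi, b0, b1, b2]
    linarith) b
  have hna : ‖a‖ = ‖b‖ := by
    have h1 : ‖a‖ ^ 2 = ‖b‖ ^ 2 := by
      rw [norm_sq_E3, norm_sq_E3, a0, a1, a2, b0, b1, b2]; norm_num
    exact (sq_eq_sq₀ (norm_nonneg _) (norm_nonneg _)).mp h1
  rw [ea] at hA hA'
  rw [eb, ← hna] at hB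
  rw [← hA', inner_E3, inner_E3, a0, a1, a2, b0, b1, b2] at hB
  norm_num at hB

/-- The class of `bodyK d` is determined. -/
lemma class_unique_bodyK {d : ℝ} (hd1 : 1 ≤ d) (hd2 : d ≤ 23 / 20) {S U : ℕ}
    (h : InClass S U (bodyK d)) : S = 6 ∧ U = 8 := by
  obtain ⟨-, h | ⟨f, hf, -⟩⟩ := h
  · obtain ⟨-, h' | ⟨f, hf, -⟩⟩ := inClass_bodyK hd1 hd2
    · have e1 := h.2.2.1
      have e2 := h'.2.2.1
      have e3 := h.2.2.2
      have e4 := h'.2.2.2
      rw [e2] at e1
      rw [e4] at e3
      exact ⟨by exact_mod_cast e1.symm, by exact_mod_cast e3.symm⟩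
    · exact (not_smooth_bodyK hd1 hd2 hf).elim
  · exact (not_smooth_bodyK hd1 hd2 hf).elim

/-- The cube is not robust: its robustness is less than `1/200`. -/
theorem robustness_cube_lt : robustness cube < 1 / 200 := by
  obtain ⟨S, U, hS, hU, hcl⟩ := inClass_bodyQ
  have hcube : InClass 6 8 cube := bodyK_one ▸ inClass_bodyK le_rfl (by norm_num)
  have h1 : robustness cube ≤ (volume (cube \ bodyQ)).toReal / (volume cube).toReal := by
    apply csInf_le
    · refine ⟨0, ?_⟩
      rintro r ⟨S, U, S', U', K', -, -, -, -, rfl⟩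
      positivity
    · exact ⟨6, 8, S, U, bodyQ, hcube, hcl, bodyQ_subset_cube, by rw [numEq, numEq]; omega, rfl⟩
  have h2 := volume_sdiff_bodyQ_real
  rw [volume_cube_real] at h1
  linarith

/-- The body `bodyK (23/20)` has robustness at least `1/200`. -/
theorem robustness_bodyK_ge : 1 / 200 ≤ robustness (bodyK (23 / 20)) := by
  have hK : InClass 6 8 (bodyK (23 / 20)) := inClass_bodyK (by norm_num) le_rfl
  obtain ⟨S, U, hS, hU, hcl⟩ := inClass_bodyQ
  apply le_csInf
  · exact ⟨_, 6, 8, S, U, bodyQ, hK, hcl,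
      bodyQ_subset_cube.trans (cube_subset_bodyK (by norm_num)), by rw [numEq, numEq]; omega, rfl⟩
  · rintro r ⟨S, U, S', U', K', h, h', hsub, hN, rfl⟩
    obtain ⟨rfl, rfl⟩ := class_unique_bodyK (by norm_num) le_rfl h
    have hV := volume_bodyK_pos
    rw [le_div_iff₀ hV]
    by_contra hcon
    push Not at hcon
    have := lower_bound h' hsub hcon.le
    rw [numEq, numEq] at hN
    omega

theorem main : InClass 6 8 cube ∧ ∃ K : Set E3, InClass 6 8 K ∧ robustness cube < robustness K :=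
  ⟨bodyK_one ▸ inClass_bodyK le_rfl (by norm_num), bodyK (23 / 20),
    inClass_bodyK (by norm_num) le_rfl, robustness_cube_lt.trans_le robustness_bodyK_ge⟩

end Pool.Agent.Helper16.Rob
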