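import Mathlib

open MeasureTheory Set Metric Filter
open scoped ENNReal ContDiff Topology

namespace Pool.Agent.Helper16.Rob

/-- Smoothing parameter. -/
noncomputable def ep : ℝ := 1 / 1000000000000

lemma ep_pos : 0 < ep := by norm_num [ep]

/-- The smoothed positive part `s^2 exp(-ep/s)` (`0` for `s ≤ 0`). -/
noncomputable def P (s : ℝ) : ℝ := s ^ 2 * expNegInvGlue (s / ep)
/-- Its first derivative. -/
noncomputable def P1 (s : ℝ) : ℝ := (2 * s + ep) * expNegInvGlue (s / ep)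
/-- Its second derivative. -/
noncomputable def P2 (s : ℝ) : ℝ := (2 + 2 * (ep / s) + (ep / s) ^ 2) * expNegInvGlue (s / ep)

lemma hasDerivAt_glue (s : ℝ) :
    HasDerivAt (fun s : ℝ => expNegInvGlue (s / ep))
      ((ep / s) ^ 2 * expNegInvGlue (s / ep) / ep) s := by
  have h1 := expNegInvGlue.hasDerivAt_polynomial_eval_inv_mul 1 (s / ep)
  simp only [Polynomial.eval_one, one_mul, Polynomial.derivative_one, sub_zero, mul_one,
    Polynomial.eval_pow, Polynomial.eval_X] at h1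
  have h2 : HasDerivAt (fun s : ℝ => s / ep) (1 / ep) s := (hasDerivAt_id s).div_const ep
  have h3 := h1.comp s h2
  have e : (s / ep)⁻¹ ^ 2 * expNegInvGlue (s / ep) * (1 / ep)
      = (ep / s) ^ 2 * expNegInvGlue (s / ep) / ep := by
    rw [inv_div]; ring
  rw [e] at h3
  exact h3

lemma glue_nonpos {s : ℝ} (hs : s ≤ 0) : expNegInvGlue (s / ep) = 0 :=
  expNegInvGlue.zero_of_nonpos (div_nonpos_of_nonpos_of_nonneg hs ep_pos.le)

lemma glue_pos {s : ℝ} (hs : 0 < s) : 0 < expNegInvGlue (s / ep) :=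
  expNegInvGlue.pos_of_pos (div_pos hs ep_pos)

lemma glue_eq {s : ℝ} (hs : 0 < s) : expNegInvGlue (s / ep) = Real.exp (-(ep / s)) := by
  have : ¬ (s / ep ≤ 0) := not_le.mpr (div_pos hs ep_pos)
  rw [expNegInvGlue, if_neg this, inv_div]

lemma glue_le_one (s : ℝ) : expNegInvGlue (s / ep) ≤ 1 := by
  rcases le_or_gt s 0 with hs | hs
  · rw [glue_nonpos hs]; exact zero_le_one
  · rw [glue_eq hs, Real.exp_le_one_iff]
    have := div_pos ep_pos hs
    linarith

lemma glue_nonneg (s : ℝ) : 0 ≤ expNegInvGlue (s / ep) := expNegInvGlue.nonneg _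

lemma glue_ge {s : ℝ} (hs : 0 < s) : 1 - ep / s ≤ expNegInvGlue (s / ep) := by
  rw [glue_eq hs]
  have := Real.add_one_le_exp (-(ep / s))
  linarith

lemma glue_mono {s t : ℝ} (h : s ≤ t) : expNegInvGlue (s / ep) ≤ expNegInvGlue (t / ep) := by
  rcases le_or_gt s 0 with hs | hs
  · rw [glue_nonpos hs]; exact glue_nonneg t
  · have ht : 0 < t := lt_of_lt_of_le hs h
    rw [glue_eq hs, glue_eq ht, Real.exp_le_exp, neg_le_neg_iff]
    exact div_le_div_of_nonneg_left ep_pos.le hs h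

lemma P_nonpos {s : ℝ} (hs : s ≤ 0) : P s = 0 := by rw [P, glue_nonpos hs, mul_zero]
lemma P1_nonpos {s : ℝ} (hs : s ≤ 0) : P1 s = 0 := by rw [P1, glue_nonpos hs, mul_zero]
lemma P2_nonpos {s : ℝ} (hs : s ≤ 0) : P2 s = 0 := by rw [P2, glue_nonpos hs, mul_zero]

lemma P_nonneg (s : ℝ) : 0 ≤ P s := mul_nonneg (sq_nonneg s) (glue_nonneg s)

lemma P_pos {s : ℝ} (hs : 0 < s) : 0 < P s := mul_pos (pow_pos hs 2) (glue_pos hs)

lemma P1_pos {s : ℝ} (hs : 0 < s) : 0 < P1 s :=
  mul_pos (by have := ep_pos; positivity) (glue_pos hs)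

lemma P1_nonneg (s : ℝ) : 0 ≤ P1 s := by
  rcases le_or_gt s 0 with hs | hs
  · rw [P1_nonpos hs]
  · exact (P1_pos hs).le

lemma P2_pos {s : ℝ} (hs : 0 < s) : 0 < P2 s := by
  apply mul_pos _ (glue_pos hs)
  have := div_pos ep_pos hs
  positivity

lemma P2_nonneg (s : ℝ) : 0 ≤ P2 s := by
  rcases le_or_gt s 0 with hs | hs
  · rw [P2_nonpos hs]
  · exact (P2_pos hs).le

lemma hasDerivAt_P (s : ℝ) : HasDerivAt P (P1 s) s := by
  have h1 : HasDerivAt (fun s : ℝ => s ^ 2) (2 * s) s := by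
    simpa using hasDerivAt_pow 2 s
  have h2 := h1.mul (hasDerivAt_glue s)
  have e : 2 * s * expNegInvGlue (s / ep)
      + s ^ 2 * ((ep / s) ^ 2 * expNegInvGlue (s / ep) / ep) = P1 s := by
    rcases eq_or_ne s 0 with h | h
    · subst h
      rw [P1, glue_nonpos le_rfl]; ring
    · have := ep_pos.ne'
      rw [P1]; field_simp
  rw [e] at h2
  exact h2

lemma hasDerivAt_P1 (s : ℝ) : HasDerivAt P1 (P2 s) s := by
  have h1 : HasDerivAt (fun s : ℝ => 2 * s + ep) 2 s := by
    simpa using ((hasDerivAt_id s).const_mul 2).add_const ep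
  have h2 := h1.mul (hasDerivAt_glue s)
  have e : 2 * expNegInvGlue (s / ep)
      + (2 * s + ep) * ((ep / s) ^ 2 * expNegInvGlue (s / ep) / ep) = P2 s := by
    rcases eq_or_ne s 0 with h | h
    · subst h
      rw [P2, glue_nonpos le_rfl]; ring
    · have := ep_pos.ne'
      rw [P2]; field_simp; ring
  rw [e] at h2
  exact h2

lemma contDiff_P : ContDiff ℝ ∞ P := by
  have h1 : ContDiff ℝ ∞ (fun s : ℝ => s / ep) := contDiff_id.div_const ep
  exact (contDiff_id.pow 2).mul (expNegInvGlue.contDiff.comp h1)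

lemma P_mono : Monotone P :=
  monotone_of_hasDerivAt_nonneg hasDerivAt_P P1_nonneg

lemma P1_mono : Monotone P1 :=
  monotone_of_hasDerivAt_nonneg hasDerivAt_P1 P2_nonneg

lemma P_le (s : ℝ) : P s ≤ s ^ 2 := by
  have := mul_le_mul_of_nonneg_left (glue_le_one s) (sq_nonneg s)
  rw [mul_one] at this; exact this

lemma P_ge {s : ℝ} (hs : 0 < s) : s ^ 2 - ep * s ≤ P s := by
  have := mul_le_mul_of_nonneg_left (glue_ge hs) (sq_nonneg s)
  have e : s ^ 2 * (1 - ep / s) = s ^ 2 - ep * s := by field_simp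
  rw [e] at this; exact this

lemma P1_le {s : ℝ} (hs : 0 < s) : P1 s ≤ 2 * s := by
  have h1 := Real.add_one_le_exp (ep / s)
  have h2 := div_pos ep_pos hs
  have h3 : expNegInvGlue (s / ep) * Real.exp (ep / s) = 1 := by
    rw [glue_eq hs, ← Real.exp_add]; simp
  have h4 := glue_pos hs
  have h5 : expNegInvGlue (s / ep) * (ep / s + 1) ≤ 1 :=
    (mul_le_mul_of_nonneg_left h1 h4.le).trans h3.le
  have h6 : P1 s = 2 * s * (expNegInvGlue (s / ep) * (ep / s / 2 + 1)) := by
    rw [P1]; field_simp; ring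
  rw [h6]
  have h7 : expNegInvGlue (s / ep) * (ep / s / 2 + 1) ≤ 1 := by
    refine le_trans (mul_le_mul_of_nonneg_left ?_ h4.le) h5
    linarith
  nlinarith

lemma P1_ge {s : ℝ} (hs : 0 < s) : 2 * s - ep - ep * (ep / s) ≤ P1 s := by
  have h0 : 0 ≤ 2 * s + ep := by have := ep_pos; positivity
  have := mul_le_mul_of_nonneg_left (glue_ge hs) h0
  have e : (2 * s + ep) * (1 - ep / s) = 2 * s - ep - ep * (ep / s) := by field_simp; ring
  rw [e] at this; exact this

lemma two_P_le {s : ℝ} (hs : 0 ≤ s) : 2 * P s ≤ s * P1 s := by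
  rw [P, P1]
  have := glue_nonneg s
  have h : 0 ≤ ep * s * expNegInvGlue (s / ep) := by have := ep_pos; positivity
  nlinarith

lemma P1_le_mul {s : ℝ} (hs : 0 < s) : P1 s ≤ s * P2 s := by
  rw [P1, P2]
  have h1 := glue_nonneg s
  have e : s * ((2 + 2 * (ep / s) + (ep / s) ^ 2) * expNegInvGlue (s / ep))
      = (2 * s + 2 * ep + ep * (ep / s)) * expNegInvGlue (s / ep) := by
    field_simp
  rw [e]
  apply mul_le_mul_of_nonneg_right _ h1
  have := ep_pos
  have : 0 < ep * (ep / s) := by positivity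
  linarith

lemma mul_P2_le {s : ℝ} (hs : 0 < s) : s * P2 s ≤ (1 + ep / s) * P1 s := by
  rw [P1, P2]
  have h1 := glue_nonneg s
  have e : s * ((2 + 2 * (ep / s) + (ep / s) ^ 2) * expNegInvGlue (s / ep))
      = (2 * s + 2 * ep + ep * (ep / s)) * expNegInvGlue (s / ep) := by
    field_simp
  have e2 : (1 + ep / s) * ((2 * s + ep) * expNegInvGlue (s / ep))
      = (2 * s + 3 * ep + ep * (ep / s)) * expNegInvGlue (s / ep) := by
    field_simp; ring
  rw [e, e2]
  apply mul_le_mul_of_nonneg_right _ h1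
  have := ep_pos
  linarith

/-- `P` scales at most quadratically. -/
lemma P_scale {s t : ℝ} (h : s ≤ t) (ht : 0 < t) : P s ≤ (s / t) ^ 2 * P t := by
  rw [P, P]
  have e : (s / t) ^ 2 * (t ^ 2 * expNegInvGlue (t / ep)) = s ^ 2 * expNegInvGlue (t / ep) := by
    field_simp
  rw [e]
  exact mul_le_mul_of_nonneg_left (glue_mono h) (sq_nonneg s)

/-- `P1 s / s` is monotone. -/
lemma P1_scale {s t : ℝ} (hs : 0 < s) (h : s ≤ t) : t * P1 s ≤ s * P1 t := by
  rw [P1, P1]
  have ht : 0 < t := lt_of_lt_of_le hs h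
  rw [glue_eq hs, glue_eq ht]
  set a := ep / s
  set c := ep / t
  have hep : s * a = ep := by simp only [a]; field_simp
  have hep' : t * c = ep := by simp only [c]; field_simp
  have hca : c ≤ a := div_le_div_of_nonneg_left ep_pos.le hs h
  have hc : 0 < c := div_pos ep_pos ht
  have h1 : t * ((2 * s + ep) * Real.exp (-a)) = t * s * ((2 + a) * Real.exp (-a)) := by
    rw [← hep]; ring
  have h2 : s * ((2 * t + ep) * Real.exp (-c)) = t * s * ((2 + c) * Real.exp (-c)) := by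
    rw [← hep']; ring
  rw [h1, h2]
  apply mul_le_mul_of_nonneg_left _ (by positivity)
  have h3 : Real.exp (-c) = Real.exp (-a) * Real.exp (a - c) := by
    rw [← Real.exp_add]; congr 1; ring
  rw [h3]
  have h4 := Real.add_one_le_exp (a - c)
  have h5 := Real.exp_pos (-a)
  have h6 : 2 + a ≤ (2 + c) * Real.exp (a - c) := by nlinarith
  nlinarith

end Pool.Agent.Helper16.Rob
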