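import Pool.Agent.Helper16.RobSecond

open MeasureTheory Set Metric Filter
open scoped RealInnerProductSpace ENNReal ContDiff Topology

namespace Pool.Agent.Helper16.Rob

lemma neg_right_of_deriv_neg {φ : ℝ → ℝ} {L : ℝ} (hφ : HasDerivAt φ L 0) (h0 : φ 0 = 0)
    (hL : L < 0) : ∀ᶠ t : ℝ in 𝓝[>] 0, φ t < 0 := by
  have hs := hasDerivAt_iff_tendsto_slope.mp hφ
  have hs' : Tendsto (slope φ 0) (𝓝[>] 0) (𝓝 L) :=
    hs.mono_left (nhdsWithin_mono _ (fun x hx => ne_of_gt hx))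
  filter_upwards [hs'.eventually (gt_mem_nhds hL), self_mem_nhdsWithin] with t ht ht0
  have ht0' : (0:ℝ) < t := ht0
  rw [slope_def_field, h0, sub_zero, sub_zero] at ht
  by_contra hcon
  push Not at hcon
  have := div_nonneg hcon ht0'.le
  linarith

lemma IsSmoothDefining.isClosed {K : Set E3} {f : E3 → ℝ} (hf : IsSmoothDefining K f) :
    IsClosed K := by
  rw [hf.2.1]
  exact isClosed_le hf.1.continuous continuous_const

lemma IsSmoothDefining.eq_zero_of_mem_frontier {K : Set E3} {f : E3 → ℝ}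
    (hf : IsSmoothDefining K f) {q : E3} (hq : q ∈ frontier K) : f q = 0 := by
  have hqK : q ∈ K := hf.isClosed.frontier_subset hq
  have hle : f q ≤ 0 := by
    rw [hf.2.1] at hqK; exact hqK
  rcases eq_or_lt_of_le hle with h | h
  · exact h
  · exfalso
    have hopen : IsOpen {x | f x < 0} := isOpen_lt hf.1.continuous continuous_const
    have hsub : {x | f x < 0} ⊆ K := by
      rw [hf.2.1]; intro x hx; exact (show f x < 0 from hx).le
    exact hq.2 (interior_maximal hsub hopen h)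

lemma IsSmoothDefining.normal {K : Set E3} {f : E3 → ℝ} (hf : IsSmoothDefining K f)
    {q G : E3} (hq : f q = 0) (hsupp : ∀ x ∈ K, ⟪q - G, x - q⟫ ≤ 0) (v : E3) :
    ⟪q - G, v⟫ = ‖q - G‖ / ‖fderiv ℝ f q‖ * fderiv ℝ f q v := by
  set a : E3 := (InnerProductSpace.toDual ℝ E3).symm (fderiv ℝ f q) with ha
  have hfa : ∀ x, fderiv ℝ f q x = ⟪a, x⟫ := fun x => by
    rw [ha, InnerProductSpace.toDual_symm_apply]
  have hna : ‖a‖ = ‖fderiv ℝ f q‖ := by
    rw [ha, LinearIsometryEquiv.norm_map]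
  have ha0 : a ≠ 0 := by
    intro h0
    apply hf.2.2 q hq
    ext x
    rw [hfa, h0]; simp
  have hfd : Differentiable ℝ f := hf.1.differentiable (by simp)
  obtain ⟨μ, hμ, hμa⟩ := parallel_of_halfspace ha0 (a := q - G) (by
    intro v hv
    have h1 : HasDerivAt (fun t : ℝ => f (q + t • v)) (fderiv ℝ f q v) 0 := by
      have h2 : HasDerivAt (fun t : ℝ => q + t • v) ((1:ℝ) • v) 0 :=
        ((hasDerivAt_id (0:ℝ)).smul_const v).const_add q
      rw [one_smul] at h2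
      have h3 : HasFDerivAt f (fderiv ℝ f q) (q + (0:ℝ) • v) := by
        have : q + (0:ℝ) • v = q := by simp
        rw [this]; exact (hfd q).hasFDerivAt
      exact h3.comp_hasDerivAt (0:ℝ) h2
    have h2 := neg_right_of_deriv_neg h1 (by simpa using hq) (by rw [hfa]; exact hv)
    obtain ⟨t, ht, ht0⟩ := (h2.and self_mem_nhdsWithin).exists
    have ht0' : (0:ℝ) < t := ht0
    have hmem : q + t • v ∈ K := by
      rw [hf.2.1]; exact ht.le
    have := hsupp _ hmem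
    rw [add_sub_cancel_left, inner_smul_right] at this
    by_contra hcon
    push Not at hcon
    have := mul_pos ht0' hcon
    linarith)
  have hnorm : ‖q - G‖ = μ * ‖fderiv ℝ f q‖ := by
    rw [hμa, norm_smul, hna, Real.norm_eq_abs, abs_of_nonneg hμ]
  have hpos : 0 < ‖fderiv ℝ f q‖ := by
    rw [← hna]; exact norm_pos_iff.mpr ha0
  rw [hfa, hnorm, mul_div_assoc, div_self hpos.ne', mul_one, hμa, inner_smul_left]
  simp

/-- Expansion of the squared distance along a parabola. -/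
lemma norm_sq_path (n u w : E3) (t : ℝ) (hnu : ⟪n, u⟫ = 0) :
    ‖n + t • u + t ^ 2 • w‖ ^ 2
      = ‖n‖ ^ 2 + t ^ 2 * ((⟪u, u⟫ + 2 * ⟪n, w⟫) + t * (2 * ⟪u, w⟫) + t ^ 2 * ‖w‖ ^ 2) := by
  rw [norm_add_sq_real, norm_add_sq_real, inner_add_left, inner_smul_right, inner_smul_right,
    inner_smul_right, inner_smul_left, norm_smul, norm_smul, hnu, real_inner_self_eq_norm_sq]
  simp only [conj_trivial, Real.norm_eq_abs, mul_pow, sq_abs, abs_pow]
  ring

lemma eventually_sign_path {A : ℝ} (B C : ℝ) (hA : 0 < A) :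
    ∀ᶠ t : ℝ in 𝓝[>] 0, 0 < A + t * B + t ^ 2 * C := by
  have : Tendsto (fun t : ℝ => A + t * B + t ^ 2 * C) (𝓝 0)
      (𝓝 (A + 0 * B + 0 ^ 2 * C)) := (Continuous.tendsto (by fun_prop) 0)
  simp only [zero_mul, add_zero, ne_eq, OfNat.ofNat_ne_zero, not_false_eq_true, zero_pow] at this
  exact (this.mono_left nhdsWithin_le_nhds).eventually (lt_mem_nhds hA)

lemma tendsto_path (q u w : E3) :
    Tendsto (fun t : ℝ => q + t • u + t ^ 2 • w) (𝓝[>] 0) (𝓝 q) := by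
  have : Tendsto (fun t : ℝ => q + t • u + t ^ 2 • w) (𝓝 0)
      (𝓝 (q + (0:ℝ) • u + (0:ℝ) ^ 2 • w)) := (Continuous.tendsto (by fun_prop) 0)
  simp only [zero_smul, add_zero, ne_eq, OfNat.ofNat_ne_zero, not_false_eq_true, zero_pow] at this
  exact this.mono_left nhdsWithin_le_nhds

lemma exists_dual_vector {f : E3 → ℝ} {q : E3} (h : fderiv ℝ f q ≠ 0) :
    ∃ w : E3, fderiv ℝ f q w = 1 := by
  obtain ⟨v, hv⟩ : ∃ v, fderiv ℝ f q v ≠ 0 := by
    by_contra hcon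
    push Not at hcon
    exact h (by ext x; simpa using hcon x)
  refine ⟨(fderiv ℝ f q v)⁻¹ • v, ?_⟩
  rw [map_smul, smul_eq_mul, inv_mul_cancel₀ hv]

/-- Second order necessary condition at a local maximum of the distance on a smooth body. -/
lemma hess_nonpos_of_localMax {K : Set E3} {f : E3 → ℝ} (hf : IsSmoothDefining K f)
    {q G : E3} (hqG : q ≠ G) (hq : f q = 0) (hsupp : ∀ x ∈ K, ⟪q - G, x - q⟫ ≤ 0)
    (hmax : ∀ᶠ x in 𝓝[K] q, ‖x - G‖ ≤ ‖q - G‖) {u : E3} (hu : ⟪q - G, u⟫ = 0) :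
    ⟪u, u⟫ - ‖q - G‖ / ‖fderiv ℝ f q‖ * fderiv ℝ (fderiv ℝ f) q u u ≤ 0 := by
  have hnorm := hf.normal hq hsupp
  set lam : ℝ := ‖q - G‖ / ‖fderiv ℝ f q‖ with hlam
  have hlampos : 0 < lam := by
    have h1 : 0 < ‖q - G‖ := norm_pos_iff.mpr (sub_ne_zero.mpr hqG)
    have h2 : 0 < ‖fderiv ℝ f q‖ := norm_pos_iff.mpr (hf.2.2 q hq)
    positivity
  by_contra hcon
  push Not at hcon
  have hfu : fderiv ℝ f q u = 0 := by
    have := hnorm u
    rw [hu] at this
    rcases mul_eq_zero.mp this.symm with h | h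
    · exact absurd h hlampos.ne'
    · exact h
  obtain ⟨w0, hw0⟩ := exists_dual_vector (hf.2.2 q hq)
  set D : ℝ := fderiv ℝ (fderiv ℝ f) q u u with hD
  -- choose α with D < 2 α < ⟪u,u⟫ / lam
  obtain ⟨β, hβ1, hβ2⟩ : ∃ β, D < β ∧ β < ⟪u, u⟫ / lam := exists_between (by
    rw [lt_div_iff₀ hlampos]; linarith)
  set w : E3 := (-(β / 2)) • w0 with hw
  have hfw : fderiv ℝ f q w = -(β / 2) := by rw [hw, map_smul, hw0, smul_eq_mul, mul_one]
  have hneg : ∀ᶠ t : ℝ in 𝓝[>] 0, 0 < (-f) (q + t • u + t ^ 2 • w) := by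
    have hfd : Differentiable ℝ f := hf.1.differentiable (by simp)
    have e1 : fderiv ℝ (-f) = -(fderiv ℝ f) := by
      ext x; rw [fderiv_neg]; rfl
    have e2 : fderiv ℝ (fderiv ℝ (-f)) q = -(fderiv ℝ (fderiv ℝ f) q) := by
      rw [e1, fderiv_neg]
    apply second_order_pos (f := -f) hf.1.neg
    · simp [hq]
    · rw [e1]; simp [hfu]
    · rw [e2, e1]
      simp only [Pi.neg_apply, neg_apply, hfw]
      linarith
  have hnw : ⟪q - G, w⟫ = -(lam * β / 2) := by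
    rw [hnorm w, hfw]; ring
  have hA : 0 < ⟪u, u⟫ + 2 * ⟪q - G, w⟫ := by
    rw [hnw]
    rw [lt_div_iff₀ hlampos] at hβ2
    linarith
  have hsign := eventually_sign_path (2 * ⟪u, w⟫) (‖w‖ ^ 2) hA
  have hpathK : Tendsto (fun t : ℝ => q + t • u + t ^ 2 • w) (𝓝[>] 0) (𝓝[K] q) := by
    apply tendsto_nhdsWithin_iff.mpr
    refine ⟨tendsto_path q u w, ?_⟩
    filter_upwards [hneg] with t ht
    rw [hf.2.1]
    have : f (q + t • u + t ^ 2 • w) < 0 := by simpa using ht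
    exact this.le
  obtain ⟨t, ⟨ht1, ht2⟩, ht0⟩ := ((hpathK.eventually hmax).and hsign |>.and
    self_mem_nhdsWithin).exists
  have ht0' : (0:ℝ) < t := ht0
  have h1 : ‖q + t • u + t ^ 2 • w - G‖ ^ 2 ≤ ‖q - G‖ ^ 2 :=
    pow_le_pow_left₀ (norm_nonneg _) ht1 2
  have h2 : q + t • u + t ^ 2 • w - G = (q - G) + t • u + t ^ 2 • w := by abel
  rw [h2, norm_sq_path _ _ _ _ hu] at h1
  have h3 : 0 < t ^ 2 * (⟪u, u⟫ + 2 * ⟪q - G, w⟫ + t * (2 * ⟪u, w⟫) + t ^ 2 * ‖w‖ ^ 2) := by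
    positivity
  linarith

/-- Second order necessary condition at a local minimum of the distance on the boundary of a
smooth body. -/
lemma hess_nonneg_of_localMin {K : Set E3} {f : E3 → ℝ} (hf : IsSmoothDefining K f)
    {q G : E3} (hqG : q ≠ G) (hq : f q = 0) (hsupp : ∀ x ∈ K, ⟪q - G, x - q⟫ ≤ 0)
    (hmin : ∀ᶠ x in 𝓝 q, ‖x - G‖ < ‖q - G‖ → x ∈ K) {u : E3} (hu : ⟪q - G, u⟫ = 0) :
    0 ≤ ⟪u, u⟫ - ‖q - G‖ / ‖fderiv ℝ f q‖ * fderiv ℝ (fderiv ℝ f) q u u := by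
  have hnorm := hf.normal hq hsupp
  set lam : ℝ := ‖q - G‖ / ‖fderiv ℝ f q‖ with hlam
  have hlampos : 0 < lam := by
    have h1 : 0 < ‖q - G‖ := norm_pos_iff.mpr (sub_ne_zero.mpr hqG)
    have h2 : 0 < ‖fderiv ℝ f q‖ := norm_pos_iff.mpr (hf.2.2 q hq)
    positivity
  by_contra hcon
  push Not at hcon
  have hfu : fderiv ℝ f q u = 0 := by
    have := hnorm u
    rw [hu] at this
    rcases mul_eq_zero.mp this.symm with h | h
    · exact absurd h hlampos.ne'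
    · exact h
  obtain ⟨w0, hw0⟩ := exists_dual_vector (hf.2.2 q hq)
  set D : ℝ := fderiv ℝ (fderiv ℝ f) q u u with hD
  obtain ⟨β, hβ1, hβ2⟩ : ∃ β, ⟪u, u⟫ / lam < β ∧ β < D := exists_between (by
    rw [div_lt_iff₀ hlampos]; linarith)
  set w : E3 := (-(β / 2)) • w0 with hw
  have hfw : fderiv ℝ f q w = -(β / 2) := by rw [hw, map_smul, hw0, smul_eq_mul, mul_one]
  have hpos : ∀ᶠ t : ℝ in 𝓝[>] 0, 0 < f (q + t • u + t ^ 2 • w) := by
    apply second_order_pos hf.1 hq hfu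
    rw [hfw]
    linarith
  have hnw : ⟪q - G, w⟫ = -(lam * β / 2) := by
    rw [hnorm w, hfw]; ring
  have hA : 0 < -(⟪u, u⟫ + 2 * ⟪q - G, w⟫) := by
    rw [hnw]
    rw [div_lt_iff₀ hlampos] at hβ1
    linarith
  have hsign := eventually_sign_path (-(2 * ⟪u, w⟫)) (-(‖w‖ ^ 2)) hA
  obtain ⟨t, ⟨⟨ht1, ht2⟩, ht3⟩, ht0⟩ := ((((tendsto_path q u w).eventually hmin).and
    hpos).and hsign |>.and self_mem_nhdsWithin).exists
  have ht0' : (0:ℝ) < t := ht0
  have h2 : q + t • u + t ^ 2 • w - G = (q - G) + t • u + t ^ 2 • w := by abel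
  have h3 : 0 < t ^ 2 * (-(⟪u, u⟫ + 2 * ⟪q - G, w⟫) + t * (-(2 * ⟪u, w⟫))
      + t ^ 2 * (-(‖w‖ ^ 2))) := by positivity
  have h1 : ‖q + t • u + t ^ 2 • w - G‖ < ‖q - G‖ := by
    apply lt_of_pow_lt_pow_left₀ 2 (norm_nonneg _)
    rw [h2, norm_sq_path _ _ _ _ hu]
    linarith
  have h4 := ht1 h1
  rw [hf.2.1] at h4
  exact absurd h4 (not_le.mpr ht2)

/-- A nondegenerate semidefinite Hessian is definite. -/
lemma definite_of_semidefinite (B : E3 → E3 → ℝ) (T : Submodule ℝ E3)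
    (hadd : ∀ u v w, B u (v + w) = B u v + B u w) (hsmul : ∀ (c : ℝ) u v, B u (c • v) = c * B u v)
    (hsymm : ∀ u v, B u v = B v u)
    (hpos : ∀ u ∈ T, 0 ≤ B u u) (hnd : ∀ u ∈ T, (∀ v ∈ T, B u v = 0) → u = 0)
    {u : E3} (hu : u ∈ T) (hu0 : u ≠ 0) : 0 < B u u := by
  rcases eq_or_lt_of_le (hpos u hu) with h | h
  · exfalso
    apply hu0
    apply hnd u hu
    intro v hv
    by_contra hne
    have key : ∀ s : ℝ, 0 ≤ 2 * s * B u v + s ^ 2 * B v v := by
      intro s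
      have h1 := hpos (u + s • v) (T.add_mem hu (T.smul_mem s hv))
      have h2 : B (u + s • v) (u + s • v) = B u u + 2 * s * B u v + s ^ 2 * B v v := by
        rw [hadd, hsmul, hsymm (u + s • v) u, hsymm (u + s • v) v, hadd, hadd, hsmul, hsmul,
          hsymm v u]
        ring
      rw [h2, ← h] at h1
      linarith
    have hvv := hpos v hv
    set b := B u v
    set c := B v v
    have h1 := key (-b / (c + 1))
    have hc : 0 < c + 1 := by linarith
    have h2 : 2 * (-b / (c + 1)) * b + (-b / (c + 1)) ^ 2 * c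
        = -(b ^ 2 * (c + 2)) / (c + 1) ^ 2 := by
      field_simp; ring
    rw [h2] at h1
    have h3 : 0 < b ^ 2 * (c + 2) := by positivity
    have h4 : 0 < b ^ 2 * (c + 2) / (c + 1) ^ 2 := by positivity
    rw [neg_div] at h1
    linarith
  · exact h

end Pool.Agent.Helper16.Rob
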