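import Pool.Agent.Helper16.RobBodyK4
import Pool.Agent.Helper27.Cube.Corner

open MeasureTheory Set Metric Filter
open scoped RealInnerProductSpace ENNReal ContDiff Topology

set_option linter.unusedVariables false

namespace Pool.Agent.Helper16.Rob

lemma seg_frontier {K : Set E3} (hK : IsClosed K) {g x : E3} (hg : g ∈ interior K) (hx : x ∉ K) :
    ∃ τ : ℝ, 0 < τ ∧ τ ≤ 1 ∧ g + τ • (x - g) ∈ frontier K := by
  by_contra hcon
  push Not at hcon
  have hpre : IsPreconnected (segment ℝ g x) := (convex_segment g x).isPreconnected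
  have hsub : segment ℝ g x ⊆ interior K ∪ Kᶜ := by
    intro y hy
    rw [segment_eq_image'] at hy
    obtain ⟨τ, hτ, rfl⟩ := hy
    simp only at *
    by_contra hne
    simp only [mem_union, mem_compl_iff, not_or, not_not] at hne
    have hfr : g + τ • (x - g) ∈ frontier K := ⟨subset_closure hne.2, hne.1⟩
    rcases eq_or_lt_of_le hτ.1 with h | h
    · rw [← h, zero_smul, add_zero] at hne
      exact hne.1 hg
    · exact hcon τ h hτ.2 hfr
  obtain ⟨y, -, hy1, hy2⟩ := hpre (interior K) Kᶜ isOpen_interior hK.isOpen_compl hsub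
    ⟨g, left_mem_segment ℝ g x, hg⟩ ⟨x, right_mem_segment ℝ g x, hx⟩
  exact hy2 (interior_subset hy1)

/-! ### Real inequalities -/

lemma barrier_ineq {a b g1 g2 : ℝ} (ha0 : 0 ≤ a) (hb0 : 0 ≤ b) (ha : a ≤ 23 / 20)
    (hb : b ≤ 23 / 20) (h1 : 3 * a + 2 * b ≤ 5) (h2 : 3 * b + 2 * a ≤ 5)
    (hg1 : |g1| ≤ 29 / 5000) (hg2 : |g2| ≤ 29 / 5000) :
    a ^ 2 + b ^ 2 - 2 - 2 * (a - 1) * g1 - 2 * (b - 1) * g2 ≤ 0 := by
  -- a symmetric statement, proved for `b ≤ a`
  have key : ∀ a b g1 g2 : ℝ, 0 ≤ a → 0 ≤ b → a ≤ 23 / 20 → b ≤ a → 3 * a + 2 * b ≤ 5 →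
      |g1| ≤ 29 / 5000 → |g2| ≤ 29 / 5000 →
      a ^ 2 + b ^ 2 - 2 - 2 * (a - 1) * g1 - 2 * (b - 1) * g2 ≤ 0 := by
    intro a b g1 g2 ha0 hb0 ha hba h1 hg1 hg2
    have hb1 : b ≤ 1 := by linarith
    obtain ⟨e, he⟩ : ∃ e, e = 1 - b := ⟨_, rfl⟩
    obtain ⟨t, ht⟩ : ∃ t, t = a - 1 := ⟨_, rfl⟩
    have he0 : 0 ≤ e := by linarith
    have e1 : |2 * (a - 1) * g1| ≤ 2 * |t| * (29 / 5000) := by
      rw [abs_mul, abs_mul, ← ht]
      have this : (0:ℝ) ≤ 2 * |t| := by positivity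
      have h2 : |(2:ℝ)| = 2 := abs_of_pos (by norm_num)
      rw [h2]
      exact mul_le_mul_of_nonneg_left hg1 this
    have e2 : |2 * (b - 1) * g2| ≤ 2 * e * (29 / 5000) := by
      rw [abs_mul, abs_mul]
      have h3 : |b - 1| = e := by rw [abs_of_nonpos (by linarith)]; linarith
      have h2 : |(2:ℝ)| = 2 := abs_of_pos (by norm_num)
      rw [h2, h3]
      exact mul_le_mul_of_nonneg_left hg2 (by positivity)
    have e3 := neg_abs_le (2 * (a - 1) * g1)
    have e4 := neg_abs_le (2 * (b - 1) * g2)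
    have e5 : a ^ 2 + b ^ 2 - 2 + 2 * |t| * (29 / 5000) + 2 * e * (29 / 5000) ≤ 0 := by
      have ha' : a = 1 + t := by linarith
      have hb' : b = 1 - e := by linarith
      rcases le_total t 0 with h | h
      · rw [abs_of_nonpos h, ha', hb']
        have ht1 : -1 ≤ t := by linarith
        have he1 : e ≤ 1 := by linarith
        nlinarith [mul_nonneg (neg_nonneg.mpr h) (show 0 ≤ 1 + t by linarith),
          mul_nonneg he0 (show 0 ≤ 1 - e by linarith)]
      · rw [abs_of_nonneg h, ha', hb']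
        have he1 : e ≤ 1 := by linarith
        have hte : 3 * t ≤ 2 * e := by linarith
        have ht1 : t ≤ 3 / 20 := by linarith
        rcases le_total e (9 / 40) with h5 | h5
        · have h6 : t ^ 2 ≤ e / 10 := by nlinarith
          have h7 : e ^ 2 ≤ 9 / 40 * e := by nlinarith
          nlinarith
        · have h6 : t ^ 2 ≤ 9 / 400 := by nlinarith
          have h7 : e ^ 2 ≤ 49 / 40 * e - 9 / 40 := by nlinarith
          nlinarith
    linarith
  rcases le_total b a with h | h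
  · exact key a b g1 g2 ha0 hb0 ha h h1 hg1 hg2
  · have := key b a g2 g1 hb0 ha0 hb h h2 hg2 hg1
    linarith

lemma corner_real {x1 x2 x3 a b g1 g2 g3 : ℝ} (hx : 2459 / 1000 < x1 + x2 + x3)
    (ha0 : 0 ≤ a) (hb0 : 0 ≤ b) (ha : a ≤ 23 / 20)
    (hb : b ≤ 23 / 20) (h1 : 3 * a + 2 * b ≤ 5) (h2 : 3 * b + 2 * a ≤ 5)
    (hg1 : |g1| ≤ 29 / 5000) (hg2 : |g2| ≤ 29 / 5000) (hg3 : |g3| ≤ 29 / 5000) :
    (a - g1) ^ 2 + (b - g2) ^ 2 + (0 - g3) ^ 2 <
      (x1 - g1) ^ 2 + (x2 - g2) ^ 2 + (x3 - g3) ^ 2 := by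
  have h3 := barrier_ineq ha0 hb0 ha hb h1 h2 hg1 hg2
  rw [abs_le] at hg1 hg2 hg3
  obtain ⟨S, hS⟩ : ∃ S, S = x1 + x2 + x3 - (g1 + g2 + g3) := ⟨_, rfl⟩
  have hS1 : 2459 / 1000 - (g1 + g2 + g3) < S := by linarith
  have hS0 : 0 ≤ 2459 / 1000 - (g1 + g2 + g3) := by linarith
  have h4 : S ^ 2 ≤ 3 * ((x1 - g1) ^ 2 + (x2 - g2) ^ 2 + (x3 - g3) ^ 2) := by
    have : S = (x1 - g1) + (x2 - g2) + (x3 - g3) := by linarith
    rw [this]
    nlinarith [sq_nonneg ((x1 - g1) - (x2 - g2)), sq_nonneg ((x1 - g1) - (x3 - g3)),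
      sq_nonneg ((x2 - g2) - (x3 - g3))]
  have h5 : (2459 / 1000 - (g1 + g2 + g3)) ^ 2 ≤ S ^ 2 := by
    apply pow_le_pow_left₀ hS0 hS1.le
  have s1 : g1 ^ 2 ≤ (29 / 5000) ^ 2 := by nlinarith
  have s2 : g2 ^ 2 ≤ (29 / 5000) ^ 2 := by nlinarith
  have s3 : g3 ^ 2 ≤ (29 / 5000) ^ 2 := by nlinarith
  have h6 : 3 * (2 - 2 * (g1 + g2) + g1 ^ 2 + g2 ^ 2 + g3 ^ 2)
      < (2459 / 1000 - (g1 + g2 + g3)) ^ 2 := by
    nlinarith [sq_nonneg (g1 + g2 + g3)]
  nlinarith

lemma zone_real {t z : ℝ} (hz : 0 ≤ z) (hzt : z ≤ t)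
    (h : t ^ 2 + t ^ 2 + z ^ 2 ≤ (5779 / 5000) ^ 2) :
    (61 / 1000 : ℝ) < 4 * ((1 - (t + 29 / 5000)) * (1 - (t + 29 / 5000)) *
      (1 - (z + 29 / 5000))) ∧ t + 29 / 5000 < 1 := by
  have ht0 : 0 ≤ t := hz.trans hzt
  have ht1 : t ≤ 8175 / 10000 := by nlinarith
  have hz1 : z ≤ 6675 / 10000 := by nlinarith
  refine ⟨?_, by linarith⟩
  rcases le_total t (3 / 4) with h1 | h1
  · have e1 : (2442 / 10000 : ℝ) ≤ 1 - (t + 29 / 5000) := by linarith
    have e2 : (3267 / 10000 : ℝ) ≤ 1 - (z + 29 / 5000) := by linarith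
    have e3 : (2442 / 10000 : ℝ) ^ 2 ≤ (1 - (t + 29 / 5000)) * (1 - (t + 29 / 5000)) := by
      nlinarith
    have e4 : (2442 / 10000 : ℝ) ^ 2 * (3267 / 10000) ≤
        (1 - (t + 29 / 5000)) * (1 - (t + 29 / 5000)) * (1 - (z + 29 / 5000)) := by
      apply mul_le_mul e3 e2 (by norm_num) (by nlinarith)
    norm_num at e4 ⊢
    linarith
  · have hz2 : z ≤ 46 / 100 := by nlinarith
    have e1 : (1767 / 10000 : ℝ) ≤ 1 - (t + 29 / 5000) := by linarith
    have e2 : (5342 / 10000 : ℝ) ≤ 1 - (z + 29 / 5000) := by linarith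
    have e3 : (1767 / 10000 : ℝ) ^ 2 ≤ (1 - (t + 29 / 5000)) * (1 - (t + 29 / 5000)) := by
      nlinarith
    have e4 : (1767 / 10000 : ℝ) ^ 2 * (5342 / 10000) ≤
        (1 - (t + 29 / 5000)) * (1 - (t + 29 / 5000)) * (1 - (z + 29 / 5000)) := by
      apply mul_le_mul e3 e2 (by norm_num) (by nlinarith)
    norm_num at e4 ⊢
    linarith

/-! ### Volumes of the corner regions -/

def cornerSet (σ : Fin 3 → Bool) : Set E3 :=
  {x | x ∈ bodyK (23 / 20) ∧ 2459 / 1000 < sg (σ 0) * x 0 + sg (σ 1) * x 1 + sg (σ 2) * x 2}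

lemma measurePreserving_sg (b : Bool) : MeasurePreserving (fun t : ℝ => sg b * t) := by
  cases b
  · have : (fun t : ℝ => sg false * t) = fun t => -t := by ext t; simp [sg]
    rw [this]; exact Measure.measurePreserving_neg volume
  · have : (fun t : ℝ => sg true * t) = id := by ext t; simp [sg]
    rw [this]; exact MeasurePreserving.id volume

lemma volume_cornerSet (σ : Fin 3 → Bool) : ENNReal.ofReal 0.0624 ≤ volume (cornerSet σ) := by
  set C : Set (Fin 3 → ℝ) := {x : Fin 3 → ℝ | (∀ i, |x i| ≤ 23/20) ∧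
    (∀ i j, i ≠ j → 3*|x i| + 2*|x j| ≤ 5) ∧ 2459/1000 < x 0 + x 1 + x 2} with hC
  have hCm : MeasurableSet C := by
    have : C = (⋂ i, {x : Fin 3 → ℝ | |x i| ≤ 23/20}) ∩
        ((⋂ i, ⋂ j, ⋂ (_ : i ≠ j), {x : Fin 3 → ℝ | 3*|x i| + 2*|x j| ≤ 5}) ∩
        {x : Fin 3 → ℝ | 2459/1000 < x 0 + x 1 + x 2}) := by
      ext x; simp [hC]
    rw [this]
    apply MeasurableSet.inter
    · exact MeasurableSet.iInter fun i => (isClosed_le (by fun_prop) continuous_const).measurableSet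
    · apply MeasurableSet.inter
      · exact MeasurableSet.iInter fun i => MeasurableSet.iInter fun j =>
          MeasurableSet.iInter fun _ => (isClosed_le (by fun_prop) continuous_const).measurableSet
      · exact (isOpen_lt continuous_const (by fun_prop)).measurableSet
  have hmp : MeasurePreserving (fun (x : Fin 3 → ℝ) i => sg (σ i) * x i) :=
    volume_preserving_pi (fun i => measurePreserving_sg (σ i))
  have habs : ∀ (b : Bool) (t : ℝ), |sg b * t| = |t| := by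
    intro b t; rw [abs_mul, abs_sg, one_mul]
  have hpre : cornerSet σ = {x : E3 | (fun i => x i) ∈
      (fun (x : Fin 3 → ℝ) i => sg (σ i) * x i) ⁻¹' C} := by
    ext x
    simp only [cornerSet, bodyK, hC, mem_ofPred_eq, mem_preimage, habs]
    tauto
  rw [hpre, volume_E3 (hmp.measurable hCm), hmp.measure_preimage hCm.nullMeasurableSet]
  exact Pool.Agent.Helper27.Cube.corner_vol

lemma volume_bodyK_le : volume (bodyK (23 / 20)) ≤ ENNReal.ofReal (12167 / 1000) := by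
  have : bodyK (23 / 20) ⊆ box 0 (fun _ => 23 / 20) := by
    intro x hx i
    simpa using hx.1 i
  refine (measure_mono this).trans ?_
  rw [volume_box _ _ (fun _ => by norm_num)]
  apply ENNReal.ofReal_le_ofReal
  norm_num

lemma volume_bodyK_pos : 0 < (volume (bodyK (23 / 20))).toReal := by
  have h1 : volume cube ≤ volume (bodyK (23 / 20)) :=
    measure_mono (cube_subset_bodyK (by norm_num))
  rw [volume_cube] at h1
  have h2 : volume (bodyK (23 / 20)) ≠ ⊤ := (isCompact_bodyK _).measure_lt_top.ne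
  have := ENNReal.toReal_mono h2 h1
  rw [ENNReal.toReal_ofReal (by norm_num)] at this
  linarith

end Pool.Agent.Helper16.Rob
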