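import Pool.Agent.Helper16.RobFun

open MeasureTheory Set Metric Filter
open scoped ENNReal ContDiff Topology

namespace Pool.Agent.Helper16.Rob

lemma P_sub_ge {x y : ℝ} (h : x ≤ y) : (y - x) * P1 x ≤ P y - P x := by
  rcases eq_or_lt_of_le h with rfl | h
  · simp
  obtain ⟨c, hc, hc'⟩ := exists_hasDerivAt_eq_slope P P1 h
    (fun t _ => (hasDerivAt_P t).continuousAt.continuousWithinAt) (fun t _ => hasDerivAt_P t)
  rw [eq_div_iff (sub_pos.mpr h).ne'] at hc'
  rw [← hc', mul_comm]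
  exact mul_le_mul_of_nonneg_right (P1_mono hc.1.le) (sub_pos.mpr h).le

lemma P_sub_le {x y : ℝ} (h : x ≤ y) : P y - P x ≤ (y - x) * P1 y := by
  rcases eq_or_lt_of_le h with rfl | h
  · simp
  obtain ⟨c, hc, hc'⟩ := exists_hasDerivAt_eq_slope P P1 h
    (fun t _ => (hasDerivAt_P t).continuousAt.continuousWithinAt) (fun t _ => hasDerivAt_P t)
  rw [eq_div_iff (sub_pos.mpr h).ne'] at hc'
  rw [← hc', mul_comm (P1 c)]
  exact mul_le_mul_of_nonneg_left (P1_mono hc.2.le) (sub_pos.mpr h).le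

lemma P1_sub_le {x y C : ℝ} (h : x ≤ y) (hC : ∀ t, x ≤ t → t ≤ y → P2 t ≤ C) :
    P1 y - P1 x ≤ (y - x) * C := by
  rcases eq_or_lt_of_le h with rfl | h
  · simp
  obtain ⟨c, hc, hc'⟩ := exists_hasDerivAt_eq_slope P1 P2 h
    (fun t _ => (hasDerivAt_P1 t).continuousAt.continuousWithinAt) (fun t _ => hasDerivAt_P1 t)
  rw [eq_div_iff (sub_pos.mpr h).ne'] at hc'
  rw [← hc', mul_comm (P2 c)]
  exact mul_le_mul_of_nonneg_left (hC c hc.1.le hc.2.le) (sub_pos.mpr h).le

lemma P_strictMono {x y : ℝ} (hy : 0 < y) (h : x < y) : P x < P y := by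
  rcases le_or_gt x 0 with hx | hx
  · rw [P_nonpos hx]; exact P_pos hy
  · have := P_sub_ge h.le
    have := mul_pos (sub_pos.mpr h) (P1_pos hx)
    linarith

lemma P_convex : ConvexOn ℝ univ P := by
  apply MonotoneOn.convexOn_of_deriv convex_univ
    (fun t _ => (hasDerivAt_P t).continuousAt.continuousWithinAt)
    (fun t _ => (hasDerivAt_P t).differentiableAt.differentiableWithinAt)
  have : deriv P = P1 := by ext t; exact (hasDerivAt_P t).deriv
  rw [this]
  exact P1_mono.monotoneOn _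

/-- Upper bound of the second derivative away from zero. -/
lemma P2_le {s : ℝ} (hs : 1 / 200 ≤ s) : P2 s ≤ 2 + 1 / 1000000 := by
  have hs0 : (0:ℝ) < s := by linarith
  rw [P2]
  have h1 : ep / s ≤ 1 / 5000000000 := by
    rw [div_le_div_iff₀ hs0 (by norm_num), ep]; linarith
  have h2 : 0 < ep / s := div_pos ep_pos hs0
  have h3 := glue_le_one s
  have h4 := glue_nonneg s
  have h5 : 2 + 2 * (ep / s) + (ep / s) ^ 2 ≤ 2 + 1 / 1000000 := by nlinarith
  have h6 : 0 ≤ 2 + 2 * (ep / s) + (ep / s) ^ 2 := by positivity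
  calc (2 + 2 * (ep / s) + (ep / s) ^ 2) * expNegInvGlue (s / ep)
      ≤ (2 + 2 * (ep / s) + (ep / s) ^ 2) * 1 := mul_le_mul_of_nonneg_left h3 h6
    _ ≤ _ := by linarith

/-! ### The data -/

/-- Centres. -/
noncomputable def cc : Fin 3 → ℝ := ![-(1 / 100), -(1 / 20), -(1 / 20)]
/-- Thickness of the wall layers. -/
noncomputable def de : ℝ := 1 / 1000000000
/-- Position of the walls. -/
noncomputable def bb : ℝ := 1 - de
/-- Coefficients. -/
noncomputable def AA (i : Fin 3) : ℝ := 1 / P (1 - cc i)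
/-- Coefficient of the walls. -/
noncomputable def MM : ℝ := 3 / P de
/-- The level. -/
noncomputable def kk : ℝ := 2 + 1 / 100000

/-- The coordinate functions. -/
noncomputable def phi (i : Fin 3) (t : ℝ) : ℝ :=
  AA i * P (t - cc i) + MM * P (t - bb) + MM * P (-t - bb)
/-- First derivative. -/
noncomputable def phi1 (i : Fin 3) (t : ℝ) : ℝ :=
  AA i * P1 (t - cc i) + MM * P1 (t - bb) - MM * P1 (-t - bb)
/-- Second derivative. -/
noncomputable def phi2 (i : Fin 3) (t : ℝ) : ℝ :=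
  AA i * P2 (t - cc i) + MM * P2 (t - bb) + MM * P2 (-t - bb)

lemma cc_zero : cc 0 = -(1 / 100) := rfl
lemma cc_one : cc 1 = -(1 / 20) := rfl
lemma cc_two : cc 2 = -(1 / 20) := rfl

lemma cc_le (i : Fin 3) : cc i ≤ -(1 / 100) := by
  fin_cases i
  · exact le_of_eq cc_zero
  · exact (le_of_eq cc_one).trans (by norm_num)
  · exact (le_of_eq cc_two).trans (by norm_num)

lemma cc_ge (i : Fin 3) : -(1 / 20) ≤ cc i := by
  fin_cases i
  · exact le_trans (by norm_num) (ge_of_eq cc_zero)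
  · exact ge_of_eq cc_one
  · exact ge_of_eq cc_two

lemma cc_ne {i : Fin 3} (hi : i ≠ 0) : cc i = -(1 / 20) := by
  fin_cases i
  · exact absurd rfl hi
  · exact cc_one
  · exact cc_two

lemma de_pos : 0 < de := by norm_num [de]
lemma bb_eq : bb = 1 - 1 / 1000000000 := by rw [bb, de]

lemma P_one_sub_cc_pos (i : Fin 3) : 0 < P (1 - cc i) := P_pos (by have := cc_le i; linarith)

lemma AA_pos (i : Fin 3) : 0 < AA i := one_div_pos.mpr (P_one_sub_cc_pos i)

lemma AA_mul (i : Fin 3) : AA i * P (1 - cc i) = 1 := by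
  rw [AA, one_div, inv_mul_cancel₀ (P_one_sub_cc_pos i).ne']

lemma AA_zero : 9802 / 10000 ≤ AA 0 ∧ AA 0 ≤ 9803 / 10000 := by
  have h1 := P_le (1 - cc 0)
  have h2 := P_ge (show (0:ℝ) < 1 - cc 0 by rw [cc_zero]; norm_num)
  have h3 := P_one_sub_cc_pos 0
  rw [AA]
  rw [cc_zero, ep] at *
  constructor
  · rw [le_div_iff₀ h3]; linarith
  · rw [div_le_iff₀ h3]; linarith

lemma AA_ne {i : Fin 3} (hi : i ≠ 0) : 9070 / 10000 ≤ AA i ∧ AA i ≤ 9071 / 10000 := by
  have h0 := cc_ne hi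
  have h1 := P_le (1 - cc i)
  have h2 := P_ge (show (0:ℝ) < 1 - cc i by rw [h0]; norm_num)
  have h3 := P_one_sub_cc_pos i
  rw [AA]
  rw [h0, ep] at *
  constructor
  · rw [le_div_iff₀ h3]; linarith
  · rw [div_le_iff₀ h3]; linarith

lemma AA_ge (i : Fin 3) : 9070 / 10000 ≤ AA i := by
  rcases eq_or_ne i 0 with rfl | h
  · linarith [AA_zero.1]
  · exact (AA_ne h).1

lemma AA_le (i : Fin 3) : AA i ≤ 9803 / 10000 := by
  rcases eq_or_ne i 0 with rfl | h
  · exact AA_zero.2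
  · linarith [(AA_ne h).2]

lemma MM_pos : 0 < MM := div_pos (by norm_num) (P_pos de_pos)
lemma MM_mul : MM * P de = 3 := by rw [MM, div_mul_cancel₀ _ (P_pos de_pos).ne']

lemma bb_pos : 0 < bb := by rw [bb_eq]; norm_num

lemma phi_eq (i : Fin 3) (t : ℝ) : phi i t = AA i * P (t - cc i) + MM * P (|t| - bb) := by
  have hb := bb_pos
  rcases le_or_gt 0 t with h | h
  · rw [phi, P_nonpos (show -t - bb ≤ 0 by linarith), abs_of_nonneg h]; ring
  · rw [phi, P_nonpos (show t - bb ≤ 0 by linarith), abs_of_neg h]; ring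

lemma phi2_eq (i : Fin 3) (t : ℝ) : phi2 i t = AA i * P2 (t - cc i) + MM * P2 (|t| - bb) := by
  have hb := bb_pos
  rcases le_or_gt 0 t with h | h
  · rw [phi2, P2_nonpos (show -t - bb ≤ 0 by linarith), abs_of_nonneg h]; ring
  · rw [phi2, P2_nonpos (show t - bb ≤ 0 by linarith), abs_of_neg h]; ring

lemma phi1_of_ge {i : Fin 3} {t : ℝ} (h : -bb ≤ t) :
    phi1 i t = AA i * P1 (t - cc i) + MM * P1 (t - bb) := by
  rw [phi1, P1_nonpos (show -t - bb ≤ 0 by linarith)]; ring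

lemma phi1_of_lt {i : Fin 3} {t : ℝ} (h : t < -bb) : phi1 i t = -(MM * P1 (-t - bb)) := by
  have hb := bb_eq
  have hc := cc_ge i
  rw [phi1, P1_nonpos (show t - bb ≤ 0 by linarith), P1_nonpos (show t - cc i ≤ 0 by linarith)]
  ring

lemma abs_phi1 (i : Fin 3) (t : ℝ) : |phi1 i t| = AA i * P1 (t - cc i) + MM * P1 (|t| - bb) := by
  have hb := bb_eq
  have hc := cc_ge i
  rcases lt_or_ge t (-bb) with h | h
  · rw [phi1_of_lt h, abs_neg, abs_of_nonneg (mul_nonneg MM_pos.le (P1_nonneg _)),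
      P1_nonpos (show t - cc i ≤ 0 by linarith), abs_of_neg (show t < 0 by linarith)]
    ring
  · rw [phi1_of_ge h, abs_of_nonneg (add_nonneg (mul_nonneg (AA_pos i).le (P1_nonneg _))
      (mul_nonneg MM_pos.le (P1_nonneg _)))]
    rcases le_or_gt 0 t with h' | h'
    · rw [abs_of_nonneg h']
    · rw [abs_of_neg h', P1_nonpos (show t - bb ≤ 0 by linarith),
        P1_nonpos (show -t - bb ≤ 0 by linarith)]

lemma phi_nonneg (i : Fin 3) (t : ℝ) : 0 ≤ phi i t := by
  rw [phi_eq]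
  exact add_nonneg (mul_nonneg (AA_pos i).le (P_nonneg _)) (mul_nonneg MM_pos.le (P_nonneg _))

lemma hasDerivAt_phi (i : Fin 3) (t : ℝ) : HasDerivAt (phi i) (phi1 i t) t := by
  have h1 : HasDerivAt (fun t : ℝ => P (t - cc i)) (P1 (t - cc i)) t := by
    have := (hasDerivAt_P (t - cc i)).comp t ((hasDerivAt_id t).sub_const (cc i))
    rwa [mul_one] at this
  have h2 : HasDerivAt (fun t : ℝ => P (t - bb)) (P1 (t - bb)) t := by
    have := (hasDerivAt_P (t - bb)).comp t ((hasDerivAt_id t).sub_const bb)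
    rwa [mul_one] at this
  have h3 : HasDerivAt (fun t : ℝ => P (-t - bb)) (-P1 (-t - bb)) t := by
    have := (hasDerivAt_P (-t - bb)).comp t ((hasDerivAt_id t).neg.sub_const bb)
    rwa [mul_neg, mul_one] at this
  have h4 := ((h1.const_mul (AA i)).add (h2.const_mul MM)).add (h3.const_mul MM)
  have e : AA i * P1 (t - cc i) + MM * P1 (t - bb) + MM * -P1 (-t - bb) = phi1 i t := by
    rw [phi1]; ring
  rw [e] at h4
  exact h4

lemma hasDerivAt_phi1 (i : Fin 3) (t : ℝ) : HasDerivAt (phi1 i) (phi2 i t) t := by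
  have h1 : HasDerivAt (fun t : ℝ => P1 (t - cc i)) (P2 (t - cc i)) t := by
    have := (hasDerivAt_P1 (t - cc i)).comp t ((hasDerivAt_id t).sub_const (cc i))
    rwa [mul_one] at this
  have h2 : HasDerivAt (fun t : ℝ => P1 (t - bb)) (P2 (t - bb)) t := by
    have := (hasDerivAt_P1 (t - bb)).comp t ((hasDerivAt_id t).sub_const bb)
    rwa [mul_one] at this
  have h3 : HasDerivAt (fun t : ℝ => P1 (-t - bb)) (-P2 (-t - bb)) t := by
    have := (hasDerivAt_P1 (-t - bb)).comp t ((hasDerivAt_id t).neg.sub_const bb)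
    rwa [mul_neg, mul_one] at this
  have h4 := ((h1.const_mul (AA i)).add (h2.const_mul MM)).sub (h3.const_mul MM)
  have e : AA i * P2 (t - cc i) + MM * P2 (t - bb) - MM * -P2 (-t - bb) = phi2 i t := by
    rw [phi2]; ring
  rw [e] at h4
  exact h4

lemma contDiff_phi (i : Fin 3) : ContDiff ℝ ∞ (phi i) := by
  have h1 : ContDiff ℝ ∞ (fun t : ℝ => P (t - cc i)) :=
    contDiff_P.comp (contDiff_id.sub contDiff_const)
  have h2 : ContDiff ℝ ∞ (fun t : ℝ => P (t - bb)) :=
    contDiff_P.comp (contDiff_id.sub contDiff_const)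
  have h3 : ContDiff ℝ ∞ (fun t : ℝ => P (-t - bb)) :=
    contDiff_P.comp (contDiff_id.neg.sub contDiff_const)
  exact ((contDiff_const.mul h1).add (contDiff_const.mul h2)).add (contDiff_const.mul h3)

lemma phi_convex (i : Fin 3) : ConvexOn ℝ univ (phi i) := by
  apply MonotoneOn.convexOn_of_deriv convex_univ
    (fun t _ => (hasDerivAt_phi i t).continuousAt.continuousWithinAt)
    (fun t _ => (hasDerivAt_phi i t).differentiableAt.differentiableWithinAt)
  have : deriv (phi i) = phi1 i := by ext t; exact (hasDerivAt_phi i t).deriv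
  rw [this]
  apply Monotone.monotoneOn
  apply monotone_of_hasDerivAt_nonneg (hasDerivAt_phi1 i)
  intro t
  show 0 ≤ phi2 i t
  rw [phi2_eq]
  exact add_nonneg (mul_nonneg (AA_pos i).le (P2_nonneg _)) (mul_nonneg MM_pos.le (P2_nonneg _))

end Pool.Agent.Helper16.Rob
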