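import Pool.Agent.Helper16.RobQ1
import Pool.Agent.Helper16.RobBodyK2

open MeasureTheory Set Metric Filter
open scoped ENNReal ContDiff Topology

namespace Pool.Agent.Helper16.Rob

/-- The equations of an equilibrium `q` with centre of gravity `g` and multiplier `lam`. -/
structure Pt (g q : Fin 3 → ℝ) (lam : ℝ) : Prop where
  hg : ∀ i, |g i| ≤ 1 / 200
  pos : 0 < lam
  eqn : ∀ i, q i - g i = lam * phi1 i (q i)
  sum : phi 0 (q 0) + phi 1 (q 1) + phi 2 (q 2) = kk

/-- The wall weights. -/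
noncomputable def ww (t : ℝ) : ℝ := MM * P (|t| - bb)

lemma ww_nonneg (t : ℝ) : 0 ≤ ww t := mul_nonneg MM_pos.le (P_nonneg _)

lemma ww_zero {t : ℝ} (ht : |t| ≤ bb) : ww t = 0 := by
  rw [ww, P_nonpos (by linarith), mul_zero]

lemma phi_eq' (i : Fin 3) (t : ℝ) : phi i t = AA i * P (t - cc i) + ww t := phi_eq i t

lemma AP_nonneg (i : Fin 3) (t : ℝ) : 0 ≤ AA i * P (t - cc i) :=
  mul_nonneg (AA_pos i).le (P_nonneg _)

lemma AP_le_one {i : Fin 3} {t : ℝ} (ht : t ≤ 1) : AA i * P (t - cc i) ≤ 1 := by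
  rw [← AA_mul i]
  exact mul_le_mul_of_nonneg_left (P_mono (by linarith)) (AA_pos i).le

lemma P2_le' {i : Fin 3} {t : ℝ} (ht : bb < |t|) : P2 (t - cc i) ≤ 2 + 1 / 1000000 := by
  have hb := bb_eq
  have hc := cc_ge i
  have hc' := cc_le i
  rcases le_or_gt 0 t with h | h
  · rw [abs_of_nonneg h] at ht
    exact P2_le (by linarith)
  · rw [abs_of_neg h] at ht
    rw [P2_nonpos (by linarith)]; norm_num

namespace Pt
variable {g q : Fin 3 → ℝ} {lam : ℝ}

lemma sum' (h : Pt g q lam) {i j k : Fin 3} (hij : i ≠ j) (hik : i ≠ k) (hjk : j ≠ k) :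
    phi i (q i) + phi j (q j) + phi k (q k) = kk := by
  rw [← fin3_sum (fun i => phi i (q i)) i j k hij hik hjk]; exact h.sum

lemma g_le (h : Pt g q lam) (i : Fin 3) : g i ≤ 1 / 200 := (abs_le.mp (h.hg i)).2
lemma g_ge (h : Pt g q lam) (i : Fin 3) : -(1 / 200) ≤ g i := (abs_le.mp (h.hg i)).1

lemma phi_le_kk (h : Pt g q lam) (i : Fin 3) : phi i (q i) ≤ kk := by
  have h0 := phi_nonneg 0 (q 0)
  have h1 := phi_nonneg 1 (q 1)
  have h2 := phi_nonneg 2 (q 2)
  have h3 := h.sum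
  fin_cases i
  · show phi 0 (q 0) ≤ kk; linarith
  · show phi 1 (q 1) ≤ kk; linarith
  · show phi 2 (q 2) ≤ kk; linarith

lemma abs_lt_one (h : Pt g q lam) (i : Fin 3) : |q i| < 1 := by
  by_contra hcon
  push Not at hcon
  have h1 := h.phi_le_kk i
  rw [phi_eq] at h1
  have h2 := P_mono (show de ≤ |q i| - bb by rw [bb]; linarith)
  have h3 := mul_le_mul_of_nonneg_left h2 MM_pos.le
  rw [MM_mul] at h3
  have h4 := AP_nonneg i (q i)
  rw [kk] at h1
  linarith

lemma depth_lt (h : Pt g q lam) (i : Fin 3) : |q i| - bb < de := by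
  have := h.abs_lt_one i
  rw [bb]; linarith

lemma dist_eq (h : Pt g q lam) (i : Fin 3) :
    |q i - g i| = lam * (AA i * P1 (q i - cc i)) + lam * (MM * P1 (|q i| - bb)) := by
  rw [h.eqn i, abs_mul, abs_of_pos h.pos, abs_phi1]; ring

lemma dist_le (h : Pt g q lam) (i : Fin 3) : |q i - g i| ≤ 1005 / 1000 := by
  have h1 := h.abs_lt_one i
  have h2 := h.hg i
  have h3 := abs_sub (q i) (g i)
  linarith

lemma AP1_nonneg (h : Pt g q lam) (i : Fin 3) : 0 ≤ lam * (AA i * P1 (q i - cc i)) :=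
  mul_nonneg h.pos.le (mul_nonneg (AA_pos i).le (P1_nonneg _))

lemma MP1_nonneg (h : Pt g q lam) (i : Fin 3) : 0 ≤ lam * (MM * P1 (|q i| - bb)) :=
  mul_nonneg h.pos.le (mul_nonneg MM_pos.le (P1_nonneg _))

lemma MP1_le (h : Pt g q lam) (i : Fin 3) : lam * (MM * P1 (|q i| - bb)) ≤ 1005 / 1000 := by
  have h1 := h.dist_eq i
  have h2 := h.dist_le i
  have h3 := h.AP1_nonneg i
  linarith

lemma wall_prod (h : Pt g q lam) (i : Fin 3) : lam * ww (q i) ≤ 5025 / 10000 * de := by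
  rcases le_or_gt (|q i| - bb) 0 with hs | hs
  · rw [ww, P_nonpos hs, mul_zero, mul_zero]
    have := de_pos; positivity
  · have h1 := two_P_le hs.le
    have h4 := h.MP1_le i
    have h5 := h.depth_lt i
    have h7 := h.MP1_nonneg i
    have h6 : 2 * (lam * ww (q i)) ≤ (|q i| - bb) * (lam * (MM * P1 (|q i| - bb))) := by
      have := mul_le_mul_of_nonneg_left h1 (mul_pos h.pos MM_pos).le
      rw [ww]; linarith
    have h8 : (|q i| - bb) * (lam * (MM * P1 (|q i| - bb))) ≤ de * (1005 / 1000) :=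
      mul_le_mul h5.le h4 h7 de_pos.le
    linarith

lemma lam_mul_le (h : Pt g q lam) {c : ℝ} {i : Fin 3} (hw : c ≤ ww (q i)) :
    lam * c ≤ 5025 / 10000 * de :=
  (mul_le_mul_of_nonneg_left hw h.pos.le).trans (h.wall_prod i)

lemma lam_small (h : Pt g q lam) {i : Fin 3} (hw : 1 / 300000 ≤ ww (q i)) :
    lam ≤ 151 / 1000000 := by
  have := h.lam_mul_le hw
  rw [de] at this; linarith

lemma lt_of_not_N (h : Pt g q lam) {i : Fin 3} (hi : -bb ≤ q i) : g i < q i := by
  have h1 := h.eqn i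
  rw [phi1_of_ge hi] at h1
  have h2 : 0 ≤ AA i * P1 (q i - cc i) := mul_nonneg (AA_pos i).le (P1_nonneg _)
  have h3 : 0 ≤ MM * P1 (q i - bb) := mul_nonneg MM_pos.le (P1_nonneg _)
  have h4 : g i ≤ q i := by
    have := mul_nonneg h.pos.le (add_nonneg h2 h3)
    linarith
  have h5 : 0 < AA i * P1 (q i - cc i) := by
    apply mul_pos (AA_pos i) (P1_pos _)
    have := h.g_ge i; have := cc_le i; linarith
  have := mul_pos h.pos (add_pos_of_pos_of_nonneg h5 h3)
  linarith

lemma L_lt (h : Pt g q lam) {i : Fin 3} (hi : |q i| ≤ bb) : g i < q i :=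
  h.lt_of_not_N (abs_le.mp hi).1

lemma L_dist (h : Pt g q lam) {i : Fin 3} (hi : |q i| ≤ bb) :
    q i - g i = lam * (AA i * P1 (q i - cc i)) := by
  rw [h.eqn i, phi1_of_ge (abs_le.mp hi).1, P1_nonpos (show q i - bb ≤ 0 by
    linarith [(abs_le.mp hi).2])]
  ring

lemma L_u (h : Pt g q lam) {i : Fin 3} (hi : |q i| ≤ bb) : 1 / 200 < q i - cc i := by
  have := h.L_lt hi
  have := h.g_ge i; have := cc_le i; linarith

lemma L_phi2 {i : Fin 3} (hi : |q i| ≤ bb) : phi2 i (q i) = AA i * P2 (q i - cc i) := by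
  rw [phi2_eq, P2_nonpos (show |q i| - bb ≤ 0 by linarith)]; ring

lemma L_phi {i : Fin 3} (hi : |q i| ≤ bb) : phi i (q i) = AA i * P (q i - cc i) := by
  rw [phi_eq', ww_zero hi, add_zero]

lemma box_L (h : Pt g q lam) (hl : lam ≤ 151 / 1000000) {i : Fin 3} (hi : |q i| ≤ bb) :
    q i - cc i ≤ 56 / 1000 ∧ q i - g i ≤ 11 / 100 * lam ∧
      99 / 100 ≤ 1 - lam * phi2 i (q i) ∧ phi i (q i) ≤ 31 / 10000 := by
  have hu := h.L_u hi
  have hu0 : 0 < q i - cc i := by linarith
  have h1 := h.L_dist hi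
  have h2 := P1_le hu0
  have hA := AA_le i
  have hA0 := AA_pos i
  have hg := h.g_le i
  have hc := cc_ge i
  have hpos := h.pos
  have h3 : q i - g i ≤ lam * (9803 / 10000 * (2 * (q i - cc i))) := by
    rw [h1]
    apply mul_le_mul_of_nonneg_left _ hpos.le
    exact mul_le_mul hA h2 (P1_nonneg _) (by norm_num)
  have h4 : lam * (9803 / 10000 * (2 * (q i - cc i)))
      ≤ 151 / 1000000 * (9803 / 10000 * (2 * (q i - cc i))) :=
    mul_le_mul_of_nonneg_right hl (by positivity)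
  have h5 : q i - cc i ≤ 56 / 1000 := by linarith
  refine ⟨h5, ?_, ?_, ?_⟩
  · have : lam * (9803 / 10000 * (2 * (q i - cc i))) ≤ lam * (11 / 100) := by
      apply mul_le_mul_of_nonneg_left _ hpos.le
      linarith
    linarith
  · rw [L_phi2 hi]
    have h6 := P2_le hu.le
    have h7 : AA i * P2 (q i - cc i) ≤ 9803 / 10000 * (2 + 1 / 1000000) :=
      mul_le_mul hA h6 (P2_nonneg _) (by norm_num)
    have h8 : lam * (AA i * P2 (q i - cc i)) ≤ 151 / 1000000 * (9803 / 10000 * (2 + 1 / 1000000)) :=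
      mul_le_mul hl h7 (mul_nonneg hA0.le (P2_nonneg _)) (by norm_num)
    linarith
  · rw [L_phi hi]
    have h6 := P_le (q i - cc i)
    have h7 : (q i - cc i) ^ 2 ≤ (56 / 1000) ^ 2 := pow_le_pow_left₀ hu0.le h5 2
    have h8 : AA i * P (q i - cc i) ≤ 9803 / 10000 * (56 / 1000) ^ 2 :=
      mul_le_mul hA (h6.trans h7) (P_nonneg _) (by norm_num)
    linarith

lemma wall_dist (h : Pt g q lam) {i : Fin 3} (hi : bb < |q i|) : 994 / 1000 ≤ |q i - g i| := by
  have h1 := abs_sub_abs_le_abs_sub (q i) (g i)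
  have h2 := h.hg i
  have := bb_eq
  linarith

lemma P1_A_le (h : Pt g q lam) (i : Fin 3) : P1 (q i - cc i) ≤ 21 / 10 := by
  have h1 : q i - cc i ≤ 21 / 20 := by
    have := (abs_lt.mp (h.abs_lt_one i)).2
    have := cc_ge i
    linarith
  have h2 := P1_mono h1
  have h3 := P1_le (show (0:ℝ) < 21 / 20 by norm_num)
  linarith

lemma box_W (h : Pt g q lam) (hl : lam ≤ 151 / 1000000) {i : Fin 3} (hi : bb < |q i|) :
    98 / 100 ≤ lam * (MM * P1 (|q i| - bb)) ∧ 1 - lam * phi2 i (q i) < 0 := by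
  have h1 := h.wall_dist hi
  have h2 := h.dist_eq i
  have h3 : lam * (AA i * P1 (q i - cc i)) ≤ 151 / 1000000 * (9803 / 10000 * (21 / 10)) := by
    apply mul_le_mul hl _ (mul_nonneg (AA_pos i).le (P1_nonneg _)) (by norm_num)
    exact mul_le_mul (AA_le i) (h.P1_A_le i) (P1_nonneg _) (by norm_num)
  have h4 : 98 / 100 ≤ lam * (MM * P1 (|q i| - bb)) := by linarith
  refine ⟨h4, ?_⟩
  have hs : 0 < |q i| - bb := by linarith
  have h5 := h.depth_lt i
  have h6 := P1_le_mul hs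
  rw [phi2_eq]
  have h7 : lam * (MM * P1 (|q i| - bb)) ≤ (|q i| - bb) * (lam * (MM * P2 (|q i| - bb))) := by
    have := mul_le_mul_of_nonneg_left h6 (mul_pos h.pos MM_pos).le
    linarith
  have h8 : 0 ≤ lam * (AA i * P2 (q i - cc i)) :=
    mul_nonneg h.pos.le (mul_nonneg (AA_pos i).le (P2_nonneg _))
  have h9 : 0 ≤ lam * (MM * P2 (|q i| - bb)) :=
    mul_nonneg h.pos.le (mul_nonneg MM_pos.le (P2_nonneg _))
  have h10 : (|q i| - bb) * (lam * (MM * P2 (|q i| - bb)))
      ≤ 1 / 1000000000 * (lam * (MM * P2 (|q i| - bb))) :=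
    mul_le_mul_of_nonneg_right (by rw [de] at h5; exact h5.le) h9
  linarith

/-- Walls of weight at least `0.49`. -/
lemma wall_big (h : Pt g q lam) (hl : lam ≤ 151 / 1000000) {i : Fin 3}
    (hw : 49 / 100 ≤ ww (q i)) :
    4 / 10 * de ≤ |q i| - bb ∧ lam ≤ 103 / 100 * de ∧ de * (lam * phi2 i (q i)) ≤ 26 / 10 := by
  have hs : 0 < |q i| - bb := by
    by_contra hcon
    push Not at hcon
    rw [ww, P_nonpos hcon] at hw
    norm_num at hw
  have hd := de_pos
  have h5 := h.depth_lt i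
  have h1 := P_scale h5.le hd
  have h2 : MM * P (|q i| - bb) ≤ 3 * ((|q i| - bb) / de) ^ 2 := by
    have := mul_le_mul_of_nonneg_left h1 MM_pos.le
    have e : MM * (((|q i| - bb) / de) ^ 2 * P de) = 3 * ((|q i| - bb) / de) ^ 2 := by
      rw [← MM_mul]; ring
    rwa [e] at this
  have h3 : 4 / 10 ≤ (|q i| - bb) / de := by
    by_contra hcon
    push Not at hcon
    have h0 : 0 ≤ (|q i| - bb) / de := by positivity
    rw [ww] at hw
    nlinarith
  have h4 : 4 / 10 * de ≤ |q i| - bb := by rwa [le_div_iff₀ hd] at h3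
  refine ⟨h4, ?_, ?_⟩
  · have := h.lam_mul_le hw
    linarith
  · have hbw : bb < |q i| := by linarith
    rw [phi2_eq]
    have h6 := mul_P2_le hs
    have h7 : ep / (|q i| - bb) ≤ 25 / 10000 := by
      rw [div_le_iff₀ hs]
      rw [de] at h4; rw [ep]; linarith
    have h8 := h.MP1_le i
    have h9 := h.MP1_nonneg i
    set X := lam * (MM * P2 (|q i| - bb)) with hX
    have hX0 : 0 ≤ X := mul_nonneg h.pos.le (mul_nonneg MM_pos.le (P2_nonneg _))
    have h10 : (|q i| - bb) * X ≤ (1 + 25 / 10000) * (1005 / 1000) := by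
      have e1 : (|q i| - bb) * X ≤ (1 + ep / (|q i| - bb)) * (lam * (MM * P1 (|q i| - bb))) := by
        have := mul_le_mul_of_nonneg_left h6 (mul_pos h.pos MM_pos).le
        rw [hX]; linarith
      refine e1.trans (mul_le_mul (by linarith) h8 h9 (by norm_num))
    have h11 : 4 / 10 * de * X ≤ (1 + 25 / 10000) * (1005 / 1000) :=
      (mul_le_mul_of_nonneg_right h4 hX0).trans h10
    have h12 : lam * (AA i * P2 (q i - cc i))
        ≤ 151 / 1000000 * (9803 / 10000 * (2 + 1 / 1000000)) := by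
      apply mul_le_mul hl _ (mul_nonneg (AA_pos i).le (P2_nonneg _)) (by norm_num)
      exact mul_le_mul (AA_le i) (P2_le' hbw) (P2_nonneg _) (by norm_num)
    have h13 : 0 ≤ lam * (AA i * P2 (q i - cc i)) :=
      mul_nonneg h.pos.le (mul_nonneg (AA_pos i).le (P2_nonneg _))
    have h14 : de * (lam * (AA i * P2 (q i - cc i))) ≤ 1 * (1 / 100) :=
      mul_le_mul (by rw [de]; norm_num) (by linarith) h13 (by norm_num)
    have e : de * (lam * (AA i * P2 (q i - cc i) + MM * P2 (|q i| - bb)))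
        = de * (lam * (AA i * P2 (q i - cc i))) + de * X := by rw [hX]; ring
    rw [e]
    linarith

/-- If some coordinate is at a negative wall then some wall carries a weight. -/
lemma exists_box_of_N (h : Pt g q lam) {i : Fin 3} (hi : q i < -bb) :
    ∃ j, 1 / 300000 ≤ ww (q j) := by
  by_contra hcon
  push Not at hcon
  obtain ⟨j, k, hij, hik, hjk⟩ : ∃ j k : Fin 3, i ≠ j ∧ i ≠ k ∧ j ≠ k := by
    fin_cases i
    · exact ⟨1, 2, by decide, by decide, by decide⟩
    · exact ⟨0, 2, by decide, by decide, by decide⟩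
    · exact ⟨0, 1, by decide, by decide, by decide⟩
  have h1 := h.sum' hij hik hjk
  rw [phi_eq', phi_eq', phi_eq'] at h1
  have h2 : AA i * P (q i - cc i) = 0 := by
    rw [P_nonpos (show q i - cc i ≤ 0 by
      have := cc_ge i; have := bb_eq; linarith), mul_zero]
  have h3 := AP_le_one (i := j) (abs_lt.mp (h.abs_lt_one j)).2.le
  have h4 := AP_le_one (i := k) (abs_lt.mp (h.abs_lt_one k)).2.le
  have := hcon i; have := hcon j; have := hcon k
  rw [kk] at h1
  linarith

lemma AP_W {i : Fin 3} (hi : bb < q i) : 1 - 3 / 1000000000 ≤ AA i * P (q i - cc i) := by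
  have h0 := cc_le i
  have h0' := cc_ge i
  have hb := bb_eq
  have h1 := P_mono (show bb - cc i ≤ q i - cc i by linarith)
  have h2 := P_sub_le (show bb - cc i ≤ 1 - cc i by linarith)
  have h3 := P1_le (show 0 < 1 - cc i by linarith)
  have h4 : P (1 - cc i) - P (bb - cc i) ≤ 1 / 1000000000 * (21 / 10) := by
    refine h2.trans (mul_le_mul (by linarith) (by linarith) (P1_nonneg _) (by norm_num))
  have h5 : AA i * (P (1 - cc i) - P (q i - cc i)) ≤ 1 * (3 / 1000000000) := by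
    have h6 : P (1 - cc i) - P (q i - cc i) ≤ 3 / 1000000000 := by linarith
    rcases le_or_gt 0 (P (1 - cc i) - P (q i - cc i)) with h7 | h7
    · exact mul_le_mul (by linarith [AA_le i]) h6 h7 (by norm_num)
    · have := mul_pos_of_neg_of_neg (neg_lt_zero.mpr (AA_pos i)) h7
      linarith
  rw [mul_sub, AA_mul] at h5
  linarith

/-- Without negative walls there is at most one wall. -/
lemma one_wall (h : Pt g q lam) (hN : ∀ i, -bb ≤ q i) {i j : Fin 3} (hij : i ≠ j)
    (hi : bb < q i) (hj : bb < q j) : False := by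
  obtain ⟨k, hik, hjk⟩ : ∃ k : Fin 3, i ≠ k ∧ j ≠ k := by
    fin_cases i <;> fin_cases j <;> first
      | exact absurd rfl hij
      | exact ⟨0, by decide, by decide⟩
      | exact ⟨1, by decide, by decide⟩
      | exact ⟨2, by decide, by decide⟩
  have h1 := h.sum' hij hik hjk
  rw [phi_eq', phi_eq', phi_eq'] at h1
  have h2 := AP_W (q := q) hi
  have h3 := AP_W (q := q) hj
  have h4 := h.lt_of_not_N (hN k)
  have h5 := h.g_ge k
  have h6 := cc_le k
  have h7 := P_mono (show (1:ℝ) / 200 ≤ q k - cc k by linarith)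
  have h8 := P_ge (show (0:ℝ) < 1 / 200 by norm_num)
  have h9 : 9070 / 10000 * (249 / 10000000) ≤ AA k * P (q k - cc k) := by
    apply mul_le_mul (AA_ge k) _ (by norm_num) (AA_pos k).le
    rw [ep] at h8; linarith
  have := ww_nonneg (q i)
  have := ww_nonneg (q j)
  have := ww_nonneg (q k)
  rw [kk] at h1
  linarith

lemma lam_le (h : Pt g q lam) (h0 : -bb ≤ q 0) : lam ≤ 5076 / 10000 := by
  have h1 := h.lt_of_not_N h0
  have h2 := h.g_ge 0
  have hc := cc_zero
  set u := q 0 - cc 0 with hu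
  have hu0 : 1 / 200 < u := by rw [hu, hc]; linarith
  have hu1 : u ≤ 101 / 100 := by
    have := (abs_lt.mp (h.abs_lt_one 0)).2
    rw [hu, hc]; linarith
  have hpu : 0 < u := by linarith
  have h3 := h.eqn 0
  rw [phi1_of_ge h0] at h3
  have h4 : 0 ≤ lam * (MM * P1 (q 0 - bb)) :=
    mul_nonneg h.pos.le (mul_nonneg MM_pos.le (P1_nonneg _))
  have h5 : lam * (AA 0 * P1 u) ≤ u - 1 / 200 := by
    have : q 0 - g 0 ≤ u - 1 / 200 := by rw [hu, hc]; linarith
    have e : lam * (AA 0 * P1 u + MM * P1 (q 0 - bb))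
      = lam * (AA 0 * P1 u) + lam * (MM * P1 (q 0 - bb)) := by ring
    rw [e] at h3
    linarith
  have h6 := P1_ge hpu
  have h7 : ep * (ep / u) ≤ ep := by
    have : ep / u ≤ 1 := by rw [div_le_one hpu, ep]; linarith
    have := mul_le_mul_of_nonneg_left this ep_pos.le
    linarith
  have h8 : 9802 / 10000 * (2 * u - 2 * ep) ≤ AA 0 * P1 u := by
    apply mul_le_mul AA_zero.1 (by linarith) _ (AA_pos 0).le
    rw [ep]; linarith
  have h9 : lam * (9802 / 10000 * (2 * u - 2 * ep)) ≤ u - 1 / 200 :=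
    (mul_le_mul_of_nonneg_left h8 h.pos.le).trans h5
  by_contra hcon
  push Not at hcon
  have h10 : 5076 / 10000 * (9802 / 10000 * (2 * u - 2 * ep))
      ≤ lam * (9802 / 10000 * (2 * u - 2 * ep)) := by
    apply mul_le_mul_of_nonneg_right hcon.le
    rw [ep]; linarith
  rw [ep] at h9 h10
  linarith

lemma L12 (h : Pt g q lam) (h0 : -bb ≤ q 0) {i : Fin 3} (hi0 : i ≠ 0) (hi : |q i| ≤ bb) :
    q i - cc i ≤ 6953 / 10000 ∧ phi i (q i) ≤ 4386 / 10000 := by
  have hl := h.lam_le h0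
  have hu := h.L_u hi
  have hu0 : 0 < q i - cc i := by linarith
  have h1 := h.L_dist hi
  have h2 := P1_le hu0
  have hA := (AA_ne hi0).2
  have hg := h.g_le i
  have hc := cc_ge i
  have h3 : q i - g i ≤ 5076 / 10000 * (9071 / 10000 * (2 * (q i - cc i))) := by
    rw [h1]
    apply mul_le_mul hl _ (mul_nonneg (AA_pos i).le (P1_nonneg _)) (by norm_num)
    exact mul_le_mul hA h2 (P1_nonneg _) (by norm_num)
  have h5 : q i - cc i ≤ 6953 / 10000 := by linarith
  refine ⟨h5, ?_⟩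
  rw [L_phi hi]
  have h6 := P_le (q i - cc i)
  have h7 : (q i - cc i) ^ 2 ≤ (6953 / 10000) ^ 2 := pow_le_pow_left₀ hu0.le h5 2
  have h8 : AA i * P (q i - cc i) ≤ 9071 / 10000 * (6953 / 10000) ^ 2 :=
    mul_le_mul hA (h6.trans h7) (P_nonneg _) (by norm_num)
  linarith

/-- There is at least one wall. -/
lemma exists_wall (h : Pt g q lam) : ∃ i, bb < |q i| := by
  by_contra hcon
  push Not at hcon
  have h0 := (abs_le.mp (hcon 0)).1
  have h1 := h.L12 h0 (i := 1) (by decide) (hcon 1)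
  have h2 := h.L12 h0 (i := 2) (by decide) (hcon 2)
  have h3 := L_phi (hcon 0)
  have h4 := AP_le_one (i := 0) (abs_lt.mp (h.abs_lt_one 0)).2.le
  have h5 := h.sum
  rw [kk] at h5
  linarith [h1.2, h2.2]

/-- A single wall in direction `0` carries a weight. -/
lemma box_of_zero (h : Pt g q lam) (h1 : |q 1| ≤ bb) (h2 : |q 2| ≤ bb) :
    1 / 300000 ≤ ww (q 0) := by
  rcases lt_or_ge (q 0) (-bb) with h0 | h0
  · obtain ⟨j, hj⟩ := h.exists_box_of_N h0
    fin_cases j
    · exact hj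
    · exfalso
      have hj' : 1 / 300000 ≤ ww (q 1) := hj
      rw [ww_zero h1] at hj'; norm_num at hj'
    · exfalso
      have hj' : 1 / 300000 ≤ ww (q 2) := hj
      rw [ww_zero h2] at hj'; norm_num at hj'
  · have h3 := h.L12 h0 (i := 1) (by decide) h1
    have h4 := h.L12 h0 (i := 2) (by decide) h2
    have h5 := AP_le_one (i := 0) (abs_lt.mp (h.abs_lt_one 0)).2.le
    have h6 := h.sum
    rw [phi_eq' 0, kk] at h6
    linarith [h3.2, h4.2]

/-- The remaining equilibria with a single wall. -/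
lemma arc (h : Pt g q lam) {j l : Fin 3} (hj0 : j ≠ 0) (hl0 : l ≠ 0) (hjl : j ≠ l)
    (h0 : |q 0| ≤ bb) (hj : bb < |q j|) (hl : |q l| ≤ bb) (hw : ww (q j) < 1 / 300000) :
    74 / 100 ≤ q 0 - g 0 ∧ 0 < 1 - lam * phi2 0 (q 0) ∧ 1 - lam * phi2 0 (q 0) ≤ 1 ∧
      0 < 1 - lam * phi2 l (q l) ∧ 1 - lam * phi2 j (q j) ≤ -20000000 := by
  have h00 := (abs_le.mp h0).1
  have hlam := h.lam_le h00
  have hjN : -bb ≤ q j := by
    by_contra hcon
    push Not at hcon
    obtain ⟨k, hk⟩ := h.exists_box_of_N hcon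
    rcases fin3_cases 0 j l hj0.symm hl0.symm hjl k with rfl | rfl | rfl
    · rw [ww_zero h0] at hk; norm_num at hk
    · linarith
    · rw [ww_zero hl] at hk; norm_num at hk
  have hjW : bb < q j := by
    rcases le_or_gt 0 (q j) with h' | h'
    · rwa [abs_of_nonneg h'] at hj
    · rw [abs_of_neg h'] at hj; linarith
  have h1 := h.L12 h00 hl0 hl
  have h2 := h.sum' hj0.symm hl0.symm hjl
  have h3 := AP_le_one (i := j) (abs_lt.mp (h.abs_lt_one j)).2.le
  rw [phi_eq' j, L_phi h0, kk] at h2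
  have h4 : 5614 / 10000 ≤ AA 0 * P (q 0 - cc 0) := by linarith [h1.2]
  have hu0 : 0 < q 0 - cc 0 := by have := h.L_u h0; linarith
  have hu : 7567 / 10000 ≤ q 0 - cc 0 := by
    by_contra hcon
    push Not at hcon
    have h5 := P_le (q 0 - cc 0)
    have h6 : (q 0 - cc 0) ^ 2 ≤ (7567 / 10000) ^ 2 := pow_le_pow_left₀ hu0.le hcon.le 2
    have h7 : AA 0 * P (q 0 - cc 0) ≤ 9803 / 10000 * (7567 / 10000) ^ 2 :=
      mul_le_mul AA_zero.2 (h5.trans h6) (P_nonneg _) (by norm_num)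
    norm_num at h7
    linarith
  have hg := h.g_le 0
  have hc := cc_zero
  refine ⟨by rw [hc] at hu; linarith, ?_, ?_, ?_, ?_⟩
  · rw [L_phi2 h0]
    have h6 := P2_le (h.L_u h0).le
    have h7 : AA 0 * P2 (q 0 - cc 0) ≤ 9803 / 10000 * (2 + 1 / 1000000) :=
      mul_le_mul AA_zero.2 h6 (P2_nonneg _) (by norm_num)
    have h8 : lam * (AA 0 * P2 (q 0 - cc 0)) ≤ 5076 / 10000 * (9803 / 10000 * (2 + 1 / 1000000)) :=
      mul_le_mul hlam h7 (mul_nonneg (AA_pos 0).le (P2_nonneg _)) (by norm_num)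
    norm_num at h8
    linarith
  · have : 0 ≤ lam * phi2 0 (q 0) := by
      rw [L_phi2 h0]
      exact mul_nonneg h.pos.le (mul_nonneg (AA_pos 0).le (P2_nonneg _))
    linarith
  · rw [L_phi2 hl]
    have h6 := P2_le (h.L_u hl).le
    have h7 : AA l * P2 (q l - cc l) ≤ 9071 / 10000 * (2 + 1 / 1000000) :=
      mul_le_mul (AA_ne hl0).2 h6 (P2_nonneg _) (by norm_num)
    have h8 : lam * (AA l * P2 (q l - cc l)) ≤ 5076 / 10000 * (9071 / 10000 * (2 + 1 / 1000000)) :=
      mul_le_mul hlam h7 (mul_nonneg (AA_pos l).le (P2_nonneg _)) (by norm_num)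
    norm_num at h8
    linarith
  · have h5 : 28 / 1000 ≤ lam * (MM * P1 (|q j| - bb)) := by
      have h6 := h.dist_eq j
      have h7 : lam * (AA j * P1 (q j - cc j)) ≤ 5076 / 10000 * (9071 / 10000 * (21 / 10)) := by
        apply mul_le_mul hlam _ (mul_nonneg (AA_pos j).le (P1_nonneg _)) (by norm_num)
        exact mul_le_mul (AA_ne hj0).2 (h.P1_A_le j) (P1_nonneg _) (by norm_num)
      have h8 : 995 / 1000 - 1 / 1000000000 ≤ |q j - g j| := by
        have := abs_sub_abs_le_abs_sub (q j) (g j)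
        have := h.hg j
        have := bb_eq
        linarith
      norm_num at h7
      linarith
    have hs : 0 < |q j| - bb := by linarith
    have h6 := P1_le_mul hs
    have h5' := h.depth_lt j
    rw [phi2_eq]
    have h7 : lam * (MM * P1 (|q j| - bb)) ≤ (|q j| - bb) * (lam * (MM * P2 (|q j| - bb))) := by
      have := mul_le_mul_of_nonneg_left h6 (mul_pos h.pos MM_pos).le
      linarith
    have h8 : 0 ≤ lam * (AA j * P2 (q j - cc j)) :=
      mul_nonneg h.pos.le (mul_nonneg (AA_pos j).le (P2_nonneg _))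
    have h9 : 0 ≤ lam * (MM * P2 (|q j| - bb)) :=
      mul_nonneg h.pos.le (mul_nonneg MM_pos.le (P2_nonneg _))
    have h10 : (|q j| - bb) * (lam * (MM * P2 (|q j| - bb)))
        ≤ 1 / 1000000000 * (lam * (MM * P2 (|q j| - bb))) :=
      mul_le_mul_of_nonneg_right (by rw [de] at h5'; exact h5'.le) h9
    have e : lam * (AA j * P2 (q j - cc j) + MM * P2 (|q j| - bb))
        = lam * (AA j * P2 (q j - cc j)) + lam * (MM * P2 (|q j| - bb)) := by ring
    rw [e]
    linarith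

end Pt

end Pool.Agent.Helper16.Rob
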