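import Pool.Agent.Helper16.RobQ2

open MeasureTheory Set Metric Filter
open scoped ENNReal ContDiff Topology

namespace Pool.Agent.Helper16.Rob

/-- Diagonal bilinear forms. -/
def form (d u v : Fin 3 → ℝ) : ℝ :=
  d 0 * (u 0 * v 0) + d 1 * (u 1 * v 1) + d 2 * (u 2 * v 2)

/-- Orthogonality in coordinates. -/
def orth (n u : Fin 3 → ℝ) : Prop := n 0 * u 0 + n 1 * u 1 + n 2 * u 2 = 0

/-- A vector with two prescribed coordinates. -/
def vec (i : Fin 3) (a : ℝ) (j : Fin 3) (b : ℝ) : Fin 3 → ℝ :=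
  fun x => if x = i then a else if x = j then b else 0

section
variable {i j k : Fin 3} (hij : i ≠ j) (hik : i ≠ k) (hjk : j ≠ k)
include hij hik hjk

lemma form_eq (d u v : Fin 3 → ℝ) :
    form d u v = d i * (u i * v i) + d j * (u j * v j) + d k * (u k * v k) :=
  fin3_sum (fun x => d x * (u x * v x)) i j k hij hik hjk

lemma orth_iff (n u : Fin 3 → ℝ) :
    orth n u ↔ n i * u i + n j * u j + n k * u k = 0 := by
  rw [orth, fin3_sum (fun x => n x * u x) i j k hij hik hjk]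

lemma vec_i (a b : ℝ) : vec i a j b i = a := by simp [vec]
lemma vec_j (a b : ℝ) : vec i a j b j = b := by simp [vec, hij.symm]
lemma vec_k (a b : ℝ) : vec i a j b k = 0 := by simp [vec, hik.symm, hjk.symm]

lemma form_vec (d u : Fin 3 → ℝ) (a b : ℝ) :
    form d u (vec i a j b) = d i * (u i * a) + d j * (u j * b) := by
  rw [form_eq hij hik hjk, vec_i hij hik hjk, vec_j hij hik hjk, vec_k hij hik hjk]; ring

lemma form_vec_self (d : Fin 3 → ℝ) (a b : ℝ) :
    form d (vec i a j b) (vec i a j b) = d i * a ^ 2 + d j * b ^ 2 := by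
  rw [form_vec hij hik hjk, vec_i hij hik hjk, vec_j hij hik hjk]; ring

lemma orth_vec (n : Fin 3 → ℝ) : orth n (vec i (n j) j (-n i)) := by
  rw [orth_iff hij hik hjk, vec_i hij hik hjk, vec_j hij hik hjk, vec_k hij hik hjk]; ring

end

lemma nondeg_of_det {i j k : Fin 3} (hij : i ≠ j) (hik : i ≠ k) (hjk : j ≠ k)
    {d n : Fin 3 → ℝ}
    (hD : n i ^ 2 * d j * d k + n j ^ 2 * d i * d k + n k ^ 2 * d i * d j ≠ 0)
    {u : Fin 3 → ℝ} (hu : orth n u) (h : ∀ v, orth n v → form d u v = 0) : u = 0 := by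
  have e1 := h _ (orth_vec hij hik hjk n)
  have e2 := h _ (orth_vec hik hij hjk.symm n)
  have e3 := h _ (orth_vec hjk hij.symm hik.symm n)
  rw [form_vec hij hik hjk] at e1
  rw [form_vec hik hij hjk.symm] at e2
  rw [form_vec hjk hij.symm hik.symm] at e3
  rw [orth_iff hij hik hjk] at hu
  have f1 : (n i ^ 2 * d j * d k + n j ^ 2 * d i * d k + n k ^ 2 * d i * d j) * u i = 0 := by
    linear_combination (n i * d j * d k) * hu + (n j * d k) * e1 + (n k * d j) * e2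
  have f2 : (n i ^ 2 * d j * d k + n j ^ 2 * d i * d k + n k ^ 2 * d i * d j) * u j = 0 := by
    linear_combination (n j * d i * d k) * hu - (n i * d k) * e1 + (n k * d i) * e3
  have f3 : (n i ^ 2 * d j * d k + n j ^ 2 * d i * d k + n k ^ 2 * d i * d j) * u k = 0 := by
    linear_combination (n k * d i * d j) * hu - (n i * d j) * e2 - (n j * d i) * e3
  funext x
  rcases fin3_cases i j k hij hik hjk x with rfl | rfl | rfl
  · exact (mul_eq_zero.mp f1).resolve_left hD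
  · exact (mul_eq_zero.mp f2).resolve_left hD
  · exact (mul_eq_zero.mp f3).resolve_left hD

lemma posdef_aux {i j k : Fin 3} (hij : i ≠ j) (hik : i ≠ k) (hjk : j ≠ k)
    {d n : Fin 3 → ℝ} {e : ℝ} (he : 0 < e) (he1 : e ≤ 1 / 100) (hdj : 99 / 100 ≤ d j)
    (hdk : 99 / 100 ≤ d k) (hdi : -(26 / 10) ≤ e * d i) (hn : 98 / 100 ≤ n i ^ 2)
    (hnj : |n j| ≤ 12 / 100 * e) (hnk : |n k| ≤ 12 / 100 * e)
    {u : Fin 3 → ℝ} (hu : orth n u) (hu0 : u ≠ 0) : 0 < form d u u := by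
  rw [orth_iff hij hik hjk] at hu
  rw [form_eq hij hik hjk]
  have hnj2 : n j ^ 2 ≤ 144 / 10000 * e ^ 2 := by
    have := pow_le_pow_left₀ (abs_nonneg _) hnj 2
    rw [sq_abs] at this; linarith
  have hnk2 : n k ^ 2 ≤ 144 / 10000 * e ^ 2 := by
    have := pow_le_pow_left₀ (abs_nonneg _) hnk 2
    rw [sq_abs] at this; linarith
  have h1 : n i * u i = -(n j * u j + n k * u k) := by linarith
  have h2 : n i ^ 2 * u i ^ 2 ≤ 2 * (n j ^ 2 * u j ^ 2) + 2 * (n k ^ 2 * u k ^ 2) := by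
    have : n i ^ 2 * u i ^ 2 = (n j * u j + n k * u k) ^ 2 := by
      rw [← mul_pow, h1, neg_sq]
    rw [this]
    nlinarith [sq_nonneg (n j * u j - n k * u k)]
  have h3 : n j ^ 2 * u j ^ 2 ≤ 144 / 10000 * e ^ 2 * u j ^ 2 :=
    mul_le_mul_of_nonneg_right hnj2 (sq_nonneg _)
  have h4 : n k ^ 2 * u k ^ 2 ≤ 144 / 10000 * e ^ 2 * u k ^ 2 :=
    mul_le_mul_of_nonneg_right hnk2 (sq_nonneg _)
  have h5 : 98 / 100 * u i ^ 2 ≤ n i ^ 2 * u i ^ 2 :=
    mul_le_mul_of_nonneg_right hn (sq_nonneg _)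
  set S := u j ^ 2 + u k ^ 2 with hS
  have hS0 : 0 ≤ S := by positivity
  have h6 : u i ^ 2 ≤ 3 / 100 * e ^ 2 * S := by
    have : 0 ≤ e ^ 2 * S := by positivity
    have e3 : 98 / 100 * u i ^ 2 ≤ 288 / 10000 * (e ^ 2 * S) := by
      rw [hS]; linarith
    linarith
  have hSpos : 0 < S := by
    rcases eq_or_lt_of_le hS0 with h | h
    · exfalso
      rw [← h] at h6
      have hi : u i = 0 := by
        have : u i ^ 2 ≤ 0 := by linarith
        exact pow_eq_zero_iff (by norm_num) |>.mp (le_antisymm this (sq_nonneg _))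
      have hj : u j = 0 := by
        have : u j ^ 2 = 0 := by nlinarith [sq_nonneg (u j), sq_nonneg (u k)]
        exact pow_eq_zero_iff (by norm_num) |>.mp this
      have hk : u k = 0 := by
        have : u k ^ 2 = 0 := by nlinarith [sq_nonneg (u j), sq_nonneg (u k)]
        exact pow_eq_zero_iff (by norm_num) |>.mp this
      apply hu0
      funext x
      rcases fin3_cases i j k hij hik hjk x with rfl | rfl | rfl
      · exact hi
      · exact hj
      · exact hk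
    · exact h
  have h7 : -(26 / 10) * u i ^ 2 ≤ e * (d i * u i ^ 2) := by
    have := mul_le_mul_of_nonneg_right hdi (sq_nonneg (u i))
    linarith
  have h8 : e * (-(78 / 1000) * e * S) ≤ e * (d i * u i ^ 2) := by
    refine le_trans ?_ h7
    have : e * (-(78 / 1000) * e * S) = -(78 / 1000) * (e ^ 2 * S) := by ring
    rw [this]
    linarith
  have h9 : -(78 / 1000) * e * S ≤ d i * u i ^ 2 := le_of_mul_le_mul_left h8 he
  have h10 : 99 / 100 * u j ^ 2 ≤ d j * u j ^ 2 := mul_le_mul_of_nonneg_right hdj (sq_nonneg _)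
  have h11 : 99 / 100 * u k ^ 2 ≤ d k * u k ^ 2 := mul_le_mul_of_nonneg_right hdk (sq_nonneg _)
  have h12 : e * S ≤ 1 / 100 * S := mul_le_mul_of_nonneg_right he1 hS0
  have h13 : d i * (u i * u i) + d j * (u j * u j) + d k * (u k * u k)
      = d i * u i ^ 2 + d j * u j ^ 2 + d k * u k ^ 2 := by ring
  rw [h13]
  have h14 : 99 / 100 * u j ^ 2 + 99 / 100 * u k ^ 2 = 99 / 100 * S := by rw [hS]; ring
  linarith

/-- The alternative in which the form is indefinite. -/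
def Saddle (d n : Fin 3 → ℝ) : Prop :=
  (∃ u, orth n u ∧ 0 < form d u u) ∧ (∃ u, orth n u ∧ form d u u < 0) ∧
    ∀ u, orth n u → (∀ v, orth n v → form d u v = 0) → u = 0

/-- Two coordinates `i`, `l` with a positive combination, `j` negative. -/
lemma saddle_aux {i j l : Fin 3} (hij : i ≠ j) (hil : i ≠ l) (hjl : j ≠ l)
    {d n : Fin 3 → ℝ} (hdi : d i < 0) (hdj : d j < 0) (hdl : 0 < d l)
    (hpos : 0 < d l * n i ^ 2 + d i * n l ^ 2) (hnj : n j ≠ 0) : Saddle d n := by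
  have hnj2 : 0 < n j ^ 2 := by positivity
  refine ⟨⟨_, orth_vec hil.symm hjl.symm hij n, ?_⟩, ⟨_, orth_vec hij hil hjl n, ?_⟩, ?_⟩
  · rw [form_vec_self hil.symm hjl.symm hij]; linarith
  · rw [form_vec_self hij hil hjl]
    have h1 : d i * n j ^ 2 < 0 := mul_neg_of_neg_of_pos hdi hnj2
    have h2 : d j * (-n i) ^ 2 ≤ 0 := mul_nonpos_of_nonpos_of_nonneg hdj.le (sq_nonneg _)
    linarith
  · intro u hu h
    refine nondeg_of_det hij hil hjl (ne_of_lt ?_) hu h
    have h1 : d j * (d l * n i ^ 2 + d i * n l ^ 2) < 0 := mul_neg_of_neg_of_pos hdj hpos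
    have h2 : n j ^ 2 * d i * d l < 0 :=
      mul_neg_of_neg_of_pos (mul_neg_of_pos_of_neg hnj2 hdi) hdl
    linarith

lemma saddle_aux2 {i j l : Fin 3} (hij : i ≠ j) (hil : i ≠ l) (hjl : j ≠ l)
    {d n : Fin 3 → ℝ} (hdi : 0 < d i) (hdj : d j < 0) (hdl : 0 < d l)
    (hneg : d i * n j ^ 2 + d j * n i ^ 2 < 0) (hni : n i ≠ 0) : Saddle d n := by
  have hni2 : 0 < n i ^ 2 := by positivity
  refine ⟨⟨_, orth_vec hil hij hjl.symm n, ?_⟩, ⟨_, orth_vec hij hil hjl n, ?_⟩, ?_⟩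
  · rw [form_vec_self hil hij hjl.symm]
    have h1 : 0 ≤ d i * n l ^ 2 := mul_nonneg hdi.le (sq_nonneg _)
    have h2 : 0 < d l * (-n i) ^ 2 := mul_pos hdl (by rw [neg_sq]; exact hni2)
    linarith
  · rw [form_vec_self hij hil hjl]; linarith
  · intro u hu h
    refine nondeg_of_det hij hil hjl (ne_of_lt ?_) hu h
    have h1 : d l * (d i * n j ^ 2 + d j * n i ^ 2) < 0 := mul_neg_of_pos_of_neg hdl hneg
    have h2 : n l ^ 2 * d i * d j ≤ 0 :=
      mul_nonpos_of_nonneg_of_nonpos (mul_nonneg (sq_nonneg _) hdi.le) hdj.le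
    linarith

namespace Pt
variable {g q : Fin 3 → ℝ} {lam : ℝ}

lemma de_le : de ≤ 1 / 100 := by rw [de]; norm_num

lemma wall_sq (h : Pt g q lam) {i : Fin 3} (hi : bb < |q i|) : 98 / 100 ≤ (q i - g i) ^ 2 := by
  have h1 := h.wall_dist hi
  have h2 := pow_le_pow_left₀ (by norm_num) h1 2
  rw [sq_abs] at h2
  linarith

lemma wall_ne (h : Pt g q lam) {i : Fin 3} (hi : bb < |q i|) : q i - g i ≠ 0 := by
  intro h0
  have := h.wall_sq hi
  rw [h0] at this
  norm_num at this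

lemma abs_L (h : Pt g q lam) (hl : lam ≤ 151 / 1000000) {i : Fin 3} (hi : |q i| ≤ bb)
    (hlam : lam ≤ 103 / 100 * de) : |q i - g i| ≤ 12 / 100 * de := by
  have h1 := h.box_L hl hi
  have h2 := h.L_lt hi
  rw [abs_of_pos (by linarith)]
  have := de_pos
  linarith [h1.2.1]

lemma stable_case (h : Pt g q lam) {i j k : Fin 3} (hij : i ≠ j) (hik : i ≠ k) (hjk : j ≠ k)
    (hi : bb < |q i|) (hj : |q j| ≤ bb) (hk : |q k| ≤ bb) (hw : 1 / 300000 ≤ ww (q i)) :
    49 / 100 ≤ ww (q i) ∧ lam ≤ 151 / 1000000 ∧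
      ∀ u, orth (fun x => q x - g x) u → u ≠ 0 →
        0 < form (fun x => 1 - lam * phi2 x (q x)) u u := by
  have hl := h.lam_small hw
  have h1 := h.box_L hl hj
  have h2 := h.box_L hl hk
  have h3 := h.sum' hij hik hjk
  have h4 := AP_le_one (i := i) (abs_lt.mp (h.abs_lt_one i)).2.le
  have hw' : 49 / 100 ≤ ww (q i) := by
    rw [phi_eq' i, kk] at h3
    linarith [h1.2.2.2, h2.2.2.2]
  refine ⟨hw', hl, ?_⟩
  have h5 := h.wall_big hl hw'
  intro u hu hu0
  refine posdef_aux (e := de) hij hik hjk de_pos de_le h1.2.2.1 h2.2.2.1 ?_ (h.wall_sq hi)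
    (h.abs_L hl hj h5.2.1) (h.abs_L hl hk h5.2.1) hu hu0
  have := de_pos
  show -(26 / 10) ≤ de * (1 - lam * phi2 i (q i))
  linarith [h5.2.2]

lemma saddle_case_aux (h : Pt g q lam) {i j l : Fin 3} (hij : i ≠ j) (hil : i ≠ l)
    (hjl : j ≠ l) (hi : bb < |q i|) (hj : bb < |q j|) (hl : |q l| ≤ bb)
    (hlam : lam ≤ 151 / 1000000) (hw : 49 / 100 ≤ ww (q i)) :
    Saddle (fun x => 1 - lam * phi2 x (q x)) (fun x => q x - g x) := by
  have h1 := h.box_L hlam hl
  have h2 := h.box_W hlam hi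
  have h3 := h.box_W hlam hj
  have h5 := h.wall_big hlam hw
  refine saddle_aux hij hil hjl h2.2 h3.2 (by show 0 < 1 - lam * phi2 l (q l); linarith [h1.2.2.1])
    ?_ (h.wall_ne hj)
  show 0 < (1 - lam * phi2 l (q l)) * (q i - g i) ^ 2 + (1 - lam * phi2 i (q i)) * (q l - g l) ^ 2
  have h6 := h.wall_sq hi
  have h7 : 99 / 100 * (98 / 100) ≤ (1 - lam * phi2 l (q l)) * (q i - g i) ^ 2 :=
    mul_le_mul h1.2.2.1 h6 (by norm_num) (by linarith [h1.2.2.1])
  have h8 := h.abs_L hlam hl h5.2.1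
  have h9 : (q l - g l) ^ 2 ≤ 144 / 10000 * de ^ 2 := by
    have := pow_le_pow_left₀ (abs_nonneg _) h8 2
    rw [sq_abs] at this; linarith
  have hde := de_pos
  have h10 : (lam * phi2 i (q i)) * (q l - g l) ^ 2 ≤ 1 / 100 := by
    have h11 : 0 ≤ lam * phi2 i (q i) := by
      have := h2.2; linarith
    calc (lam * phi2 i (q i)) * (q l - g l) ^ 2
        ≤ (lam * phi2 i (q i)) * (144 / 10000 * de ^ 2) := mul_le_mul_of_nonneg_left h9 h11
      _ = (de * (lam * phi2 i (q i))) * (144 / 10000 * de) := by ring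
      _ ≤ 26 / 10 * (144 / 10000 * de) := mul_le_mul_of_nonneg_right h5.2.2 (by positivity)
      _ ≤ 1 / 100 := by rw [de]; norm_num
  have h12 : 0 ≤ (q l - g l) ^ 2 := sq_nonneg _
  linarith

lemma saddle_case (h : Pt g q lam) {i j l : Fin 3} (hij : i ≠ j) (hil : i ≠ l)
    (hjl : j ≠ l) (hi : bb < |q i|) (hj : bb < |q j|) (hl : |q l| ≤ bb) :
    Saddle (fun x => 1 - lam * phi2 x (q x)) (fun x => q x - g x) := by
  have hlN := (abs_le.mp hl).1
  have hNex : q i < -bb ∨ q j < -bb := by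
    by_contra hcon
    push Not at hcon
    have hN : ∀ x, -bb ≤ q x := by
      intro x
      rcases fin3_cases i j l hij hil hjl x with rfl | rfl | rfl
      · exact hcon.1
      · exact hcon.2
      · exact hlN
    refine h.one_wall hN hij ?_ ?_
    · rcases lt_abs.mp hi with h' | h'
      · exact h'
      · linarith [hcon.1]
    · rcases lt_abs.mp hj with h' | h'
      · exact h'
      · linarith [hcon.2]
  obtain ⟨x, hx⟩ : ∃ x, 1 / 300000 ≤ ww (q x) := by
    rcases hNex with h' | h'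
    · exact h.exists_box_of_N h'
    · exact h.exists_box_of_N h'
  have hlam := h.lam_small hx
  have h1 := h.box_L hlam hl
  have h3 := h.sum' hij hil hjl
  rw [phi_eq' i, phi_eq' j, kk] at h3
  have hzero : ∀ y, q y < -bb → AA y * P (q y - cc y) = 0 := by
    intro y hy
    rw [P_nonpos (show q y - cc y ≤ 0 by
      have := cc_ge y; have := bb_eq; linarith), mul_zero]
  have h4 := AP_le_one (i := i) (abs_lt.mp (h.abs_lt_one i)).2.le
  have h5 := AP_le_one (i := j) (abs_lt.mp (h.abs_lt_one j)).2.le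
  have hsum : 98 / 100 ≤ ww (q i) + ww (q j) := by
    rcases hNex with h' | h'
    · rw [hzero i h'] at h3; linarith [h1.2.2.2]
    · rw [hzero j h'] at h3; linarith [h1.2.2.2]
  rcases le_or_gt (49 / 100) (ww (q i)) with h6 | h6
  · exact h.saddle_case_aux hij hil hjl hi hj hl hlam h6
  · exact h.saddle_case_aux hij.symm hjl hil hj hi hl hlam (by linarith)

lemma arc_case (h : Pt g q lam) {j l : Fin 3} (hj0 : j ≠ 0) (hl0 : l ≠ 0) (hjl : j ≠ l)
    (h0 : |q 0| ≤ bb) (hj : bb < |q j|) (hl : |q l| ≤ bb) (hw : ww (q j) < 1 / 300000) :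
    Saddle (fun x => 1 - lam * phi2 x (q x)) (fun x => q x - g x) := by
  obtain ⟨h1, h2, h3, h4, h5⟩ := h.arc hj0 hl0 hjl h0 hj hl hw
  refine saddle_aux2 hj0.symm hl0.symm hjl h2 (lt_of_le_of_lt h5 (by norm_num)) h4 ?_ ?_
  · show (1 - lam * phi2 0 (q 0)) * (q j - g j) ^ 2 + (1 - lam * phi2 j (q j)) * (q 0 - g 0) ^ 2 < 0
    have h6 : (q j - g j) ^ 2 ≤ (1005 / 1000) ^ 2 := by
      have := pow_le_pow_left₀ (abs_nonneg _) (h.dist_le j) 2
      rwa [sq_abs] at this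
    have h7 : (74 / 100) ^ 2 ≤ (q 0 - g 0) ^ 2 := pow_le_pow_left₀ (by norm_num) h1 2
    have h8 : (1 - lam * phi2 0 (q 0)) * (q j - g j) ^ 2 ≤ 1 * (1005 / 1000) ^ 2 :=
      mul_le_mul h3 h6 (sq_nonneg _) (by norm_num)
    have h9 : (1 - lam * phi2 j (q j)) * (q 0 - g 0) ^ 2 ≤ -20000000 * (q 0 - g 0) ^ 2 :=
      mul_le_mul_of_nonneg_right h5 (sq_nonneg _)
    norm_num at h7 h8
    linarith
  · show q 0 - g 0 ≠ 0
    linarith

lemma unstable_case (h : Pt g q lam) (hi : ∀ i, bb < |q i|) :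
    (∃ i, q i < -bb) ∧ lam ≤ 151 / 1000000 ∧
      ∀ u : Fin 3 → ℝ, u ≠ 0 → form (fun x => 1 - lam * phi2 x (q x)) u u < 0 := by
  have hN : ∃ i, q i < -bb := by
    by_contra hcon
    push Not at hcon
    refine h.one_wall hcon (show (0 : Fin 3) ≠ 1 by decide) ?_ ?_
    · rcases lt_abs.mp (hi 0) with h' | h'
      · exact h'
      · linarith [hcon 0]
    · rcases lt_abs.mp (hi 1) with h' | h'
      · exact h'
      · linarith [hcon 1]
  obtain ⟨i, hiN⟩ := hN
  obtain ⟨x, hx⟩ := h.exists_box_of_N hiN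
  have hlam := h.lam_small hx
  refine ⟨⟨i, hiN⟩, hlam, ?_⟩
  intro u hu
  have hd : ∀ x, 1 - lam * phi2 x (q x) < 0 := fun x => (h.box_W hlam (hi x)).2
  obtain ⟨y, hy⟩ : ∃ y, u y ≠ 0 := by
    by_contra hcon
    push Not at hcon
    exact hu (funext hcon)
  have hle : ∀ x, (1 - lam * phi2 x (q x)) * (u x * u x) ≤ 0 := fun x =>
    mul_nonpos_of_nonpos_of_nonneg (hd x).le (mul_self_nonneg _)
  have hlt : (1 - lam * phi2 y (q y)) * (u y * u y) < 0 :=
    mul_neg_of_neg_of_pos (hd y) (mul_self_pos.mpr hy)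
  have h0 := hle 0
  have h1 := hle 1
  have h2 := hle 2
  show (1 - lam * phi2 0 (q 0)) * (u 0 * u 0) + (1 - lam * phi2 1 (q 1)) * (u 1 * u 1)
    + (1 - lam * phi2 2 (q 2)) * (u 2 * u 2) < 0
  fin_cases y
  · have : (1 - lam * phi2 0 (q 0)) * (u 0 * u 0) < 0 := hlt
    linarith
  · have : (1 - lam * phi2 1 (q 1)) * (u 1 * u 1) < 0 := hlt
    linarith
  · have : (1 - lam * phi2 2 (q 2)) * (u 2 * u 2) < 0 := hlt
    linarith

/-- Stable type: one wall. -/
def Stab (g q : Fin 3 → ℝ) (lam : ℝ) : Prop :=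
  (∃ i, bb < |q i| ∧ (∀ j, j ≠ i → |q j| ≤ bb) ∧ 49 / 100 ≤ ww (q i)) ∧ lam ≤ 151 / 1000000 ∧
      ∀ u, orth (fun x => q x - g x) u → u ≠ 0 →
        0 < form (fun x => 1 - lam * phi2 x (q x)) u u

/-- Unstable type: three walls. -/
def Unst (q : Fin 3 → ℝ) (lam : ℝ) : Prop :=
  (∀ i, bb < |q i|) ∧ (∃ i, q i < -bb) ∧ lam ≤ 151 / 1000000 ∧
      ∀ u : Fin 3 → ℝ, u ≠ 0 → form (fun x => 1 - lam * phi2 x (q x)) u u < 0

lemma stable_case' (h : Pt g q lam) {i j k : Fin 3} (hij : i ≠ j) (hik : i ≠ k) (hjk : j ≠ k)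
    (hi : bb < |q i|) (hj : |q j| ≤ bb) (hk : |q k| ≤ bb) (hw : 1 / 300000 ≤ ww (q i)) :
    Stab g q lam := by
  obtain ⟨h1, h2, h3⟩ := h.stable_case hij hik hjk hi hj hk hw
  refine ⟨⟨i, hi, ?_, h1⟩, h2, h3⟩
  intro x hx
  rcases fin3_cases i j k hij hik hjk x with rfl | rfl | rfl
  · exact absurd rfl hx
  · exact hj
  · exact hk

theorem classify (h : Pt g q lam) : Stab g q lam ∨ Unst q lam ∨
    Saddle (fun x => 1 - lam * phi2 x (q x)) (fun x => q x - g x) := by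
  have n01 : (0 : Fin 3) ≠ 1 := by decide
  have n02 : (0 : Fin 3) ≠ 2 := by decide
  have n12 : (1 : Fin 3) ≠ 2 := by decide
  rcases le_or_gt |q 0| bb with h0 | h0 <;> rcases le_or_gt |q 1| bb with h1 | h1 <;>
    rcases le_or_gt |q 2| bb with h2 | h2
  · exfalso
    obtain ⟨i, hi⟩ := h.exists_wall
    fin_cases i
    · exact absurd hi (not_lt.mpr h0)
    · exact absurd hi (not_lt.mpr h1)
    · exact absurd hi (not_lt.mpr h2)
  · rcases le_or_gt (1 / 300000) (ww (q 2)) with hw | hw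
    · exact Or.inl (h.stable_case' n02.symm n12.symm n01 h2 h0 h1 hw)
    · exact Or.inr (Or.inr (h.arc_case n02.symm n01.symm n12.symm h0 h2 h1 hw))
  · rcases le_or_gt (1 / 300000) (ww (q 1)) with hw | hw
    · exact Or.inl (h.stable_case' n01.symm n12 n02 h1 h0 h2 hw)
    · exact Or.inr (Or.inr (h.arc_case n01.symm n02.symm n12 h0 h1 h2 hw))
  · exact Or.inr (Or.inr (h.saddle_case n12 n01.symm n02.symm h1 h2 h0))
  · exact Or.inl (h.stable_case' n01 n02 n12 h0 h1 h2 (h.box_of_zero h1 h2))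
  · exact Or.inr (Or.inr (h.saddle_case n02 n01 n12.symm h0 h2 h1))
  · exact Or.inr (Or.inr (h.saddle_case n01 n02 n12 h0 h1 h2))
  · have hall : ∀ i, bb < |q i| := by
      intro i
      fin_cases i
      · exact h0
      · exact h1
      · exact h2
    have := h.unstable_case hall
    exact Or.inr (Or.inl ⟨hall, this.1, this.2.1, this.2.2⟩)

end Pt

end Pool.Agent.Helper16.Rob
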