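import Pool.Agent.Helper16.RobQ3

open MeasureTheory Set Metric Filter
open scoped ENNReal ContDiff Topology

namespace Pool.Agent.Helper16.Rob

/-- Two numbers of the same (nonzero) sign. -/
def SameSign (a b : ℝ) : Prop := (0 < a ∧ 0 < b) ∨ (a < 0 ∧ b < 0)

lemma SameSign.symm {a b : ℝ} (h : SameSign a b) : SameSign b a := by
  rcases h with h | h
  · exact Or.inl ⟨h.2, h.1⟩
  · exact Or.inr ⟨h.2, h.1⟩

lemma SameSign.eq_of_abs {a b : ℝ} (h : SameSign a b) (hab : |a| = |b|) : a = b := by
  rcases h with h | h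
  · rwa [abs_of_pos h.1, abs_of_pos h.2] at hab
  · rw [abs_of_neg h.1, abs_of_neg h.2] at hab; linarith

namespace Pt
variable {g q q' : Fin 3 → ℝ} {lam lam' : ℝ}

lemma dist_sub (h : Pt g q lam) {i : Fin 3} (hi : bb < |q i|)
    (hi' : bb < |q' i|) (hs : SameSign (q i) (q' i)) :
    |q' i - g i| - |q i - g i| = |q' i| - |q i| := by
  have hg := h.g_le i
  have hg' := h.g_ge i
  have hb := bb_eq
  rcases hs with ⟨h1, h2⟩ | ⟨h1, h2⟩
  · rw [abs_of_pos h1] at hi
    rw [abs_of_pos h2] at hi'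
    rw [abs_of_pos h1, abs_of_pos h2, abs_of_pos (by linarith), abs_of_pos (by linarith)]
    ring
  · rw [abs_of_neg h1] at hi
    rw [abs_of_neg h2] at hi'
    rw [abs_of_neg h1, abs_of_neg h2, abs_of_neg (by linarith), abs_of_neg (by linarith)]
    ring

/-- The smooth part at a wall is monotone. -/
lemma AP_mono_wall {i : Fin 3} (hi : bb < |q i|)
    (hi' : bb < |q' i|) (hs : SameSign (q i) (q' i)) (hle : |q i| ≤ |q' i|) :
    P (q i - cc i) ≤ P (q' i - cc i) ∧ P1 (q i - cc i) ≤ P1 (q' i - cc i) := by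
  have hb := bb_eq
  have hc := cc_ge i
  rcases hs with ⟨h1, h2⟩ | ⟨h1, h2⟩
  · rw [abs_of_pos h1, abs_of_pos h2] at hle
    exact ⟨P_mono (by linarith), P1_mono (by linarith)⟩
  · rw [abs_of_neg h1] at hi
    rw [abs_of_neg h2] at hi'
    rw [P_nonpos (show q i - cc i ≤ 0 by linarith), P_nonpos (show q' i - cc i ≤ 0 by linarith),
      P1_nonpos (show q i - cc i ≤ 0 by linarith), P1_nonpos (show q' i - cc i ≤ 0 by linarith)]
    exact ⟨le_rfl, le_rfl⟩

/-- A larger multiplier gives a smaller depth. -/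
lemma wall_mono (h : Pt g q lam) (h' : Pt g q' lam') (hl : lam ≤ lam')
    (hlam : lam ≤ 151 / 1000000) {i : Fin 3} (hi : bb < |q i|) (hi' : bb < |q' i|)
    (hs : SameSign (q i) (q' i)) : |q' i| ≤ |q i| := by
  by_contra hcon
  push Not at hcon
  have h1 := h.dist_sub hi hi' hs
  have h2 := h.dist_eq i
  have h3 := h'.dist_eq i
  have h4 := (AP_mono_wall hi hi' hs hcon.le).2
  have h5 : lam * (AA i * P1 (q i - cc i)) ≤ lam' * (AA i * P1 (q' i - cc i)) :=
    mul_le_mul hl (mul_le_mul_of_nonneg_left h4 (AA_pos i).le)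
      (mul_nonneg (AA_pos i).le (P1_nonneg _)) h'.pos.le
  have h6 : lam * (MM * P1 (|q' i| - bb)) ≤ lam' * (MM * P1 (|q' i| - bb)) :=
    mul_le_mul_of_nonneg_right hl (mul_nonneg MM_pos.le (P1_nonneg _))
  have hs0 : 0 < |q i| - bb := by linarith
  have h7 := P1_scale hs0 (show |q i| - bb ≤ |q' i| - bb by linarith)
  have h8 := (h.box_W hlam hi).1
  have h9 := h.depth_lt i
  set s := |q i| - bb with hsdef
  set s' := |q' i| - bb with hsdef'
  set X := lam * (MM * P1 s) with hX
  set X' := lam * (MM * P1 s') with hX'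
  have h10 : s' * X ≤ s * X' := by
    have := mul_le_mul_of_nonneg_left h7 (mul_pos h.pos MM_pos).le
    rw [hX, hX']; linarith
  have h11 : X' - X ≤ s' - s := by
    rw [hsdef, hsdef']; linarith
  -- s (X' - X) ≥ (s' - s) X ≥ .98 (s' - s)
  have h12 : (s' - s) * X ≤ s * (X' - X) := by linarith
  have h13 : (s' - s) * (98 / 100) ≤ (s' - s) * X :=
    mul_le_mul_of_nonneg_left h8 (by rw [hsdef, hsdef']; linarith)
  have h14 : s * (X' - X) ≤ s * (s' - s) := mul_le_mul_of_nonneg_left h11 hs0.le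
  have h15 : s * (s' - s) ≤ 1 / 100 * (s' - s) := by
    apply mul_le_mul_of_nonneg_right _ (by rw [hsdef, hsdef']; linarith)
    rw [de] at h9; linarith
  have h16 : 0 < s' - s := by rw [hsdef, hsdef']; linarith
  linarith

/-- Comparison of `phi` at walls. -/
lemma phi_wall_mono {i : Fin 3} (hi : bb < |q i|)
    (hi' : bb < |q' i|) (hs : SameSign (q i) (q' i)) (hle : |q i| ≤ |q' i|) :
    MM * (P (|q' i| - bb) - P (|q i| - bb)) ≤ phi i (q' i) - phi i (q i) := by
  have h1 := mul_le_mul_of_nonneg_left (AP_mono_wall hi hi' hs hle).1 (AA_pos i).le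
  rw [phi_eq, phi_eq]
  linarith

lemma eq_of_phi_wall {i : Fin 3} (hi : bb < |q i|)
    (hi' : bb < |q' i|) (hs : SameSign (q i) (q' i)) (hle : |q' i| ≤ |q i|)
    (hphi : phi i (q i) ≤ phi i (q' i)) : q i = q' i := by
  apply hs.eq_of_abs
  by_contra hne
  have hlt : |q' i| < |q i| := lt_of_le_of_ne hle (Ne.symm hne)
  have h1 := phi_wall_mono hi' hi hs.symm hle
  have h2 := P_strictMono (show 0 < |q i| - bb by linarith)
    (show |q' i| - bb < |q i| - bb by linarith)
  have h3 := mul_pos MM_pos (sub_pos.mpr h2)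
  linarith

/-- Uniqueness of the unstable point of a given pattern. -/
lemma unique_unst_aux (h : Pt g q lam) (h' : Pt g q' lam') (hl : lam ≤ lam')
    (hq : Unst q lam) (hq' : Unst q' lam') (hs : ∀ i, SameSign (q i) (q' i)) : q = q' := by
  have hm : ∀ i, |q' i| ≤ |q i| := fun i =>
    h.wall_mono h' hl hq.2.2.1 (hq.1 i) (hq'.1 i) (hs i)
  have hp : ∀ i, phi i (q' i) ≤ phi i (q i) := by
    intro i
    have h1 := phi_wall_mono (hq'.1 i) (hq.1 i) (hs i).symm (hm i)
    have h2 := P_mono (show |q' i| - bb ≤ |q i| - bb by linarith [hm i])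
    have h3 := mul_nonneg MM_pos.le (sub_nonneg.mpr h2)
    linarith
  have hsum := h.sum
  have hsum' := h'.sum
  have p0 := hp 0
  have p1 := hp 1
  have p2 := hp 2
  funext i
  apply eq_of_phi_wall (hq.1 i) (hq'.1 i) (hs i) (hm i)
  fin_cases i
  · show phi 0 (q 0) ≤ phi 0 (q' 0); linarith
  · show phi 1 (q 1) ≤ phi 1 (q' 1); linarith
  · show phi 2 (q 2) ≤ phi 2 (q' 2); linarith

lemma unique_unst (h : Pt g q lam) (h' : Pt g q' lam')
    (hq : Unst q lam) (hq' : Unst q' lam') (hs : ∀ i, SameSign (q i) (q' i)) : q = q' := by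
  rcases le_total lam lam' with hl | hl
  · exact h.unique_unst_aux h' hl hq hq' hs
  · exact (h'.unique_unst_aux h hl hq' hq (fun i => (hs i).symm)).symm

/-- Comparison of the free coordinates. -/
lemma L_diff (h : Pt g q lam) (h' : Pt g q' lam') (hl : lam ≤ lam')
    (hlam' : lam' ≤ 151 / 1000000) {i : Fin 3} (hi : |q i| ≤ bb) (hi' : |q' i| ≤ bb) :
    q' i - q i ≤ 12 / 100 * (lam' - lam) ∧
      phi i (q' i) - phi i (q i) ≤ 135 / 10000 * (lam' - lam) := by
  have hu := h.L_u hi
  have hu' := h'.L_u hi'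
  have e := h.L_dist hi
  have e' := h'.L_dist hi'
  have hA := AA_le i
  have hA0 := AA_pos i
  have hbox := h'.box_L hlam' hi'
  rw [L_phi hi, L_phi hi']
  set u := q i - cc i with hudef
  set u' := q' i - cc i with hudef'
  have hu0 : 0 < u := by linarith
  have hu0' : 0 < u' := by linarith
  have hP1' : P1 u' ≤ 112 / 1000 := by
    have := P1_le hu0'
    linarith [hbox.1]
  have hΔ : 0 ≤ lam' - lam := by linarith
  have huu : q' i - q i = u' - u := by rw [hudef, hudef']; ring
  rw [huu]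
  rcases le_or_gt u' u with hcase | hcase
  · have h1 := mul_le_mul_of_nonneg_left (P_mono hcase) hA0.le
    exact ⟨by linarith, by linarith⟩
  · have h1 : P1 u' - P1 u ≤ (u' - u) * (2 + 1 / 1000000) := by
      apply P1_sub_le hcase.le
      intro t ht _
      exact P2_le (by linarith)
    have h2 : u' - u = (lam' - lam) * (AA i * P1 u') + lam * (AA i * (P1 u' - P1 u)) := by
      linarith
    have h3 : (lam' - lam) * (AA i * P1 u') ≤ (lam' - lam) * (9803 / 10000 * (112 / 1000)) := by
      apply mul_le_mul_of_nonneg_left _ hΔ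
      exact mul_le_mul hA hP1' (P1_nonneg _) (by norm_num)
    have h4 : lam * (AA i * (P1 u' - P1 u))
        ≤ 151 / 1000000 * (9803 / 10000 * ((u' - u) * (2 + 1 / 1000000))) := by
      have hd : 0 ≤ P1 u' - P1 u := sub_nonneg.mpr (P1_mono hcase.le)
      apply mul_le_mul (hl.trans hlam') _ (mul_nonneg hA0.le hd) (by norm_num)
      exact mul_le_mul hA h1 hd (by norm_num)
    have h5 : u' - u ≤ 12 / 100 * (lam' - lam) := by linarith
    refine ⟨h5, ?_⟩
    have h6 := P_sub_le hcase.le
    have h7 : P u' - P u ≤ (12 / 100 * (lam' - lam)) * (112 / 1000) :=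
      h6.trans (mul_le_mul h5 hP1' (P1_nonneg _) (by positivity))
    have h8 : AA i * (P u' - P u) ≤ 9803 / 10000 * ((12 / 100 * (lam' - lam)) * (112 / 1000)) :=
      mul_le_mul hA h7 (sub_nonneg.mpr (P_mono hcase.le)) (by norm_num)
    linarith

/-- Comparison at a heavy wall. -/
lemma heavy_wall (h : Pt g q lam) (h' : Pt g q' lam') (hl : lam ≤ lam')
    (hlam' : lam' ≤ 151 / 1000000) {i : Fin 3} (hi : bb < |q i|) (hi' : bb < |q' i|)
    (hs : SameSign (q i) (q' i)) (hw : 49 / 100 ≤ ww (q i)) (hw' : 49 / 100 ≤ ww (q' i)) :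
    98 / 100 * (|q i| - |q' i|) ≤ lam' * (phi i (q i) - phi i (q' i)) ∧
      99 / 100 * de * (lam' - lam) ≤ lam' * (26 / 10 * (|q i| - |q' i|)) := by
  have hlam := hl.trans hlam'
  have hm := h.wall_mono h' hl hlam hi hi' hs
  have hs0 : 0 < |q' i| - bb := by linarith
  have hs1 : |q' i| - bb ≤ |q i| - bb := by linarith
  have hb' := (h'.box_W hlam' hi').1
  constructor
  · have h1 := phi_wall_mono hi' hi hs.symm hm
    have h2 := P_sub_ge hs1
    have h3 : lam' * (MM * ((|q i| - bb - (|q' i| - bb)) * P1 (|q' i| - bb)))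
        ≤ lam' * (phi i (q i) - phi i (q' i)) :=
      mul_le_mul_of_nonneg_left ((mul_le_mul_of_nonneg_left h2 MM_pos.le).trans h1) h'.pos.le
    have h4 : (98 / 100) * (|q i| - |q' i|)
        ≤ (lam' * (MM * P1 (|q' i| - bb))) * (|q i| - |q' i|) :=
      mul_le_mul_of_nonneg_right hb' (by linarith)
    refine le_trans h4 (le_trans (le_of_eq ?_) h3)
    ring
  · have hbig := h.wall_big hlam hw
    have hbig' := h'.wall_big hlam' hw'
    have hd := de_pos
    -- increments
    have k1 : P1 (q i - cc i) - P1 (q' i - cc i) ≤ (|q i| - |q' i|) * (2 + 1 / 1000000) := by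
      have hb := bb_eq
      have hc := cc_ge i
      have hc' := cc_le i
      rcases hs with ⟨h1, h2⟩ | ⟨h1, h2⟩
      · have hi'2 := hi'
        have hm2 := hm
        rw [abs_of_pos h2] at hi'2
        rw [abs_of_pos h1, abs_of_pos h2] at hm2 ⊢
        have := P1_sub_le (C := 2 + 1 / 1000000) (show q' i - cc i ≤ q i - cc i by linarith)
          (fun t ht _ => P2_le (by linarith))
        refine this.trans (le_of_eq ?_)
        ring
      · have hi2 := hi
        rw [abs_of_neg h1] at hi2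
        rw [P1_nonpos (show q i - cc i ≤ 0 by linarith)]
        have h3 := P1_nonneg (q' i - cc i)
        have h4 : 0 ≤ (|q i| - |q' i|) * (2 + 1 / 1000000) :=
          mul_nonneg (by linarith) (by norm_num)
        linarith
    have k2 : lam * (MM * (P1 (|q i| - bb) - P1 (|q' i| - bb))) * (4 / 10 * de)
        ≤ (1 + 25 / 10000) * (1005 / 1000) * (|q i| - |q' i|) := by
      have hC : ∀ t, |q' i| - bb ≤ t → t ≤ |q i| - bb →
          P2 t ≤ (1 + 25 / 10000) * P1 (|q i| - bb) / (4 / 10 * de) := by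
        intro t ht1 ht2
        have ht0 : 0 < t := by linarith
        have ht4 : 4 / 10 * de ≤ t := hbig'.1.trans ht1
        rw [le_div_iff₀ (by positivity)]
        have e1 := mul_P2_le ht0
        have e2 : ep / t ≤ 25 / 10000 := by
          rw [div_le_iff₀ ht0]
          rw [de] at ht4; rw [ep]; linarith
        have e3 := P1_mono ht2
        have e4 := P1_nonneg t
        have e5 := P2_nonneg t
        calc P2 t * (4 / 10 * de) ≤ P2 t * t := mul_le_mul_of_nonneg_left ht4 e5
          _ = t * P2 t := mul_comm _ _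
          _ ≤ (1 + ep / t) * P1 t := e1
          _ ≤ (1 + 25 / 10000) * P1 (|q i| - bb) :=
              mul_le_mul (by linarith) e3 e4 (by norm_num)
      have e1 := P1_sub_le hs1 hC
      have e2 : (P1 (|q i| - bb) - P1 (|q' i| - bb)) * (4 / 10 * de)
          ≤ (|q i| - |q' i|) * ((1 + 25 / 10000) * P1 (|q i| - bb)) := by
        have := mul_le_mul_of_nonneg_right e1 (show 0 ≤ 4 / 10 * de by positivity)
        refine this.trans (le_of_eq ?_)
        field_simp
        ring
      have e3 := h.MP1_le i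
      calc lam * (MM * (P1 (|q i| - bb) - P1 (|q' i| - bb))) * (4 / 10 * de)
          = lam * MM * ((P1 (|q i| - bb) - P1 (|q' i| - bb)) * (4 / 10 * de)) := by ring
        _ ≤ lam * MM * ((|q i| - |q' i|) * ((1 + 25 / 10000) * P1 (|q i| - bb))) :=
            mul_le_mul_of_nonneg_left e2 (mul_pos h.pos MM_pos).le
        _ = ((1 + 25 / 10000) * (|q i| - |q' i|)) * (lam * (MM * P1 (|q i| - bb))) := by ring
        _ ≤ ((1 + 25 / 10000) * (|q i| - |q' i|)) * (1005 / 1000) :=
            mul_le_mul_of_nonneg_left e3 (mul_nonneg (by norm_num) (by linarith))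
        _ = _ := by ring
    -- the two equations
    set F := AA i * P1 (q i - cc i) + MM * P1 (|q i| - bb) with hF
    set F' := AA i * P1 (q' i - cc i) + MM * P1 (|q' i| - bb) with hF'
    have a1 : |q i - g i| = lam * F := by rw [h.dist_eq i, hF]; ring
    have a2 : |q' i - g i| = lam' * F' := by rw [h'.dist_eq i, hF']; ring
    have a3 := h.dist_sub hi hi' hs
    have a4 : (lam' - lam) * F' ≤ lam * (F - F') := by
      have : lam' * F' ≤ lam * F := by rw [← a1, ← a2]; linarith
      linarith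
    have a5 : lam * (F - F') ≤ lam * (AA i * ((|q i| - |q' i|) * (2 + 1 / 1000000)))
        + lam * (MM * (P1 (|q i| - bb) - P1 (|q' i| - bb))) := by
      have := mul_le_mul_of_nonneg_left (mul_le_mul_of_nonneg_left k1 (AA_pos i).le) h.pos.le
      rw [hF, hF']
      linarith
    have a6 : lam * (AA i * ((|q i| - |q' i|) * (2 + 1 / 1000000)))
        ≤ 1 * (1 * ((|q i| - |q' i|) * (2 + 1 / 1000000))) := by
      have hn : 0 ≤ (|q i| - |q' i|) * (2 + 1 / 1000000) := mul_nonneg (by linarith) (by norm_num)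
      apply mul_le_mul (by linarith) _ (mul_nonneg (AA_pos i).le hn) (by norm_num)
      exact mul_le_mul_of_nonneg_right (by linarith [AA_le i]) hn
    have a7 : de * (lam * (F - F')) ≤ 26 / 10 * (|q i| - |q' i|) := by
      have b1 := mul_le_mul_of_nonneg_left (a5.trans (add_le_add_left a6 _)) hd.le
      have b2 : de * (lam * (MM * (P1 (|q i| - bb) - P1 (|q' i| - bb))))
          ≤ 2519 / 1000 * (|q i| - |q' i|) := by
        have := k2
        have hx : 0 ≤ |q i| - |q' i| := by linarith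
        linarith
      have b3 : de * (1 * (1 * ((|q i| - |q' i|) * (2 + 1 / 1000000))))
          ≤ 1 / 100 * (1 * (1 * ((|q i| - |q' i|) * (2 + 1 / 1000000)))) := by
        apply mul_le_mul_of_nonneg_right de_le
        have : 0 ≤ (|q i| - |q' i|) * (2 + 1 / 1000000) := mul_nonneg (by linarith) (by norm_num)
        linarith
      rw [mul_add] at b1
      linarith
    have a8 : 99 / 100 ≤ lam' * F' := by
      rw [← a2]; have := h'.wall_dist hi'; linarith
    have a9 : (lam' - lam) * (99 / 100) ≤ (lam' - lam) * (lam' * F') :=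
      mul_le_mul_of_nonneg_left a8 (by linarith)
    have a10 : lam' * (de * ((lam' - lam) * F')) ≤ lam' * (26 / 10 * (|q i| - |q' i|)) := by
      apply mul_le_mul_of_nonneg_left _ h'.pos.le
      exact (mul_le_mul_of_nonneg_left a4 hd.le).trans a7
    calc 99 / 100 * de * (lam' - lam) = de * ((lam' - lam) * (99 / 100)) := by ring
      _ ≤ de * ((lam' - lam) * (lam' * F')) := mul_le_mul_of_nonneg_left a9 hd.le
      _ = lam' * (de * ((lam' - lam) * F')) := by ring
      _ ≤ _ := a10

lemma unique_stab_aux (h : Pt g q lam) (h' : Pt g q' lam') (hl : lam ≤ lam')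
    (hlam' : lam' ≤ 151 / 1000000) {i j k : Fin 3} (hij : i ≠ j) (hik : i ≠ k) (hjk : j ≠ k)
    (hi : bb < |q i|) (hi' : bb < |q' i|) (hs : SameSign (q i) (q' i))
    (hw : 49 / 100 ≤ ww (q i)) (hw' : 49 / 100 ≤ ww (q' i))
    (hj : |q j| ≤ bb) (hj' : |q' j| ≤ bb) (hk : |q k| ≤ bb) (hk' : |q' k| ≤ bb) : q = q' := by
  obtain ⟨h1, h2⟩ := h.heavy_wall h' hl hlam' hi hi' hs hw hw'
  have hJ := h.L_diff h' hl hlam' hj hj'
  have hK := h.L_diff h' hl hlam' hk hk'
  have hsum := h.sum' hij hik hjk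
  have hsum' := h'.sum' hij hik hjk
  have hm := h.wall_mono h' hl (hl.trans hlam') hi hi' hs
  have hbig' := h'.wall_big hlam' hw'
  have hd := de_pos
  have h3 : phi i (q i) - phi i (q' i) ≤ 27 / 1000 * (lam' - lam) := by
    linarith [hJ.2, hK.2]
  have h4 : 98 / 100 * (|q i| - |q' i|) ≤ lam' * (27 / 1000 * (lam' - lam)) :=
    h1.trans (mul_le_mul_of_nonneg_left h3 h'.pos.le)
  have hΔ : lam' - lam = 0 := by
    have h5 : 98 / 100 * (99 / 100 * de * (lam' - lam))
        ≤ lam' * (26 / 10 * (lam' * (27 / 1000 * (lam' - lam)))) := by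
      calc 98 / 100 * (99 / 100 * de * (lam' - lam))
          ≤ 98 / 100 * (lam' * (26 / 10 * (|q i| - |q' i|))) :=
            mul_le_mul_of_nonneg_left h2 (by norm_num)
        _ = lam' * (26 / 10 * (98 / 100 * (|q i| - |q' i|))) := by ring
        _ ≤ lam' * (26 / 10 * (lam' * (27 / 1000 * (lam' - lam)))) := by
            apply mul_le_mul_of_nonneg_left _ h'.pos.le
            exact mul_le_mul_of_nonneg_left h4 (by norm_num)
    have hΔ0 : 0 ≤ lam' - lam := by linarith
    have h6 : lam' * lam' ≤ (103 / 100 * de) * (151 / 1000000) :=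
      mul_le_mul hbig'.2.1 hlam' h'.pos.le (by positivity)
    have h7 : (lam' * lam') * (lam' - lam) ≤ (103 / 100 * de) * (151 / 1000000) * (lam' - lam) :=
      mul_le_mul_of_nonneg_right h6 hΔ0
    have h8 : 0 ≤ de * (lam' - lam) := mul_nonneg hd.le hΔ0
    have h9 : de * (lam' - lam) ≤ 0 := by linarith
    have h10 : de * (lam' - lam) = 0 := le_antisymm h9 h8
    rcases mul_eq_zero.mp h10 with h11 | h11
    · exact absurd h11 hd.ne'
    · exact h11
  have hlameq : lam' ≤ lam := by linarith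
  have hJ' := h'.L_diff h hlameq (hl.trans hlam') hj' hj
  have hK' := h'.L_diff h hlameq (hl.trans hlam') hk' hk
  rw [hΔ] at h4
  funext x
  rcases fin3_cases i j k hij hik hjk x with rfl | rfl | rfl
  · apply hs.eq_of_abs
    linarith
  · linarith [hJ.1, hJ'.1]
  · linarith [hK.1, hK'.1]

lemma unique_stab (h : Pt g q lam) (h' : Pt g q' lam')
    (hl : lam ≤ 151 / 1000000) (hl' : lam' ≤ 151 / 1000000) {i : Fin 3}
    (hi : bb < |q i|) (hi' : bb < |q' i|) (hs : SameSign (q i) (q' i))
    (hw : 49 / 100 ≤ ww (q i)) (hw' : 49 / 100 ≤ ww (q' i))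
    (hj : ∀ j, j ≠ i → |q j| ≤ bb) (hj' : ∀ j, j ≠ i → |q' j| ≤ bb) : q = q' := by
  obtain ⟨j, k, hij, hik, hjk⟩ : ∃ j k : Fin 3, i ≠ j ∧ i ≠ k ∧ j ≠ k := by
    fin_cases i
    · exact ⟨1, 2, by decide, by decide, by decide⟩
    · exact ⟨0, 2, by decide, by decide, by decide⟩
    · exact ⟨0, 1, by decide, by decide, by decide⟩
  rcases le_total lam lam' with hle | hle
  · exact h.unique_stab_aux h' hle hl' hij hik hjk hi hi' hs hw hw' (hj j hij.symm)
      (hj' j hij.symm) (hj k hik.symm) (hj' k hik.symm)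
  · exact (h'.unique_stab_aux h hle hl hij hik hjk hi' hi hs.symm hw' hw (hj' j hij.symm)
      (hj j hij.symm) (hj' k hik.symm) (hj k hik.symm)).symm

end Pt

end Pool.Agent.Helper16.Rob
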