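import Pool.Agent.Helper16.RobQ4
import Pool.Agent.Helper16.RobBodyK

open MeasureTheory Set Metric Filter
open scoped RealInnerProductSpace ENNReal ContDiff Topology

namespace Pool.Agent.Helper16.Rob

/-- The defining function of the smooth body. -/
noncomputable def fQ (x : E3) : ℝ := phi 0 (x 0) + phi 1 (x 1) + phi 2 (x 2) - kk

/-- The smooth body. -/
def bodyQ : Set E3 := {x | fQ x ≤ 0}

/-- The coordinate functionals. -/
noncomputable def pr (i : Fin 3) : E3 →L[ℝ] ℝ := EuclideanSpace.proj i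

lemma pr_apply (i : Fin 3) (x : E3) : pr i x = x i := rfl

/-- The derivative of `fQ`. -/
noncomputable def DQ (x : E3) : E3 →L[ℝ] ℝ :=
  phi1 0 (x 0) • pr 0 + phi1 1 (x 1) • pr 1 + phi1 2 (x 2) • pr 2

lemma hasFDerivAt_coord {h : ℝ → ℝ} {h' : ℝ} (i : Fin 3) (x : E3)
    (hh : HasDerivAt h h' (x i)) : HasFDerivAt (fun x : E3 => h (x i)) (h' • pr i) x := by
  have h1 : HasFDerivAt (fun x : E3 => x i) (pr i) x := (pr i).hasFDerivAt
  exact hh.comp_hasFDerivAt x h1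

lemma hasFDerivAt_fQ (x : E3) : HasFDerivAt fQ (DQ x) x := by
  have h0 := hasFDerivAt_coord 0 x (hasDerivAt_phi 0 (x 0))
  have h1 := hasFDerivAt_coord 1 x (hasDerivAt_phi 1 (x 1))
  have h2 := hasFDerivAt_coord 2 x (hasDerivAt_phi 2 (x 2))
  exact ((h0.add h1).add h2).sub_const kk

lemma fderiv_fQ : fderiv ℝ fQ = DQ := by
  ext1 x; exact (hasFDerivAt_fQ x).fderiv

lemma fderiv_fQ_apply (x v : E3) : fderiv ℝ fQ x v
    = phi1 0 (x 0) * v 0 + phi1 1 (x 1) * v 1 + phi1 2 (x 2) * v 2 := by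
  rw [fderiv_fQ]
  simp [DQ, pr_apply]

lemma hasFDerivAt_DQ (x : E3) : HasFDerivAt DQ
    ((phi2 0 (x 0) • pr 0).smulRight (pr 0) + (phi2 1 (x 1) • pr 1).smulRight (pr 1)
      + (phi2 2 (x 2) • pr 2).smulRight (pr 2)) x := by
  have h0 := (hasFDerivAt_coord 0 x (hasDerivAt_phi1 0 (x 0))).smul_const (pr 0)
  have h1 := (hasFDerivAt_coord 1 x (hasDerivAt_phi1 1 (x 1))).smul_const (pr 1)
  have h2 := (hasFDerivAt_coord 2 x (hasDerivAt_phi1 2 (x 2))).smul_const (pr 2)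
  exact (h0.add h1).add h2

lemma fderiv2_fQ_apply (x u v : E3) : fderiv ℝ (fderiv ℝ fQ) x u v
    = phi2 0 (x 0) * (u 0 * v 0) + phi2 1 (x 1) * (u 1 * v 1) + phi2 2 (x 2) * (u 2 * v 2) := by
  rw [fderiv_fQ, (hasFDerivAt_DQ x).fderiv]
  simp [pr_apply]
  ring

lemma contDiff_fQ : ContDiff ℝ ∞ fQ := by
  have h : ∀ i : Fin 3, ContDiff ℝ ∞ (fun x : E3 => phi i (x i)) := fun i =>
    (contDiff_phi i).comp (pr i).contDiff
  exact (((h 0).add (h 1)).add (h 2)).sub contDiff_const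

lemma phi_gt_of_one_lt {i : Fin 3} {t : ℝ} (ht : 1 ≤ |t|) : kk < phi i t := by
  have h2 := P_mono (show de ≤ |t| - bb by rw [bb]; linarith)
  have h3 := mul_le_mul_of_nonneg_left h2 MM_pos.le
  rw [MM_mul] at h3
  have h4 := AP_nonneg i t
  rw [phi_eq, kk]
  linarith

lemma bodyQ_subset_cube : bodyQ ⊆ cube := by
  intro x hx i
  by_contra hcon
  push Not at hcon
  have h1 := phi_gt_of_one_lt (i := i) hcon.le
  have hx' : fQ x ≤ 0 := hx
  rw [fQ] at hx'
  have h0 := phi_nonneg 0 (x 0)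
  have h1' := phi_nonneg 1 (x 1)
  have h2 := phi_nonneg 2 (x 2)
  fin_cases i
  · have : kk < phi 0 (x 0) := h1
    linarith
  · have : kk < phi 1 (x 1) := h1
    linarith
  · have : kk < phi 2 (x 2) := h1
    linarith

lemma convexOn_fQ : ConvexOn ℝ univ fQ := by
  have h : ∀ i : Fin 3, ConvexOn ℝ univ (fun x : E3 => phi i (x i)) := by
    intro i
    have := (phi_convex i).comp_linearMap ((pr i : E3 →L[ℝ] ℝ) : E3 →ₗ[ℝ] ℝ)
    rw [preimage_univ] at this
    exact this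
  have h1 := (((h 0).add (h 1)).add (h 2)).add (convexOn_const (-kk) convex_univ)
  have e : ((((fun x : E3 => phi 0 (x 0)) + fun x : E3 => phi 1 (x 1)) +
      fun x : E3 => phi 2 (x 2)) + fun _ => -kk) = fQ := by
    funext x; simp [fQ]; ring
  rw [e] at h1
  exact h1

lemma convex_bodyQ : Convex ℝ bodyQ := by
  have := convexOn_fQ.convex_le 0
  have e : {x ∈ (univ : Set E3) | fQ x ≤ 0} = bodyQ := by ext x; simp [bodyQ]
  rwa [e] at this

lemma isClosed_bodyQ : IsClosed bodyQ := isClosed_le contDiff_fQ.continuous continuous_const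

lemma isCompact_bodyQ : IsCompact bodyQ :=
  isCompact_of_bounded_coord isClosed_bodyQ (d := 1) (fun _ hx => bodyQ_subset_cube hx)

lemma phi_small {i : Fin 3} {t : ℝ} (ht : |t| ≤ 1 / 2) : phi i t ≤ 31 / 100 := by
  have hb := bb_eq
  rw [Pt.L_phi (q := fun _ => t) (i := i) (by linarith)]
  have h1 : P (t - cc i) ≤ P (55 / 100) := by
    apply P_mono
    have := cc_ge i
    linarith [(abs_le.mp ht).2]
  have h2 := P_le (55 / 100)
  have h3 : AA i * P (t - cc i) ≤ 1 * (55 / 100) ^ 2 :=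
    mul_le_mul (by linarith [AA_le i]) (h1.trans h2) (P_nonneg _) (by norm_num)
  linarith

lemma fQ_neg {x : E3} (hx : ∀ i, |x i| ≤ 1 / 2) : fQ x < 0 := by
  have h0 := phi_small (i := 0) (hx 0)
  have h1 := phi_small (i := 1) (hx 1)
  have h2 := phi_small (i := 2) (hx 2)
  rw [fQ, kk]; linarith

lemma mem_interior_bodyQ {x : E3} (hx : ∀ i, |x i| ≤ 1 / 2) : x ∈ interior bodyQ := by
  have hopen : IsOpen {x | fQ x < 0} := isOpen_lt contDiff_fQ.continuous continuous_const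
  exact interior_maximal (fun y hy => (show fQ y < 0 from hy).le) hopen (fQ_neg hx)

lemma isConvexBody_bodyQ : IsConvexBody bodyQ :=
  ⟨convex_bodyQ, isCompact_bodyQ, ⟨0, mem_interior_bodyQ (fun i => by simp)⟩⟩

lemma phi_eq_zero_of_phi1 {i : Fin 3} {t : ℝ} (h : phi1 i t = 0) : phi i t = 0 := by
  have h1 := abs_phi1 i t
  rw [h, abs_zero] at h1
  have h2 : 0 ≤ AA i * P1 (t - cc i) := mul_nonneg (AA_pos i).le (P1_nonneg _)
  have h3 : 0 ≤ MM * P1 (|t| - bb) := mul_nonneg MM_pos.le (P1_nonneg _)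
  have h4 : AA i * P1 (t - cc i) = 0 := by linarith
  have h5 : MM * P1 (|t| - bb) = 0 := by linarith
  have h6 : t - cc i ≤ 0 := by
    by_contra hcon
    push Not at hcon
    exact (mul_pos (AA_pos i) (P1_pos hcon)).ne' h4
  have h7 : |t| - bb ≤ 0 := by
    by_contra hcon
    push Not at hcon
    exact (mul_pos MM_pos (P1_pos hcon)).ne' h5
  rw [phi_eq, P_nonpos h6, P_nonpos h7]; ring

lemma isSmoothDefining_fQ : IsSmoothDefining bodyQ fQ := by
  refine ⟨contDiff_fQ, rfl, ?_⟩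
  intro x hx h0
  have h1 : ∀ i, phi1 i (x i) = 0 := by
    intro i
    have h2 : fderiv ℝ fQ x (EuclideanSpace.single i 1) = 0 := by rw [h0]; rfl
    rw [fderiv_fQ_apply] at h2
    fin_cases i <;> simpa [PiLp.single_apply] using h2
  have e0 := phi_eq_zero_of_phi1 (h1 0)
  have e1 := phi_eq_zero_of_phi1 (h1 1)
  have e2 := phi_eq_zero_of_phi1 (h1 2)
  rw [fQ, e0, e1, e2, kk] at hx
  norm_num at hx

end Pool.Agent.Helper16.Rob
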