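import Pool.Agent.Helper16.RobQ5
import Pool.Agent.Helper27.Cube.Ball

open MeasureTheory Set Metric Filter
open scoped RealInnerProductSpace ENNReal ContDiff Topology

namespace Pool.Agent.Helper16.Rob

/-- The model set whose volume was computed by helper27. -/
def W0 : Set (Fin 3 → ℝ) := {x | (∀ i, 0 ≤ x i ∧ x i ≤ 1) ∧ 2 < ∑ i, (x i)^2}

lemma measurableSet_W0 : MeasurableSet W0 := by
  have h1 : IsClosed {x : Fin 3 → ℝ | ∀ i, 0 ≤ x i ∧ x i ≤ 1} := by
    have : {x : Fin 3 → ℝ | ∀ i, 0 ≤ x i ∧ x i ≤ 1} = Icc 0 1 := by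
      ext x
      simp only [mem_ofPred_eq, mem_Icc, Pi.le_def, Pi.zero_apply, Pi.one_apply]
      exact forall_and
    rw [this]; exact isClosed_Icc
  have h2 : IsOpen {x : Fin 3 → ℝ | 2 < ∑ i, (x i)^2} :=
    isOpen_lt continuous_const (by fun_prop)
  have : W0 = {x : Fin 3 → ℝ | ∀ i, 0 ≤ x i ∧ x i ≤ 1} ∩ {x : Fin 3 → ℝ | 2 < ∑ i, (x i)^2} := by
    ext x; simp [W0]
  rw [this]
  exact h1.measurableSet.inter h2.measurableSet

/-- The scaled variables. -/
noncomputable def sc (x : Fin 3 → ℝ) : Fin 3 → ℝ := fun i => (x i - cc i) / (1 - cc i)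

lemma one_sub_cc_pos (i : Fin 3) : 0 < 1 - cc i := by have := cc_le i; linarith

lemma volume_sc : volume (sc ⁻¹' W0) = ENNReal.ofReal (1113525 / 1000000) * volume W0 := by
  set a : Fin 3 → ℝ := fun i => 1 / (1 - cc i) with ha
  set L : (Fin 3 → ℝ) →ₗ[ℝ] (Fin 3 → ℝ) := Matrix.toLin' (Matrix.diagonal a) with hL
  have hLx : ∀ x i, L x i = (1 / (1 - cc i)) * x i := by
    intro x i
    simp [hL, Matrix.toLin'_apply, Matrix.mulVec_diagonal, ha]
  have hdet : LinearMap.det L = (1113525 / 1000000 : ℝ)⁻¹ := by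
    rw [hL, LinearMap.det_toLin', Matrix.det_diagonal, Fin.prod_univ_three]
    simp only [ha, cc_zero, cc_one, cc_two]
    norm_num
  have h1 : sc ⁻¹' W0 = (fun x => x + (fun i => - cc i)) ⁻¹' (L ⁻¹' W0) := by
    ext x
    simp only [mem_preimage]
    have : sc x = L (x + fun i => -cc i) := by
      funext i
      rw [hLx]; simp [sc]; ring
    rw [this]
  rw [h1, measure_preimage_add_right, Measure.addHaar_preimage_linearMap _ (by
    rw [hdet]; norm_num), hdet, inv_inv, abs_of_pos (by norm_num)]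

/-- Points of the cube outside of `bodyQ`. -/
lemma sdiff_subset_union : cube \ bodyQ ⊆
    (cube \ box 0 (fun _ => bb)) ∪ {x : E3 | (fun i => x i) ∈ sc ⁻¹' W0} := by
  rintro x ⟨hxc, hxQ⟩
  by_cases hb : x ∈ box 0 (fun _ => bb)
  · right
    have hb' : ∀ i, |x i| ≤ bb := by
      intro i; have := hb i; simpa using this
    have hQ : 0 < fQ x := not_le.mp hxQ
    rw [fQ, Pt.L_phi (q := fun i => x i) (hb' 0), Pt.L_phi (q := fun i => x i) (hb' 1),
      Pt.L_phi (q := fun i => x i) (hb' 2), kk] at hQ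
    have hx1 : ∀ i, x i ≤ 1 := fun i => (abs_le.mp (hxc i)).2
    have key1 : ∀ i, AA i * P (x i - cc i) ≤ 1 := fun i => AP_le_one (hx1 i)
    have hpos : ∀ i, 0 < x i - cc i := by
      intro i
      by_contra hcon
      push Not at hcon
      have h0 : AA i * P (x i - cc i) = 0 := by rw [P_nonpos hcon, mul_zero]
      have k0 := key1 0
      have k1 := key1 1
      have k2 := key1 2
      fin_cases i
      · have h0' : AA 0 * P (x 0 - cc 0) = 0 := h0
        linarith
      · have h0' : AA 1 * P (x 1 - cc 1) = 0 := h0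
        linarith
      · have h0' : AA 2 * P (x 2 - cc 2) = 0 := h0
        linarith
    have key2 : ∀ i, AA i * P (x i - cc i) ≤ ((x i - cc i) / (1 - cc i)) ^ 2 := by
      intro i
      have h1 := P_scale (show x i - cc i ≤ 1 - cc i by linarith [hx1 i]) (one_sub_cc_pos i)
      have h2 := mul_le_mul_of_nonneg_left h1 (AA_pos i).le
      have h3 : AA i * (((x i - cc i) / (1 - cc i)) ^ 2 * P (1 - cc i))
          = ((x i - cc i) / (1 - cc i)) ^ 2 := by
        have := AA_mul i
        calc AA i * (((x i - cc i) / (1 - cc i)) ^ 2 * P (1 - cc i))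
            = ((x i - cc i) / (1 - cc i)) ^ 2 * (AA i * P (1 - cc i)) := by ring
          _ = _ := by rw [this, mul_one]
      rwa [h3] at h2
    show sc (fun i => x i) ∈ W0
    refine ⟨fun i => ⟨?_, ?_⟩, ?_⟩
    · exact (div_pos (hpos i) (one_sub_cc_pos i)).le
    · show (x i - cc i) / (1 - cc i) ≤ 1
      rw [div_le_one (one_sub_cc_pos i)]; linarith [hx1 i]
    · rw [Fin.sum_univ_three]
      show 2 < ((x 0 - cc 0) / (1 - cc 0)) ^ 2 + ((x 1 - cc 1) / (1 - cc 1)) ^ 2
        + ((x 2 - cc 2) / (1 - cc 2)) ^ 2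
      linarith [key2 0, key2 1, key2 2]
  · left
    exact ⟨hxc, hb⟩

lemma measurable_sc : Measurable sc := by
  unfold sc
  fun_prop

lemma volume_sdiff_bodyQ : volume (cube \ bodyQ) ≤ ENNReal.ofReal (395 / 10000) := by
  refine (measure_mono sdiff_subset_union).trans ((measure_union_le _ _).trans ?_)
  have h1 : volume (cube \ box 0 (fun _ => bb)) ≤ ENNReal.ofReal (1 / 10000) := by
    have hsub : box 0 (fun _ => bb) ⊆ cube := by
      intro x hx i
      have := hx i
      have hb := bb_eq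
      simp only [PiLp.zero_apply, sub_zero] at this
      linarith
    have hfin : volume (box 0 (fun _ => bb)) ≠ ⊤ := by
      rw [volume_box _ _ (fun _ => bb_pos.le)]; exact ENNReal.ofReal_ne_top
    rw [measure_sdiff hsub (measurableSet_box _ _).nullMeasurableSet hfin, volume_cube,
      volume_box _ _ (fun _ => bb_pos.le), ← ENNReal.ofReal_sub _ (by
        have := bb_pos; positivity)]
    apply ENNReal.ofReal_le_ofReal
    rw [bb_eq]; norm_num
  have h2 : volume {x : E3 | (fun i => x i) ∈ sc ⁻¹' W0} ≤ ENNReal.ofReal (39 / 1000) := by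
    rw [volume_E3 (measurable_sc measurableSet_W0), volume_sc]
    have h3 : volume W0 ≤ ENNReal.ofReal 0.035 := Pool.Agent.Helper27.Cube.W0_le
    refine (mul_le_mul_right h3 _).trans ?_
    rw [← ENNReal.ofReal_mul (by norm_num)]
    apply ENNReal.ofReal_le_ofReal
    norm_num
  refine (add_le_add h1 h2).trans ?_
  rw [← ENNReal.ofReal_add (by norm_num) (by norm_num)]
  apply ENNReal.ofReal_le_ofReal
  norm_num

lemma volume_sdiff_bodyQ_real : (volume (cube \ bodyQ)).toReal ≤ 395 / 10000 :=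
  ENNReal.toReal_le_of_le_ofReal (by norm_num) volume_sdiff_bodyQ

lemma volume_cube_real : (volume cube).toReal = 8 := by
  rw [volume_cube, ENNReal.toReal_ofReal (by norm_num)]

lemma isCompact_cube : IsCompact cube := bodyK_one ▸ isCompact_bodyK 1

lemma volume_bodyQ_ge : 79605 / 10000 ≤ (volume bodyQ).toReal := by
  have h1 : volume cube ≤ volume bodyQ + volume (cube \ bodyQ) := by
    refine (measure_mono ?_).trans (measure_union_le _ _)
    intro x hx
    by_cases h : x ∈ bodyQ
    · exact Or.inl h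
    · exact Or.inr ⟨hx, h⟩
  have hf1 : volume bodyQ ≠ ⊤ := isCompact_bodyQ.measure_lt_top.ne
  have hf2 : volume (cube \ bodyQ) ≠ ⊤ :=
    (lt_of_le_of_lt (measure_mono sdiff_subset) isCompact_cube.measure_lt_top).ne
  have h2 := ENNReal.toReal_mono (ENNReal.add_ne_top.mpr ⟨hf1, hf2⟩) h1
  rw [ENNReal.toReal_add hf1 hf2, volume_cube_real] at h2
  have := volume_sdiff_bodyQ_real
  linarith

lemma centroid_bodyQ (i : Fin 3) : |centroid bodyQ i| ≤ 1 / 200 := by
  have h1 := centroid_bound isCompact_cube isCompact_bodyQ bodyQ_subset_cube (d := 1)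
    (fun x hx => hx) (integral_symm_zero (fun x => by simp [cube])) volume_sdiff_bodyQ_real
    (V := 79605 / 10000) (by norm_num) volume_bodyQ_ge (by norm_num) i
  refine h1.trans ?_
  norm_num

lemma centroid_mem_interior : centroid bodyQ ∈ interior bodyQ :=
  mem_interior_bodyQ (fun i => (centroid_bodyQ i).trans (by norm_num))

end Pool.Agent.Helper16.Rob
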