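import Pool.Agent.Helper16.RobQ6

open MeasureTheory Set Metric Filter
open scoped RealInnerProductSpace ENNReal ContDiff Topology

namespace Pool.Agent.Helper16.Rob

/-- The multiplier. -/
noncomputable def lamQ (q : E3) : ℝ := ‖q - centroid bodyQ‖ / ‖fderiv ℝ fQ q‖

/-- Coordinates of the centre of gravity. -/
noncomputable def gQ : Fin 3 → ℝ := fun i => centroid bodyQ i

lemma pt_of_equilibrium {q : E3} (hq : IsEquilibrium bodyQ q) :
    Pt gQ (fun i => q i) (lamQ q) := by
  have hf := isSmoothDefining_fQ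
  have h0 : fQ q = 0 := hf.eq_zero_of_mem_frontier hq.1
  have hqG : q ≠ centroid bodyQ := by
    intro h'; exact hq.1.2 (h' ▸ centroid_mem_interior)
  refine ⟨centroid_bodyQ, ?_, ?_, ?_⟩
  · exact div_pos (norm_pos_iff.mpr (sub_ne_zero.mpr hqG)) (norm_pos_iff.mpr (hf.2.2 q h0))
  · intro i
    have h1 := hf.normal h0 hq.2 (EuclideanSpace.single i 1)
    rw [fderiv_fQ_apply, inner_E3] at h1
    show q i - centroid bodyQ i = lamQ q * phi1 i (q i)
    rw [lamQ]
    fin_cases i <;> simpa [PiLp.single_apply] using h1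
  · rw [fQ] at h0
    show phi 0 (q 0) + phi 1 (q 1) + phi 2 (q 2) = kk
    linarith

lemma hess_bodyQ (q u v : E3) : hess bodyQ fQ q u v
    = form (fun x => 1 - lamQ q * phi2 x (q x)) (fun i => u i) (fun i => v i) := by
  rw [hess, fderiv2_fQ_apply, inner_E3, form, lamQ]
  ring

lemma inner_iff_orth (q u : E3) :
    ⟪q - centroid bodyQ, u⟫ = 0 ↔ orth (fun x => q x - gQ x) (fun i => u i) := by
  rw [inner_E3, orth]
  simp [gQ]

/-- The vector with given coordinates. -/
noncomputable def toE (u : Fin 3 → ℝ) : E3 := WithLp.toLp 2 u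

lemma toE_apply (u : Fin 3 → ℝ) : (fun i => toE u i) = u := rfl

lemma toE_ne_zero {u : Fin 3 → ℝ} (hu : u ≠ 0) : toE u ≠ 0 := by
  intro h
  apply hu
  rw [← toE_apply u, h]; rfl

lemma coord_ne_zero {u : E3} (hu : u ≠ 0) : (fun i => u i) ≠ 0 := by
  intro h
  apply hu
  ext i
  exact congrFun h i

lemma exists_orth (n : Fin 3 → ℝ) : ∃ u, orth n u ∧ u ≠ 0 := by
  have n01 : (0 : Fin 3) ≠ 1 := by decide
  have n02 : (0 : Fin 3) ≠ 2 := by decide
  have n12 : (1 : Fin 3) ≠ 2 := by decide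
  by_cases h : n 0 = 0
  · refine ⟨vec 0 1 1 0, ?_, ?_⟩
    · simp [orth, vec, h]
    · intro h0
      have := congrFun h0 0
      simp [vec] at this
  · refine ⟨_, orth_vec n01 n02 n12 n, ?_⟩
    intro h0
    have := congrFun h0 1
    simp [vec] at this
    exact h this

/-- The stable points. -/
def SQ : Set E3 := {q | IsEquilibrium bodyQ q ∧
        ∀ u, ⟪q - centroid bodyQ, u⟫ = 0 → u ≠ 0 → 0 < hess bodyQ fQ q u u}

/-- The unstable points. -/
def UQ : Set E3 := {q | IsEquilibrium bodyQ q ∧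
        ∀ u, ⟪q - centroid bodyQ, u⟫ = 0 → u ≠ 0 → hess bodyQ fQ q u u < 0}

lemma stab_of_mem {q : E3} (hq : q ∈ SQ) : Pt.Stab gQ (fun i => q i) (lamQ q) := by
  have hpt := pt_of_equilibrium hq.1
  have hpos : ∀ u : Fin 3 → ℝ, orth (fun x => q x - gQ x) u → u ≠ 0 →
      0 < form (fun x => 1 - lamQ q * phi2 x (q x)) u u := by
    intro u hu hu0
    have := hq.2 (toE u) ((inner_iff_orth q _).mpr hu) (toE_ne_zero hu0)
    rwa [hess_bodyQ, toE_apply] at this
  rcases hpt.classify with h | h | h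
  · exact h
  · exfalso
    obtain ⟨u, hu, hu0⟩ := exists_orth (fun x => q x - gQ x)
    have h1 := hpos u hu hu0
    have h2 := h.2.2.2 u hu0
    exact absurd h1 (not_lt.mpr h2.le)
  · exfalso
    obtain ⟨-, ⟨u, hu, hlt⟩, -⟩ := h
    have hu0 : u ≠ 0 := by
      rintro rfl
      simp [form] at hlt
    exact absurd (hpos u hu hu0) (not_lt.mpr hlt.le)

lemma unst_of_mem {q : E3} (hq : q ∈ UQ) : Pt.Unst (fun i => q i) (lamQ q) := by
  have hpt := pt_of_equilibrium hq.1
  have hneg : ∀ u : Fin 3 → ℝ, orth (fun x => q x - gQ x) u → u ≠ 0 →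
      form (fun x => 1 - lamQ q * phi2 x (q x)) u u < 0 := by
    intro u hu hu0
    have := hq.2 (toE u) ((inner_iff_orth q _).mpr hu) (toE_ne_zero hu0)
    rwa [hess_bodyQ, toE_apply] at this
  rcases hpt.classify with h | h | h
  · exfalso
    obtain ⟨u, hu, hu0⟩ := exists_orth (fun x => q x - gQ x)
    exact absurd (hneg u hu hu0) (not_lt.mpr (h.2.2 u hu hu0).le)
  · exact h
  · exfalso
    obtain ⟨⟨u, hu, hlt⟩, -, -⟩ := h
    have hu0 : u ≠ 0 := by
      rintro rfl
      simp [form] at hlt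
    exact absurd (hneg u hu hu0) (not_lt.mpr hlt.le)

lemma nondeg_bodyQ {q : E3} (hq : IsEquilibrium bodyQ q) {u : E3}
    (hu : ⟪q - centroid bodyQ, u⟫ = 0)
    (h : ∀ v, ⟪q - centroid bodyQ, v⟫ = 0 → hess bodyQ fQ q u v = 0) : u = 0 := by
  have hpt := pt_of_equilibrium hq
  have hu' := (inner_iff_orth q u).mp hu
  by_contra hu0
  have hu1 := coord_ne_zero hu0
  rcases hpt.classify with h1 | h1 | h1
  · have h2 := h1.2.2 _ hu' hu1
    rw [← hess_bodyQ, h u hu] at h2
    exact lt_irrefl _ h2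
  · have h2 := h1.2.2.2 _ hu1
    rw [← hess_bodyQ, h u hu] at h2
    exact lt_irrefl _ h2
  · apply hu1
    apply h1.2.2 _ hu'
    intro v hv
    have := h (toE v) ((inner_iff_orth q _).mpr hv)
    rwa [hess_bodyQ, toE_apply] at this

/-- The pattern of a stable point. -/
noncomputable def pat (q : E3) : Fin 3 × Bool :=
  if bb < |q 0| then (0, decide (0 < q 0)) else
  if bb < |q 1| then (1, decide (0 < q 1)) else (2, decide (0 < q 2))

lemma pat_eq {q : E3} {i : Fin 3} (hi : bb < |q i|) (ho : ∀ j, j ≠ i → |q j| ≤ bb) :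
    pat q = (i, decide (0 < q i)) := by
  fin_cases i
  · show pat q = (0, decide (0 < q 0))
    have hi' : bb < |q 0| := hi
    rw [pat, if_pos hi']
  · show pat q = (1, decide (0 < q 1))
    have hi' : bb < |q 1| := hi
    rw [pat, if_neg (not_lt.mpr (ho 0 (by decide))), if_pos hi']
  · show pat q = (2, decide (0 < q 2))
    rw [pat, if_neg (not_lt.mpr (ho 0 (by decide))), if_neg (not_lt.mpr (ho 1 (by decide)))]

lemma sameSign_of {a b : ℝ} (ha : bb < |a|) (hb : bb < |b|)
    (h : decide (0 < a) = decide (0 < b)) : SameSign a b := by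
  have h0 := bb_pos
  have hiff : 0 < a ↔ 0 < b := by simpa using h
  have ha0 : a ≠ 0 := by
    rintro rfl; rw [abs_zero] at ha; linarith
  have hb0 : b ≠ 0 := by
    rintro rfl; rw [abs_zero] at hb; linarith
  rcases lt_or_gt_of_ne ha0 with h1 | h1
  · right
    refine ⟨h1, ?_⟩
    rcases lt_or_gt_of_ne hb0 with h2 | h2
    · exact h2
    · exact absurd (hiff.mpr h2) (not_lt.mpr h1.le)
  · exact Or.inl ⟨h1, hiff.mp h1⟩

lemma ext_coord {q q' : E3} (h : (fun i => q i) = (fun i => q' i)) : q = q' := by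
  ext i; exact congrFun h i

lemma injOn_pat : InjOn pat SQ := by
  intro q hq q' hq' hpp
  obtain ⟨⟨i, hi, hio, hiw⟩, hl, -⟩ := stab_of_mem hq
  obtain ⟨⟨i', hi', hio', hiw'⟩, hl', -⟩ := stab_of_mem hq'
  rw [pat_eq hi hio, pat_eq hi' hio'] at hpp
  have e1 : i = i' := (Prod.ext_iff.mp hpp).1
  have e2 := (Prod.ext_iff.mp hpp).2
  subst e1
  exact ext_coord ((pt_of_equilibrium hq.1).unique_stab (pt_of_equilibrium hq'.1) hl hl' hi hi'
    (sameSign_of hi hi' e2) hiw hiw' hio hio')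

/-- The pattern of an unstable point. -/
noncomputable def pat' (q : E3) : Fin 3 → Bool := fun i => decide (0 < q i)

lemma injOn_pat' : InjOn pat' UQ := by
  intro q hq q' hq' hpp
  have h := unst_of_mem hq
  have h' := unst_of_mem hq'
  exact ext_coord ((pt_of_equilibrium hq.1).unique_unst (pt_of_equilibrium hq'.1) h h'
    (fun i => sameSign_of (h.1 i) (h'.1 i) (congrFun hpp i)))

lemma encard_SQ : SQ.encard ≤ (6 : ℕ) := by
  rw [← injOn_pat.encard_image]
  refine (encard_le_encard (subset_univ _)).trans ?_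
  rw [encard_univ]
  simp

lemma encard_UQ : UQ.encard ≤ (7 : ℕ) := by
  rw [← injOn_pat'.encard_image]
  have hsub : pat' '' UQ ⊆ ((Finset.univ.filter (fun σ : Fin 3 → Bool => ¬ ∀ i, σ i = true) :
      Finset (Fin 3 → Bool)) : Set (Fin 3 → Bool)) := by
    rintro _ ⟨q, hq, rfl⟩
    obtain ⟨-, ⟨i, hi⟩, -⟩ := unst_of_mem hq
    simp only [Finset.coe_filter, Finset.mem_univ, true_and, mem_ofPred_eq, not_forall]
    refine ⟨i, ?_⟩
    have : ¬ (0 < q i) := by have := bb_pos; have : q i < -bb := hi; linarith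
    simp [pat', this]
  refine (encard_le_encard hsub).trans ?_
  rw [encard_coe_eq_coe_finsetCard]
  have : (Finset.univ.filter (fun σ : Fin 3 → Bool => ¬ ∀ i, σ i = true)).card = 7 := by decide
  rw [this]

/-- The smooth body has at most `6` stable and at most `7` unstable equilibria. -/
theorem inClass_bodyQ : ∃ S U : ℕ, S ≤ 6 ∧ U ≤ 7 ∧ InClass S U bodyQ := by
  obtain ⟨S, hS, hS6⟩ := ENat.le_natCast_iff.mp encard_SQ
  obtain ⟨U, hU, hU7⟩ := ENat.le_natCast_iff.mp encard_UQ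
  refine ⟨S, U, hS6, hU7, isConvexBody_bodyQ, Or.inr ⟨fQ, isSmoothDefining_fQ, ?_, hS, hU⟩⟩
  intro q hq u hu h
  exact nondeg_bodyQ hq hu h

end Pool.Agent.Helper16.Rob
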