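import Pool.Agent.Helper16.RobBasic

open MeasureTheory Set Metric Filter
open scoped RealInnerProductSpace ENNReal ContDiff Topology

namespace Pool.Agent.Helper16.Rob

/-- A function of one real variable with vanishing value and derivative and positive second
derivative at `0` is positive to the right of `0`. -/
lemma pos_right_of_second_deriv {φ ψ : ℝ → ℝ} {L : ℝ} (hφ : ∀ t, HasDerivAt φ (ψ t) t)
    (hψ : HasDerivAt ψ L 0) (h0 : φ 0 = 0) (h1 : ψ 0 = 0) (hL : 0 < L) :
    ∀ᶠ t : ℝ in 𝓝[>] 0, 0 < φ t := by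
  have hs := hasDerivAt_iff_tendsto_slope.mp hψ
  have hs' : Tendsto (slope ψ 0) (𝓝[>] 0) (𝓝 L) :=
    hs.mono_left (nhdsWithin_mono _ (fun x hx => ne_of_gt hx))
  have hpos : ∀ᶠ t : ℝ in 𝓝[>] 0, 0 < ψ t := by
    filter_upwards [hs'.eventually (lt_mem_nhds hL), self_mem_nhdsWithin] with t ht ht0
    have ht0' : (0:ℝ) < t := ht0
    rw [slope_def_field, h1, sub_zero, sub_zero] at ht
    by_contra hcon
    push Not at hcon
    have := div_nonpos_of_nonpos_of_nonneg hcon ht0'.le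
    linarith
  rw [eventually_iff, mem_nhdsGT_iff_exists_Ioo_subset] at hpos
  obtain ⟨δ, hδ, hsub⟩ := hpos
  have hδ' : (0:ℝ) < δ := hδ
  filter_upwards [Ioo_mem_nhdsGT hδ'] with t ht
  have hcont : ContinuousOn φ (Icc 0 t) := fun x _ => (hφ x).continuousAt.continuousWithinAt
  have hmono : StrictMonoOn φ (Icc 0 t) := by
    apply strictMonoOn_of_deriv_pos (convex_Icc 0 t) hcont
    intro x hx
    rw [interior_Icc] at hx
    rw [(hφ x).deriv]
    exact hsub ⟨hx.1, hx.2.trans ht.2⟩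
  have := hmono (left_mem_Icc.mpr ht.1.le) (right_mem_Icc.mpr ht.1.le) ht.1
  rwa [h0] at this

lemma second_order_pos {f : E3 → ℝ} (hf : ContDiff ℝ ∞ f) {q u w : E3} (hq : f q = 0)
    (hu : fderiv ℝ f q u = 0)
    (hw : 0 < 2 * fderiv ℝ f q w + fderiv ℝ (fderiv ℝ f) q u u) :
    ∀ᶠ t : ℝ in 𝓝[>] 0, 0 < f (q + t • u + t ^ 2 • w) := by
  have hγ : ∀ t : ℝ, HasDerivAt (fun t : ℝ => q + t • u + t ^ 2 • w) (u + (2 * t) • w) t := by
    intro t
    have h1 : HasDerivAt (fun t : ℝ => t • u) ((1:ℝ) • u) t := (hasDerivAt_id t).smul_const u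
    have h2 : HasDerivAt (fun t : ℝ => t ^ 2 • w) ((2 * t) • w) t := by
      have := (hasDerivAt_pow 2 t).smul_const w
      simpa using this
    have h3 : HasDerivAt (fun t : ℝ => q + t • u + t ^ 2 • w) ((1:ℝ) • u + (2 * t) • w) t :=
      (h1.const_add q).add h2
    rwa [one_smul] at h3
  have hfd : Differentiable ℝ f := hf.differentiable (by simp)
  have hfd2 : Differentiable ℝ (fderiv ℝ f) :=
    (hf.fderiv_right (m := 1) (by norm_cast)).differentiable (by simp)
  have hφ : ∀ t : ℝ, HasDerivAt (fun t : ℝ => f (q + t • u + t ^ 2 • w))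
      (fderiv ℝ f (q + t • u + t ^ 2 • w) (u + (2 * t) • w)) t := by
    intro t
    exact (hfd _).hasFDerivAt.comp_hasDerivAt t (hγ t)
  have hψ : HasDerivAt (fun t : ℝ => fderiv ℝ f (q + t • u + t ^ 2 • w) (u + (2 * t) • w))
      (fderiv ℝ (fderiv ℝ f) q u u + fderiv ℝ f q ((2:ℝ) • w)) 0 := by
    have h1 : HasDerivAt (fun t : ℝ => fderiv ℝ f (q + t • u + t ^ 2 • w))
        (fderiv ℝ (fderiv ℝ f) q u) 0 := by
      have h0 := hγ 0
      simp only [mul_zero, zero_smul, add_zero] at h0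
      have h2 : HasFDerivAt (fderiv ℝ f) (fderiv ℝ (fderiv ℝ f) q)
          (q + (0:ℝ) • u + (0:ℝ) ^ 2 • w) := by
        have : q + (0:ℝ) • u + (0:ℝ) ^ 2 • w = q := by simp
        rw [this]; exact (hfd2 q).hasFDerivAt
      exact h2.comp_hasDerivAt (0:ℝ) h0
    have h2 : HasDerivAt (fun t : ℝ => u + (2 * t) • w) ((2:ℝ) • w) 0 := by
      have h3 : HasDerivAt (fun t : ℝ => (2 * t) • w) ((2 * 1 : ℝ) • w) 0 :=
        ((hasDerivAt_id (0:ℝ)).const_mul 2).smul_const w
      simpa using h3.const_add u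
    have h3 := h1.clm_apply h2
    simpa using h3
  have := pos_right_of_second_deriv hφ hψ (by simpa using hq) (by simpa using hu) (by
    rw [map_smul, smul_eq_mul]; linarith)
  exact this

end Pool.Agent.Helper16.Rob
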