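import Pool.Agent.Helper16.RobClass

open MeasureTheory Set Metric Filter
open scoped RealInnerProductSpace ENNReal ContDiff Topology

namespace Pool.Agent.Helper16.Rob

/-- Volumes in `E3` are volumes in coordinates. -/
lemma volume_E3 {s : Set (Fin 3 → ℝ)} (hs : MeasurableSet s) :
    volume {x : E3 | (fun i => x i) ∈ s} = volume s :=
  (PiLp.volume_preserving_ofLp (Fin 3)).measure_preimage hs.nullMeasurableSet

/-- Coordinate boxes. -/
def box (p : E3) (h : Fin 3 → ℝ) : Set E3 := {x | ∀ i, |x i - p i| ≤ h i}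

lemma box_eq (p : E3) (h : Fin 3 → ℝ) :
    box p h = {x : E3 | (fun i => x i) ∈ Icc (fun i => p i - h i) (fun i => p i + h i)} := by
  ext x
  simp only [box, mem_ofPred_eq, mem_Icc, Pi.le_def, abs_le]
  constructor
  · intro hx
    exact ⟨fun i => by linarith [(hx i).1], fun i => by linarith [(hx i).2]⟩
  · rintro ⟨h1, h2⟩ i
    exact ⟨by linarith [h1 i], by linarith [h2 i]⟩

lemma measurableSet_box (p : E3) (h : Fin 3 → ℝ) : MeasurableSet (box p h) := by
  rw [box_eq]
  exact (PiLp.volume_preserving_ofLp (Fin 3)).measurable measurableSet_Icc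

lemma volume_box (p : E3) (h : Fin 3 → ℝ) (hh : ∀ i, 0 ≤ h i) :
    volume (box p h) = ENNReal.ofReal (8 * (h 0 * h 1 * h 2)) := by
  rw [box_eq, volume_E3 measurableSet_Icc, Real.volume_Icc_pi, Fin.prod_univ_three]
  have e : ∀ i, p i + h i - (p i - h i) = 2 * h i := fun i => by ring
  rw [e, e, e, ← ENNReal.ofReal_mul (by have := hh 0; positivity),
    ← ENNReal.ofReal_mul (by have := hh 0; have := hh 1; positivity)]
  congr 1; ring

lemma cube_eq_box : cube = box 0 (fun _ => 1) := by
  ext x; simp [cube, box]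

lemma volume_cube : volume cube = ENNReal.ofReal 8 := by
  rw [cube_eq_box, volume_box _ _ (fun _ => zero_le_one)]; norm_num

lemma volume_plane {a p : E3} (ha : a ≠ 0) : volume {x : E3 | ⟪a, x⟫ = ⟪a, p⟫} = 0 := by
  have h1 : {x : E3 | ⟪a, x⟫ = ⟪a, p⟫} = (AffineSubspace.mk' p (ℝ ∙ a)ᗮ : Set E3) := by
    ext x
    simp only [mem_ofPred_eq, SetLike.mem_coe, AffineSubspace.mem_mk', vsub_eq_sub,
      Submodule.mem_orthogonal_singleton_iff_inner_right, inner_sub_right, sub_eq_zero]
  rw [h1]
  apply Measure.addHaar_affineSubspace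
  intro htop
  have h2 : p + a ∈ AffineSubspace.mk' p (ℝ ∙ a)ᗮ := by rw [htop]; trivial
  rw [AffineSubspace.mem_mk', vsub_eq_sub, add_sub_cancel_left,
    Submodule.mem_orthogonal_singleton_iff_inner_right, real_inner_self_eq_norm_sq] at h2
  exact ha (norm_eq_zero.mp (pow_eq_zero_iff (by norm_num) |>.mp h2))

/-- A point that is deep inside the cube cannot be outside the interior of a convex body that
misses only a small part of a set containing the cube. -/
lemma depth {K K' : Set E3} (hK' : IsConvexBody K') (hcube : cube ⊆ K) {p : E3}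
    (hp : ∀ i, |p i| < 1)
    (hvol : volume (K \ K') <
      ENNReal.ofReal (4 * ((1 - |p 0|) * (1 - |p 1|) * (1 - |p 2|)))) : p ∈ interior K' := by
  by_contra hcon
  obtain ⟨a, ha0, ha⟩ := exists_support hK'.1 hK'.2.2 hcon
  set h : Fin 3 → ℝ := fun i => 1 - |p i| with hh
  have hh0 : ∀ i, 0 ≤ h i := fun i => by have := hp i; simp only [hh]; linarith
  set B : Set E3 := box p h with hB
  have hBcube : B ⊆ cube := by
    intro x hx i
    have h1 : |x i - p i| ≤ 1 - |p i| := hx i
    calc |x i| = |(x i - p i) + p i| := by ring_nf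
      _ ≤ |x i - p i| + |p i| := abs_add_le _ _
      _ ≤ 1 := by linarith
  set Bp : Set E3 := B ∩ {x | ⟪a, p⟫ < ⟪a, x⟫} with hBp
  set Bm : Set E3 := B ∩ {x | ⟪a, x⟫ < ⟪a, p⟫} with hBm
  have hBpsub : Bp ⊆ K \ K' := by
    rintro x ⟨hxB, hx⟩
    exact ⟨hcube (hBcube hxB), fun hxK' => absurd (ha x hxK') (not_le.mpr hx)⟩
  have hmeas : MeasurableSet Bm := by
    apply (measurableSet_box p h).inter
    exact (isOpen_lt (by fun_prop) continuous_const).measurableSet
  have hsymm : volume Bp = volume Bm := by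
    have hmp : MeasurePreserving (fun x : E3 => (2:ℝ) • p - x) volume volume :=
      Measure.measurePreserving_sub_left volume ((2:ℝ) • p)
    have hpre : (fun x : E3 => (2:ℝ) • p - x) ⁻¹' Bm = Bp := by
      ext x
      simp only [hBm, hBp, mem_preimage, mem_inter_iff, hB, box, mem_ofPred_eq,
        inner_sub_right, inner_smul_right]
      constructor
      · rintro ⟨h1, h2⟩
        refine ⟨fun i => ?_, by linarith⟩
        have := h1 i
        have e : ((2:ℝ) • p - x) i - p i = -(x i - p i) := by
          simp only [PiLp.sub_apply, PiLp.smul_apply, smul_eq_mul]; ring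
        rwa [e, abs_neg] at this
      · rintro ⟨h1, h2⟩
        refine ⟨fun i => ?_, by linarith⟩
        have e : ((2:ℝ) • p - x) i - p i = -(x i - p i) := by
          simp only [PiLp.sub_apply, PiLp.smul_apply, smul_eq_mul]; ring
        rw [e, abs_neg]; exact h1 i
    rw [← hpre]
    exact hmp.measure_preimage hmeas.nullMeasurableSet
  have hBle : volume B ≤ volume Bp + volume Bm + 0 := by
    rw [← volume_plane (p := p) ha0]
    refine le_trans (measure_mono ?_) ((measure_union_le (Bp ∪ Bm) _).trans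
      (add_le_add_left (measure_union_le Bp Bm) _))
    intro x hx
    rcases lt_trichotomy ⟪a, p⟫ ⟪a, x⟫ with h1 | h1 | h1
    · exact Or.inl (Or.inl ⟨hx, h1⟩)
    · exact Or.inr h1.symm
    · exact Or.inl (Or.inr ⟨hx, h1⟩)
  rw [add_zero, ← hsymm] at hBle
  have hlt : volume Bp < ENNReal.ofReal (4 * ((1 - |p 0|) * (1 - |p 1|) * (1 - |p 2|))) :=
    lt_of_le_of_lt (measure_mono hBpsub) hvol
  have hBvol : volume B = ENNReal.ofReal (8 * ((1 - |p 0|) * (1 - |p 1|) * (1 - |p 2|))) :=
    volume_box p h hh0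
  have h8 : ENNReal.ofReal (8 * ((1 - |p 0|) * (1 - |p 1|) * (1 - |p 2|)))
      = ENNReal.ofReal (4 * ((1 - |p 0|) * (1 - |p 1|) * (1 - |p 2|)))
        + ENNReal.ofReal (4 * ((1 - |p 0|) * (1 - |p 1|) * (1 - |p 2|))) := by
    have h0 := hh0 0
    have h1 := hh0 1
    have h2 := hh0 2
    simp only [hh] at h0 h1 h2
    rw [← ENNReal.ofReal_add (by positivity) (by positivity)]
    congr 1; ring
  rw [hBvol, h8] at hBle
  exact absurd (ENNReal.add_lt_add hlt hlt) (not_lt.mpr hBle)

/-- Coordinates of vector integrals. -/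
lemma integral_coord {S : Set E3} (hS : IntegrableOn (fun x : E3 => x) S) (i : Fin 3) :
    (∫ x in S, x) i = ∫ x in S, x i := by
  have := (EuclideanSpace.proj (𝕜 := ℝ) (ι := Fin 3) i).integral_comp_comm hS
  simpa using this.symm

lemma integral_symm_zero {K : Set E3} (hK : ∀ x, x ∈ K ↔ -x ∈ K) :
    ∫ x in K, x = 0 := by
  have h1 : ∫ x in K, x = ∫ x in K, -x := by
    have hmp : MeasurePreserving (fun x : E3 => -x) volume volume :=
      Measure.measurePreserving_neg volume
    have hpre : (fun x : E3 => -x) ⁻¹' K = K := by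
      ext x; exact (hK x).symm
    have h2 := hmp.setIntegral_preimage_emb (MeasurableEquiv.neg E3).measurableEmbedding
      (fun x : E3 => -x) K
    rw [hpre] at h2
    simpa using h2
  rw [integral_neg] at h1
  have h2 : (2:ℝ) • ∫ x in K, x = 0 := by
    rw [two_smul]
    nth_rewrite 1 [h1]
    simp
  rcases smul_eq_zero.mp h2 with h | h
  · norm_num at h
  · exact h

lemma centroid_bound {K K' : Set E3} (hKc : IsCompact K) (hK'c : IsCompact K')
    (hsub : K' ⊆ K) {d v V : ℝ} (hd : ∀ x ∈ K, ∀ i, |x i| ≤ d)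
    (h0 : ∫ x in K, x = 0) (hv : (volume (K \ K')).toReal ≤ v) (hV : 0 < V)
    (hVK : V ≤ (volume K').toReal) (hd0 : 0 ≤ d) (i : Fin 3) :
    |centroid K' i| ≤ d * v / V := by
  have hint : ∀ {S : Set E3}, S ⊆ K → IntegrableOn (fun x : E3 => x) S := by
    intro S hS
    exact (continuous_id.continuousOn.integrableOn_compact hKc).mono_set hS
  have hm' : MeasurableSet K' := hK'c.measurableSet
  have h1 : ∫ x in K \ K', x = -∫ x in K', x := by
    have := integral_inter_add_sdiff (s := K) (t := K') (μ := volume) (f := fun x : E3 => x) hm'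
      (hint subset_rfl)
    rw [inter_eq_self_of_subset_right hsub, h0] at this
    exact eq_neg_of_add_eq_zero_right this
  have hfin : volume (K \ K') < ⊤ :=
    lt_of_le_of_lt (measure_mono sdiff_subset) hKc.measure_lt_top
  have h2 : |(∫ x in K', x) i| ≤ d * v := by
    have h3 : (∫ x in K', x) i = -∫ x in K \ K', x i := by
      rw [← integral_coord (hint sdiff_subset) i, h1]
      simp
    rw [h3, abs_neg]
    have h4 : ‖∫ x in K \ K', x i‖ ≤ d * (volume (K \ K')).toReal := by
      apply norm_setIntegral_le_of_norm_le_const hfin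
      intro x hx
      exact hd x hx.1 i
    rw [Real.norm_eq_abs] at h4
    exact h4.trans (mul_le_mul_of_nonneg_left hv hd0)
  have h5 : centroid K' i = (volume K').toReal⁻¹ * (∫ x in K', x) i := by
    simp [centroid]
  have hpos : 0 < (volume K').toReal := lt_of_lt_of_le hV hVK
  rw [h5, abs_mul, abs_inv, abs_of_pos hpos, inv_mul_eq_div, div_le_div_iff₀ hpos hV]
  calc |(∫ x in K', x) i| * V ≤ d * v * V := by
        exact mul_le_mul_of_nonneg_right h2 hV.le
    _ ≤ d * v * (volume K').toReal := by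
        have : 0 ≤ d * v := (abs_nonneg _).trans h2
        exact mul_le_mul_of_nonneg_left hVK this

end Pool.Agent.Helper16.Rob
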